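import Pool.Agent.QPL.Defs

set_option autoImplicit false

namespace QPL

open Set

private theorem chn_mono {g g' : ℝ → ℝ} {u v : ℝ} (huv : u < v)
    (hg : ∀ t ∈ Icc u v, HasDerivAt g (g' t) t) (h0 : ∀ t ∈ Icc u v, 0 ≤ g' t) : g u ≤ g v := by
  have hc : ContinuousOn g (Icc u v) := fun t ht => (hg t ht).continuousAt.continuousWithinAt
  obtain ⟨c, hc1, hc2⟩ := exists_hasDerivAt_eq_slope g g' huv hc
    (fun t ht => hg t (Ioo_subset_Icc_self ht))
  have h1 := h0 c (Ioo_subset_Icc_self hc1)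
  rw [hc2] at h1
  have h2 : 0 < v - u := by linarith
  have h3 := (div_nonneg_iff.1 h1)
  rcases h3 with h3 | h3
  · linarith [h3.1]
  · linarith [h3.2]

private theorem chn_smono {g g' : ℝ → ℝ} {u v : ℝ} (huv : u < v)
    (hg : ∀ t ∈ Icc u v, HasDerivAt g (g' t) t) (h0 : ∀ t ∈ Icc u v, 0 < g' t) : g u < g v := by
  have hc : ContinuousOn g (Icc u v) := fun t ht => (hg t ht).continuousAt.continuousWithinAt
  obtain ⟨c, hc1, hc2⟩ := exists_hasDerivAt_eq_slope g g' huv hc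
    (fun t ht => hg t (Ioo_subset_Icc_self ht))
  have h1 := h0 c (Ioo_subset_Icc_self hc1)
  rw [hc2] at h1
  have h2 : 0 < v - u := by linarith
  have h3 : 0 < g v - g u := by
    by_contra hneg
    push Not at hneg
    have := div_nonpos_of_nonpos_of_nonneg hneg h2.le
    linarith
  linarith

private theorem chn_step {a b σ : ℝ} (hσ : 0 < σ) {J : ℕ} (f : ℕ → ℝ → ℝ)
    (hd : ∀ i ≤ J, ∀ x ∈ Icc a b, HasDerivAt (f i) (f (i + 1) x) x)
    (hpos : ∀ i ≤ J, ∀ x ∈ Icc a b, 0 < f i x ∧ σ / 4 * f i x ≤ f (i + 1) x ∧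
      f (i + 1) x ≤ 4 * σ * f i x)
    (h : ℕ → ℝ) (hh : ∀ i, 0 < h i) (j : ℕ) : ∀ i, i + j ≤ J → ∀ x, a ≤ x →
      x + ∑ l ∈ Finset.range j, h l ≤ b →
      HasDerivAt (Dop h j (f i)) (Dop h j (f (i + 1)) x) x ∧ 0 < Dop h j (f i) x ∧
        σ / 4 * Dop h j (f i) x ≤ Dop h j (f (i + 1)) x ∧
        Dop h j (f (i + 1)) x ≤ 4 * σ * Dop h j (f i) x := by
  induction j with
  | zero =>
    intro i hi x hx hxb
    rw [Finset.sum_range_zero, add_zero] at hxb
    exact ⟨hd i (by omega) x ⟨hx, hxb⟩, hpos i (by omega) x ⟨hx, hxb⟩⟩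
  | succ j ih =>
    intro i hi x hx hxb
    rw [Finset.sum_range_succ] at hxb
    have hj := hh j
    have hxy : x < x + h j := by linarith
    have hin : ∀ i', i' + j ≤ J → ∀ t ∈ Icc x (x + h j),
        HasDerivAt (Dop h j (f i')) (Dop h j (f (i' + 1)) t) t ∧ 0 < Dop h j (f i') t ∧
        σ / 4 * Dop h j (f i') t ≤ Dop h j (f (i' + 1)) t ∧
        Dop h j (f (i' + 1)) t ≤ 4 * σ * Dop h j (f i') t := by
      intro i' hi' t ht
      exact ih i' hi' t (hx.trans ht.1) (by linarith [ht.2])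
    have h0 := hin i (by omega)
    have h1 := hin (i + 1) (by omega)
    refine ⟨?_, ?_, ?_, ?_⟩
    · have e1 := (h0 x ⟨le_rfl, hxy.le⟩).1
      have e2 := (h0 (x + h j) ⟨hxy.le, le_rfl⟩).1
      have e3 : HasDerivAt (fun y => Dop h j (f i) (y + h j)) (Dop h j (f (i + 1)) (x + h j)) x := by
        have := HasDerivAt.comp_add_const x (h j) e2
        exact this
      exact e3.sub e1
    · show 0 < Dop h j (f i) (x + h j) - Dop h j (f i) x
      have := chn_smono hxy (fun t ht => (h0 t ht).1) (fun t ht => (h1 t ht).2.1)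
      linarith
    · show σ / 4 * (Dop h j (f i) (x + h j) - Dop h j (f i) x) ≤
        Dop h j (f (i + 1)) (x + h j) - Dop h j (f (i + 1)) x
      have := chn_mono (g := fun t => Dop h j (f (i + 1)) t - σ / 4 * Dop h j (f i) t)
        (g' := fun t => Dop h j (f (i + 1 + 1)) t - σ / 4 * Dop h j (f (i + 1)) t) hxy
        (fun t ht => (h1 t ht).1.sub ((h0 t ht).1.const_mul (σ / 4)))
        (fun t ht => by
          have := (h1 t ht).2.2.1
          show 0 ≤ Dop h j (f (i + 1 + 1)) t - σ / 4 * Dop h j (f (i + 1)) t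
          linarith)
      linarith
    · show Dop h j (f (i + 1)) (x + h j) - Dop h j (f (i + 1)) x ≤
        4 * σ * (Dop h j (f i) (x + h j) - Dop h j (f i) x)
      have := chn_mono (g := fun t => 4 * σ * Dop h j (f i) t - Dop h j (f (i + 1)) t)
        (g' := fun t => 4 * σ * Dop h j (f (i + 1)) t - Dop h j (f (i + 1 + 1)) t) hxy
        (fun t ht => ((h0 t ht).1.const_mul (4 * σ)).sub (h1 t ht).1)
        (fun t ht => by
          have := (h1 t ht).2.2.2
          show 0 ≤ 4 * σ * Dop h j (f (i + 1)) t - Dop h j (f (i + 1 + 1)) t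
          linarith)
      linarith

/-- CHN. Chain of differences. Put `A j i x = Dop h j (f i) x`. By induction on `j`, for all `i` with `i + j ≤ J` and all
`x` with `a ≤ x`, `x + ∑_{l<j} h l ≤ b`: `A j i x > 0`, `σ/4 A j i x ≤ A j (i+1) x ≤ 4σ A j i x`, and `A j i` has
the derivative `A j (i+1)`: indeed `A (j+1) i x = ∫_0^{h j} A j (i+1) (x+t) dt`. Then `A j 0` is increasing, so
`A (j+1) 0 x ≥ ∫_0^{h j} σ/4 A j 0 (x+t) dt ≥ σ/4 h_j A j 0 x`, and `A j 0 (x+h) ≤ e^{4σh} A j 0 x` (the function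
`e^{-4σt} A j 0 (x+t)` is decreasing). -/
theorem chain {a b σ : ℝ} (hσ : 0 < σ) {J : ℕ} (f : ℕ → ℝ → ℝ)
    (hd : ∀ i ≤ J, ∀ x ∈ Icc a b, HasDerivAt (f i) (f (i + 1) x) x)
    (hpos : ∀ i ≤ J, ∀ x ∈ Icc a b, 0 < f i x ∧ σ / 4 * f i x ≤ f (i + 1) x ∧
      f (i + 1) x ≤ 4 * σ * f i x)
    (h : ℕ → ℝ) (hh : ∀ i, 0 < h i) (j : ℕ) (hj : j + 1 ≤ J) (x : ℝ) (hx : a ≤ x)
    (hxb : x + ∑ i ∈ Finset.range (j + 1), h i ≤ b) :
    0 < Dop h j (f 0) x ∧ σ / 4 * h j * Dop h j (f 0) x ≤ Dop h (j + 1) (f 0) x ∧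
      Dop h (j + 1) (f 0) x ≤ (Real.exp (4 * σ * h j) - 1) * Dop h j (f 0) x := by
  rw [Finset.sum_range_succ] at hxb
  have hjp := hh j
  have hxy : x < x + h j := by linarith
  have h0 : ∀ t ∈ Icc x (x + h j),
      HasDerivAt (Dop h j (f 0)) (Dop h j (f 1) t) t ∧ 0 < Dop h j (f 0) t ∧
        σ / 4 * Dop h j (f 0) t ≤ Dop h j (f 1) t ∧
        Dop h j (f 1) t ≤ 4 * σ * Dop h j (f 0) t := by
    intro t ht
    exact chn_step hσ f hd hpos h hh j 0 (by omega) t (hx.trans ht.1) (by linarith [ht.2])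
  have hx0 := h0 x ⟨le_rfl, hxy.le⟩
  have hge : ∀ t ∈ Icc x (x + h j), Dop h j (f 0) x ≤ Dop h j (f 0) t := by
    intro t ht
    rcases eq_or_lt_of_le ht.1 with h1 | h1
    · rw [h1]
    · exact chn_mono h1 (fun s hs => (h0 s ⟨hs.1, hs.2.trans ht.2⟩).1)
        (fun s hs => by
          have e := h0 s ⟨hs.1, hs.2.trans ht.2⟩
          have : 0 ≤ σ / 4 * Dop h j (f 0) s := by
            have := e.2.1
            positivity
          exact this.trans e.2.2.1)
  refine ⟨hx0.2.1, ?_, ?_⟩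
  · show σ / 4 * h j * Dop h j (f 0) x ≤ Dop h j (f 0) (x + h j) - Dop h j (f 0) x
    have := chn_mono (g := fun t => Dop h j (f 0) t - σ / 4 * Dop h j (f 0) x * t)
      (g' := fun t => Dop h j (f 1) t - σ / 4 * Dop h j (f 0) x * 1) hxy
      (fun t ht => (h0 t ht).1.sub ((hasDerivAt_id t).const_mul (σ / 4 * Dop h j (f 0) x)))
      (fun t ht => by
        have e1 := (h0 t ht).2.2.1
        have e2 := hge t ht
        have e3 : σ / 4 * Dop h j (f 0) x ≤ σ / 4 * Dop h j (f 0) t :=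
          mul_le_mul_of_nonneg_left e2 (by positivity)
        show 0 ≤ Dop h j (f 1) t - σ / 4 * Dop h j (f 0) x * 1
        linarith)
    linarith
  · show Dop h j (f 0) (x + h j) - Dop h j (f 0) x ≤ _
    have := chn_mono (g := fun t => -(Real.exp (-(4 * σ * t)) * Dop h j (f 0) t))
      (g' := fun t => -(Real.exp (-(4 * σ * t)) * (-(4 * σ * 1)) * Dop h j (f 0) t +
        Real.exp (-(4 * σ * t)) * Dop h j (f 1) t)) hxy
      (fun t ht => by
        have e1 : HasDerivAt (fun t : ℝ => Real.exp (-(4 * σ * t)))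
            (Real.exp (-(4 * σ * t)) * (-(4 * σ * 1))) t :=
          (((hasDerivAt_id t).const_mul (4 * σ)).neg).exp
        exact (e1.mul (h0 t ht).1).neg)
      (fun t ht => by
        have e1 := (h0 t ht).2.2.2
        have e2 : 0 < Real.exp (-(4 * σ * t)) := Real.exp_pos _
        have e3 : Real.exp (-(4 * σ * t)) * Dop h j (f 1) t ≤
            Real.exp (-(4 * σ * t)) * (4 * σ * Dop h j (f 0) t) :=
          mul_le_mul_of_nonneg_left e1 e2.le
        show 0 ≤ -(Real.exp (-(4 * σ * t)) * (-(4 * σ * 1)) * Dop h j (f 0) t +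
          Real.exp (-(4 * σ * t)) * Dop h j (f 1) t)
        linarith)
    have e4 : Real.exp (-(4 * σ * (x + h j))) * Dop h j (f 0) (x + h j) ≤
        Real.exp (-(4 * σ * x)) * Dop h j (f 0) x := by linarith
    have e5 : Real.exp (4 * σ * (x + h j)) * (Real.exp (-(4 * σ * (x + h j))) *
        Dop h j (f 0) (x + h j)) ≤
        Real.exp (4 * σ * (x + h j)) * (Real.exp (-(4 * σ * x)) * Dop h j (f 0) x) :=
      mul_le_mul_of_nonneg_left e4 (Real.exp_pos _).le
    rw [← mul_assoc, ← mul_assoc, ← Real.exp_add, ← Real.exp_add, add_neg_cancel, Real.exp_zero,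
      one_mul, show 4 * σ * (x + h j) + -(4 * σ * x) = 4 * σ * h j by ring] at e5
    linarith

end QPL
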