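import Pool.Agent.QPL.Defs

set_option autoImplicit false

namespace QPL

open Complex Metric

private theorem cir_cauchy {f : ℂ → ℂ} {c : ℂ} {r : ℝ} (m : ℕ) (hr : 0 < r)
    (hf : DifferentiableOn ℂ f (closedBall c r)) :
    iteratedDeriv m f c = ((m.factorial : ℂ) / (2 * Real.pi * (r : ℂ) ^ m)) *
      ∫ θ : ℝ in (-Real.pi)..Real.pi, cexp (-((m : ℂ) * (θ * I))) * f (c + r * cexp (θ * I)) := by
  have h := hf.circleIntegral_one_div_sub_center_pow_smul hr m
  have hr' : (r : ℂ) ≠ 0 := by exact_mod_cast hr.ne'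
  have hpi : (Real.pi : ℂ) ≠ 0 := by exact_mod_cast Real.pi_ne_zero
  have hfac : (m.factorial : ℂ) ≠ 0 := by exact_mod_cast m.factorial_ne_zero
  have h1 : (∮ z in C(c, r), (1 / (z - c) ^ (m + 1)) • f z) = (I / (r : ℂ) ^ m) *
      ∫ θ in (0 : ℝ)..(2 * Real.pi),
        cexp (-((m : ℂ) * (θ * I))) * f (c + r * cexp (θ * I)) := by
    rw [circleIntegral, ← intervalIntegral.integral_const_mul]
    apply intervalIntegral.integral_congr
    intro θ _
    simp only [deriv_circleMap, circleMap, zero_add, add_sub_cancel_left, smul_eq_mul]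
    have he : cexp (θ * I) ≠ 0 := Complex.exp_ne_zero _
    have h2 : cexp (-((m : ℂ) * (θ * I))) = (cexp (θ * I) ^ m)⁻¹ := by
      rw [Complex.exp_neg, Complex.exp_nat_mul]
    rw [h2]
    field_simp
    ring
  have h3 : Function.Periodic
      (fun θ : ℝ => cexp (-((m : ℂ) * (θ * I))) * f (c + r * cexp (θ * I))) (2 * Real.pi) := by
    intro θ
    have h4 : cexp (((θ + 2 * Real.pi : ℝ) : ℂ) * I) = cexp (θ * I) := by
      push_cast
      rw [add_mul, Complex.exp_add, Complex.exp_two_pi_mul_I, mul_one]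
    have h5 : ∀ w : ℂ, cexp (-((m : ℂ) * w)) = (cexp w ^ m)⁻¹ := by
      intro w
      rw [Complex.exp_neg, Complex.exp_nat_mul]
    simp only [h5, h4]
  have h6 := h3.intervalIntegral_add_eq 0 (-Real.pi)
  have h7 : -Real.pi + 2 * Real.pi = Real.pi := by ring
  rw [zero_add, h7] at h6
  rw [h6] at h1
  rw [h1, smul_eq_mul] at h
  have h8 : iteratedDeriv m f c = (m.factorial / (2 * Real.pi * I)) *
      (2 * Real.pi * I / m.factorial * iteratedDeriv m f c) := by
    have := Complex.I_ne_zero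
    field_simp
  rw [h8, ← h]
  have := Complex.I_ne_zero
  field_simp

/-- CIR (a). Cauchy's formula for the `m`-th derivative on the circle `|z - x| = r`, `r = m/s`
(`DifferentiableOn.circleIntegral_one_div_sub_center_pow_smul`), written as an integral over `(-π, π)`
(periodicity). `exp (φ (x + r e^{iθ})) = exp (φ (x+r) - m) exp (m e^{iθ}) exp (E θ)` with the `E` below, and
`r^(-m) = s^m / m^m`. -/
theorem circle_formula {φ : ℂ → ℂ} {x r s : ℝ} {m : ℕ} (hm : 1 ≤ m) (hr : 0 < r) (hs : s * r = m)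
    (hφ : DifferentiableOn ℂ φ (closedBall (x : ℂ) r)) :
    gm φ m x = (s : ℂ) ^ m * cexp (φ ((x + r : ℝ) : ℂ) - m) *
      cI m (fun θ => φ ((x : ℂ) + r * cexp (θ * I)) - φ ((x + r : ℝ) : ℂ)
        - (m : ℂ) * (cexp (θ * I) - 1)) := by
  have hm0 : (m : ℂ) ≠ 0 := by
    have : m ≠ 0 := by omega
    exact_mod_cast this
  have hr' : (r : ℂ) ≠ 0 := by exact_mod_cast hr.ne'
  have hpi : (Real.pi : ℂ) ≠ 0 := by exact_mod_cast Real.pi_ne_zero
  have hsr : (s : ℂ) * (r : ℂ) = m := by exact_mod_cast hs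
  have hs' : (s : ℂ) = m / r := by
    rw [← hsr]
    field_simp
  unfold gm cI
  rw [cir_cauchy m hr (f := fun z => cexp (φ z)) hφ.cexp]
  have h1 : (∫ θ : ℝ in (-Real.pi)..Real.pi, cexp (-((m : ℂ) * (θ * I))) *
      cexp (φ (x + r * cexp (θ * I)))) = cexp (φ ((x + r : ℝ) : ℂ) - m) *
      ∫ θ : ℝ in (-Real.pi)..Real.pi, cexp ((m : ℂ) * cexp (θ * I) - (m : ℂ) * (θ * I)) *
        cexp (φ ((x : ℂ) + r * cexp (θ * I)) - φ ((x + r : ℝ) : ℂ)
        - (m : ℂ) * (cexp (θ * I) - 1)) := by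
    rw [← intervalIntegral.integral_const_mul]
    apply intervalIntegral.integral_congr
    intro θ _
    simp only []
    rw [← Complex.exp_add, ← Complex.exp_add, ← Complex.exp_add]
    congr 1
    ring
  rw [h1]
  have h2 : (((m.factorial : ℝ) / ((m : ℝ) ^ m * (2 * Real.pi)) : ℝ) : ℂ) =
      (m.factorial : ℂ) / ((m : ℂ) ^ m * (2 * Real.pi)) := by
    push_cast
    ring
  rw [h2, hs', div_pow]
  have hmm : (m : ℂ) ^ m ≠ 0 := pow_ne_zero _ hm0
  have hrm : (r : ℂ) ^ m ≠ 0 := pow_ne_zero _ hr'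
  generalize (∫ θ : ℝ in (-Real.pi)..Real.pi, cexp ((m : ℂ) * cexp (θ * I) - (m : ℂ) * (θ * I)) *
        cexp (φ ((x : ℂ) + r * cexp (θ * I)) - φ ((x + r : ℝ) : ℂ)
        - (m : ℂ) * (cexp (θ * I) - 1))) = J
  generalize cexp (φ ((x + r : ℝ) : ℂ) - m) = Z
  field_simp

/-- CIR (b). (a) for `φ z = z`, `x = 0`, `s = 1`, `r = m`. -/
theorem cI_zero {m : ℕ} (hm : 1 ≤ m) : cI m (fun _ => 0) = 1 := by
  have hm0 : (0 : ℝ) < m := by exact_mod_cast hm
  have h := circle_formula (φ := fun z => z) (x := 0) (r := m) (s := 1) hm hm0 (one_mul _)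
    differentiableOn_id
  have h1 : gm (fun z => z) m 0 = 1 := by
    unfold gm
    rw [iteratedDeriv_eq_iterate]
    have h2 : deriv^[m] (fun z : ℂ => cexp z) = cexp := Complex.iter_deriv_exp m
    rw [h2]
    simp
  rw [h1] at h
  have h2 : (fun θ : ℝ => ((0 : ℝ) : ℂ) + ((m : ℝ) : ℂ) * cexp (θ * I) - (((0 : ℝ) + (m : ℝ) : ℝ) : ℂ)
      - (m : ℂ) * (cexp (θ * I) - 1)) = fun _ => 0 := by
    funext θ
    push_cast
    ring
  rw [h2] at h
  rw [h]
  push_cast
  simp

end QPL
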