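import Pool.Agent.QPL.OPP

set_option autoImplicit false

namespace QPL

open Finset

/-- CTD. The contradiction (for one `N`), `j > deg T`. `∑_k coeff_k F(N+2k) = ∑_k coeff_k (a_k/q) + O(l1 (e1 + e2))`
(`Dop_eq_sum`, `Dop_poly`), so `q · Dop` is an integer up to `q l1 (e1+e2) < 1/(8N) ≤ 1/8`; as
`1/(4N) ≤ q Dop < 1/4`, the integer is `0`, and then `q Dop < 1/(8N)`. Here `F` approximates `G` up to `e2` at the
points `N + 2k`, and `G (N+2k) = T(N+2k) + a_k/q + O(e1)`. -/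
theorem contra (N q : ℕ) (hN : 1 ≤ N) (hq : 1 ≤ q) (r : ℕ → ℕ) (j : ℕ) (F G : ℝ → ℝ)
    (T : Polynomial ℝ) (hT : T.natDegree < j) (e1 e2 : ℝ)
    (hFG : ∀ k : ℕ, k ≤ ∑ i ∈ Finset.range j, r i → |F ((N : ℝ) + 2 * k) - G ((N : ℝ) + 2 * k)| ≤ e2)
    (hG : ∀ k : ℕ, k ≤ ∑ i ∈ Finset.range j, r i →
      ∃ a : ℤ, |G ((N : ℝ) + 2 * k) - T.eval ((N : ℝ) + 2 * k) - a / q| ≤ e1)
    (hsmall : (q : ℝ) * l1 (PP r j) * (e1 + e2) < 1 / (8 * (N : ℝ)))
    (h1 : 1 / (4 * (q : ℝ) * N) ≤ Dop (fun i => 2 * (r i : ℝ)) j F N)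
    (h2 : Dop (fun i => 2 * (r i : ℝ)) j F N < 1 / (4 * (q : ℝ))) : False := by
  have hqR : (1 : ℝ) ≤ q := by exact_mod_cast hq
  have hNR : (1 : ℝ) ≤ N := by exact_mod_cast hN
  have hq0 : (0 : ℝ) < q := by linarith
  have hN0 : (0 : ℝ) < N := by linarith
  choose a ha using hG
  set s := (PP r j).support with hs
  set b : ℕ → ℤ := fun k => if h : k ≤ ∑ i ∈ Finset.range j, r i then a k h else 0 with hb
  have hbk : ∀ k ∈ s, |G ((N : ℝ) + 2 * k) - T.eval ((N : ℝ) + 2 * k) - b k / q| ≤ e1 := by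
    intro k hk
    have hk' := PP_support_le r j k hk
    have := ha k hk'
    simpa [hb, hk'] using this
  have hD := Dop_eq_sum r j F (N : ℝ)
  have hT0 : ∑ k ∈ s, ((PP r j).coeff k : ℝ) * T.eval ((N : ℝ) + 2 * k) = 0 := by
    have h3 := Dop_eq_sum r j (fun y => T.eval y) (N : ℝ)
    rw [Dop_poly _ j T hT] at h3
    exact h3.symm
  set A : ℤ := ∑ k ∈ s, (PP r j).coeff k * b k with hA
  have hdiff : Dop (fun i => 2 * (r i : ℝ)) j F N - (A : ℝ) / q =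
      ∑ k ∈ s, ((PP r j).coeff k : ℝ) *
        ((F ((N : ℝ) + 2 * k) - G ((N : ℝ) + 2 * k)) +
          (G ((N : ℝ) + 2 * k) - T.eval ((N : ℝ) + 2 * k) - b k / q)) := by
    have h4 : (A : ℝ) / q = ∑ k ∈ s, ((PP r j).coeff k : ℝ) * (b k / q) := by
      rw [hA]
      push_cast
      rw [Finset.sum_div]
      refine Finset.sum_congr rfl (fun k _ => ?_)
      ring
    rw [hD, h4, ← sub_zero (∑ k ∈ s, ((PP r j).coeff k : ℝ) * F ((N : ℝ) + 2 * k)), ← hT0,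
      ← Finset.sum_sub_distrib, ← Finset.sum_sub_distrib]
    refine Finset.sum_congr rfl (fun k _ => ?_)
    ring
  have hbound : |Dop (fun i => 2 * (r i : ℝ)) j F N - (A : ℝ) / q| ≤ l1 (PP r j) * (e1 + e2) := by
    rw [hdiff]
    calc |∑ k ∈ s, ((PP r j).coeff k : ℝ) *
        ((F ((N : ℝ) + 2 * k) - G ((N : ℝ) + 2 * k)) +
          (G ((N : ℝ) + 2 * k) - T.eval ((N : ℝ) + 2 * k) - b k / q))|
        ≤ ∑ k ∈ s, |((PP r j).coeff k : ℝ) *
        ((F ((N : ℝ) + 2 * k) - G ((N : ℝ) + 2 * k)) +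
          (G ((N : ℝ) + 2 * k) - T.eval ((N : ℝ) + 2 * k) - b k / q))| :=
          Finset.abs_sum_le_sum_abs _ _
      _ ≤ ∑ k ∈ s, |((PP r j).coeff k : ℝ)| * (e1 + e2) := by
          refine Finset.sum_le_sum (fun k hk => ?_)
          rw [abs_mul]
          refine mul_le_mul_of_nonneg_left ?_ (abs_nonneg _)
          have h5 := hFG k (PP_support_le r j k hk)
          have h6 := hbk k hk
          calc |(F ((N : ℝ) + 2 * k) - G ((N : ℝ) + 2 * k)) +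
              (G ((N : ℝ) + 2 * k) - T.eval ((N : ℝ) + 2 * k) - b k / q)|
              ≤ |F ((N : ℝ) + 2 * k) - G ((N : ℝ) + 2 * k)| +
                |G ((N : ℝ) + 2 * k) - T.eval ((N : ℝ) + 2 * k) - b k / q| := abs_add_le _ _
            _ ≤ e1 + e2 := by linarith
      _ = l1 (PP r j) * (e1 + e2) := by rw [l1, Finset.sum_mul]
  have hq2 : |(q : ℝ) * Dop (fun i => 2 * (r i : ℝ)) j F N - A| < 1 / (8 * (N : ℝ)) := by
    have h7 : (q : ℝ) * Dop (fun i => 2 * (r i : ℝ)) j F N - A =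
        q * (Dop (fun i => 2 * (r i : ℝ)) j F N - (A : ℝ) / q) := by
      field_simp
    rw [h7, abs_mul, abs_of_pos hq0]
    calc (q : ℝ) * |Dop (fun i => 2 * (r i : ℝ)) j F N - (A : ℝ) / q|
        ≤ q * (l1 (PP r j) * (e1 + e2)) := mul_le_mul_of_nonneg_left hbound hq0.le
      _ = (q : ℝ) * l1 (PP r j) * (e1 + e2) := by ring
      _ < 1 / (8 * (N : ℝ)) := hsmall
  have h8 := abs_lt.mp hq2
  have h9 : 1 / (4 * (N : ℝ)) ≤ (q : ℝ) * Dop (fun i => 2 * (r i : ℝ)) j F N := by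
    calc 1 / (4 * (N : ℝ)) = q * (1 / (4 * (q : ℝ) * N)) := by field_simp
      _ ≤ _ := mul_le_mul_of_nonneg_left h1 hq0.le
  have h10 : (q : ℝ) * Dop (fun i => 2 * (r i : ℝ)) j F N < 1 / 4 := by
    calc (q : ℝ) * Dop (fun i => 2 * (r i : ℝ)) j F N < q * (1 / (4 * (q : ℝ))) :=
          mul_lt_mul_of_pos_left h2 hq0
      _ = 1 / 4 := by field_simp
  have h11 : 1 / (8 * (N : ℝ)) ≤ 1 / 8 := by
    apply one_div_le_one_div_of_le (by norm_num)
    linarith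
  have h12 : 1 / (4 * (N : ℝ)) = 1 / (8 * (N : ℝ)) + 1 / (8 * (N : ℝ)) := by
    field_simp
    norm_num
  have h13 : 0 < 1 / (8 * (N : ℝ)) := by positivity
  have hApos : (0 : ℝ) < A := by linarith [h8.2]
  have hAlt : (A : ℝ) < 1 := by linarith [h8.1]
  have hA1 : (0 : ℤ) < A := by exact_mod_cast hApos
  have hA2 : A < 1 := by exact_mod_cast hAlt
  omega

end QPL
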