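import Pool.Agent.QPL.MPB

set_option autoImplicit false

namespace QPL

open Complex Metric Finset

private theorem MPC_iter (P : Polynomial ℂ) (k : ℕ) :
    iteratedDeriv k (fun z : ℂ => P.eval z) = fun z => ((Polynomial.derivative^[k]) P).eval z := by
  induction k with
  | zero => simp
  | succ k ih =>
    rw [iteratedDeriv_succ, ih, Function.iterate_succ_apply']
    funext z
    exact Polynomial.deriv _

/-- MPC (a). Cauchy's estimate for the coefficients: `|coeff k| ρ^k ≤ sup_{|z| = ρ} |P(z)|`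
(e.g. `Complex.norm_iteratedDeriv_le_of_forall_mem_sphere_norm_le` at `0`, `iteratedDeriv k P 0 = k! coeff k`,
or averaging over roots of unity). -/
theorem coeff_bound (P : Polynomial ℂ) (ρ B : ℝ) (hρ : 0 < ρ) (hB : ∀ z : ℂ, ‖z‖ = ρ → ‖P.eval z‖ ≤ B)
    (k : ℕ) : ‖P.coeff k‖ * ρ ^ k ≤ B := by
  have hd : DiffContOnCl ℂ (fun z : ℂ => P.eval z) (ball (0 : ℂ) ρ) :=
    P.differentiable.diffContOnCl
  have h := Complex.norm_iteratedDeriv_le_of_forall_mem_sphere_norm_le k hρ hd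
    (C := B) (fun z hz => hB z (by simpa using hz))
  rw [MPC_iter] at h
  have h1 : ((Polynomial.derivative^[k]) P).eval 0 = (k.factorial : ℂ) * P.coeff k := by
    rw [← Polynomial.coeff_zero_eq_eval_zero, Polynomial.coeff_iterate_derivative, zero_add,
      Nat.descFactorial_self, nsmul_eq_mul]
  simp only at h
  rw [h1, norm_mul, Complex.norm_natCast] at h
  have hk : (0 : ℝ) < (k.factorial : ℝ) := by exact_mod_cast Nat.factorial_pos k
  have hp : (0 : ℝ) < ρ ^ k := pow_pos hρ k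
  rw [le_div_iff₀ hp] at h
  have h2 : (k.factorial : ℝ) * (‖P.coeff k‖ * ρ ^ k) ≤ (k.factorial : ℝ) * B := by
    rw [← mul_assoc]; exact h
  exact le_of_mul_le_mul_left h2 hk

private theorem MPC_natDegree (n : ℕ) : (blk n).natDegree ≤ ∑ i ∈ Finset.Icc 1 n, i := by
  unfold blk
  refine (Polynomial.natDegree_prod_le _ _).trans (Finset.sum_le_sum fun i _ => ?_)
  have : (Polynomial.X ^ i - 1 : Polynomial ℤ) = Polynomial.X ^ i - Polynomial.C 1 := by simp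
  rw [this]
  exact (Polynomial.natDegree_X_pow_sub_C).le

private theorem MPC_deg (𝒟 : List ℕ) :
    ((𝒟.map blk).prod).natDegree ≤ (𝒟.map (fun n => ∑ i ∈ Finset.Icc 1 n, i)).sum := by
  induction 𝒟 with
  | nil => simp
  | cons n l ih =>
    simp only [List.map_cons, List.prod_cons, List.sum_cons]
    exact Polynomial.natDegree_mul_le.trans (add_le_add (MPC_natDegree n) ih)

private theorem MPC_sum (𝒟 : List ℕ) :
    𝒟.sum ≤ (𝒟.map (fun n => ∑ i ∈ Finset.Icc 1 n, i)).sum := by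
  induction 𝒟 with
  | nil => simp
  | cons n l ih =>
    simp only [List.map_cons, List.sum_cons]
    refine add_le_add ?_ ih
    rcases Nat.eq_zero_or_pos n with h | h
    · subst h; simp
    · exact Finset.single_le_sum (f := fun i => i) (fun _ _ => Nat.zero_le _)
        (Finset.mem_Icc.2 ⟨h, le_rfl⟩)

/-- MPC (b). `ρ = 1 - 1/Q`, `L = Q²`: `ρ^(-k) ≤ ρ^(-Q) ≤ 4` for the exponents `k ≤ deg = ∑ n(n+1)/2 ≤ Q`,
`𝒟.sum ≤ Q`, `Q · Q · ρ^(Q²) ≤ Q² e^{-Q} ≤ 1`, the support has at most `Q + 1` elements: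
`l1 ≤ (Q+1) · 4 · exp (K (1 + 2 log Q) + 1)`. -/
theorem l1_bound (𝒟 : List ℕ) (K : ℝ) (hK0 : 0 ≤ K) (hK : ∀ θ : ℝ, -K ≤ ZZ 𝒟 θ) (Q : ℕ) (hQ : 2 ≤ Q)
    (hdeg : (𝒟.map (fun n => ∑ i ∈ Finset.Icc 1 n, i)).sum ≤ Q) :
    l1 ((𝒟.map blk).prod) ≤ Real.exp ((K + 4) * (1 + 2 * Real.log Q)) := by
  set P : Polynomial ℤ := (𝒟.map blk).prod with hP
  have hQ2 : (2 : ℝ) ≤ Q := by exact_mod_cast hQ
  have hQ0 : (0 : ℝ) < Q := by linarith
  set ρ : ℝ := 1 - 1 / Q with hρd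
  have hinv : (1 : ℝ) / Q ≤ 1 / 2 := one_div_le_one_div_of_le (by norm_num) hQ2
  have hinv0 : (0 : ℝ) < 1 / Q := by positivity
  have hρ0 : 0 < ρ := by rw [hρd]; linarith
  have hρ1 : ρ < 1 := by rw [hρd]; linarith
  have hlogQ : 0 ≤ Real.log Q := Real.log_nonneg (by linarith)
  -- bound on the circle
  have hL1 : 1 ≤ Q ^ 2 := Nat.one_le_pow _ _ (by omega)
  have hsum : ((𝒟.sum : ℕ) : ℝ) ≤ Q := by exact_mod_cast (MPC_sum 𝒟).trans hdeg
  have hρQ : ρ ^ (Q ^ 2 + 1) ≤ Real.exp (-(Q : ℝ)) := by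
    have h1 : ρ ≤ Real.exp (-(1 / (Q : ℝ))) := by
      have := Real.add_one_le_exp (-(1 / (Q : ℝ)))
      rw [hρd]; linarith
    have h2 : ρ ^ (Q ^ 2) ≤ Real.exp (-(1 / (Q : ℝ))) ^ (Q ^ 2) :=
      pow_le_pow_left₀ hρ0.le h1 _
    rw [← Real.exp_nat_mul] at h2
    have h3 : ((Q ^ 2 : ℕ) : ℝ) * (-(1 / (Q : ℝ))) = -(Q : ℝ) := by
      push_cast; field_simp
    rw [h3] at h2
    rw [pow_succ]
    exact (mul_le_of_le_one_right (by positivity) hρ1.le).trans h2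
  have hexpQ : (Q : ℝ) * Q * Real.exp (-(Q : ℝ)) ≤ 1 := by
    have h1 := Real.quadratic_le_exp_of_nonneg hQ0.le
    have h2 := Real.add_one_le_exp ((Q : ℝ) / 2)
    -- exp Q = (exp (Q/2))^2 ≥ (1 + Q/2 + Q²/8)²
    have h3 := Real.quadratic_le_exp_of_nonneg (x := (Q : ℝ) / 2) (by positivity)
    have h4 : Real.exp (Q : ℝ) = Real.exp ((Q : ℝ) / 2) ^ 2 := by
      rw [← Real.exp_nat_mul]; congr 1; push_cast; ring
    have h5 : (Q : ℝ) ≤ 1 + (Q : ℝ) / 2 + ((Q : ℝ) / 2) ^ 2 / 2 := by nlinarith [sq_nonneg ((Q : ℝ) - 2)]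
    have h6 : (Q : ℝ) * Q ≤ Real.exp (Q : ℝ) := by
      rw [h4, ← sq]
      exact pow_le_pow_left₀ hQ0.le (h5.trans h3) 2
    rw [Real.exp_neg]
    rw [← div_eq_mul_inv, div_le_one (Real.exp_pos _)]
    exact h6
  have hcirc : ∀ z : ℂ, ‖z‖ = ρ → ‖(P.map (Int.castRingHom ℂ)).eval z‖ ≤
      Real.exp (K * (1 + 2 * Real.log Q) + 1) := by
    intro z hz
    refine (prod_bound 𝒟 K hK0 hK ρ hρ0 hρ1 (Q ^ 2) hL1 z hz).trans (Real.exp_le_exp.2 ?_)
    have h1 : Real.log ((Q ^ 2 : ℕ) : ℝ) = 2 * Real.log Q := by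
      push_cast; rw [Real.log_pow]; norm_num
    rw [h1]
    have h2 : (1 : ℝ) - ρ = 1 / Q := by rw [hρd]; ring
    rw [h2]
    have h3 : ρ ^ (Q ^ 2 + 1) / (1 / (Q : ℝ)) = Q * ρ ^ (Q ^ 2 + 1) := by
      field_simp
    rw [h3]
    have h4 : ((𝒟.sum : ℕ) : ℝ) * ((Q : ℝ) * ρ ^ (Q ^ 2 + 1)) ≤ 1 := by
      calc ((𝒟.sum : ℕ) : ℝ) * ((Q : ℝ) * ρ ^ (Q ^ 2 + 1))
          ≤ (Q : ℝ) * ((Q : ℝ) * Real.exp (-(Q : ℝ))) := by gcongr
        _ = (Q : ℝ) * Q * Real.exp (-(Q : ℝ)) := by ring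
        _ ≤ 1 := hexpQ
    linarith
  -- the coefficients
  have hρinv : 1 ≤ Real.exp (2 / (Q : ℝ)) * ρ := by
    have h1 := Real.add_one_le_exp (2 / (Q : ℝ))
    have h2 : (1 : ℝ) ≤ (2 / (Q : ℝ) + 1) * ρ := by
      have h3 : (2 / (Q : ℝ) + 1) * ρ = 1 + 1 / (Q : ℝ) * (1 - 2 * (1 / (Q : ℝ))) := by
        rw [hρd]; ring
      rw [h3]
      have : 0 ≤ 1 / (Q : ℝ) * (1 - 2 * (1 / (Q : ℝ))) := mul_nonneg hinv0.le (by linarith)
      linarith
    exact h2.trans (mul_le_mul_of_nonneg_right h1 hρ0.le)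
  have hcoef : ∀ k ≤ Q, |(P.coeff k : ℝ)| ≤ Real.exp (K * (1 + 2 * Real.log Q) + 3) := by
    intro k hk
    have h1 := coeff_bound (P.map (Int.castRingHom ℂ)) ρ _ hρ0 hcirc k
    rw [Polynomial.coeff_map] at h1
    have h2 : ‖(Int.castRingHom ℂ) (P.coeff k)‖ = |(P.coeff k : ℝ)| := by
      rw [eq_intCast, Complex.norm_intCast]
    rw [h2] at h1
    have h3 : (1 : ℝ) ≤ Real.exp 2 * ρ ^ k := by
      have h4 : (1 : ℝ) ≤ (Real.exp (2 / (Q : ℝ)) * ρ) ^ k := one_le_pow₀ hρinv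
      rw [mul_pow, ← Real.exp_nat_mul] at h4
      refine h4.trans (mul_le_mul_of_nonneg_right (Real.exp_le_exp.2 ?_) (pow_pos hρ0 k).le)
      have h5 : (k : ℝ) ≤ Q := by exact_mod_cast hk
      rw [mul_div_assoc', div_le_iff₀ hQ0]
      nlinarith
    calc |(P.coeff k : ℝ)| ≤ |(P.coeff k : ℝ)| * (Real.exp 2 * ρ ^ k) :=
          le_mul_of_one_le_right (abs_nonneg _) h3
      _ = Real.exp 2 * (|(P.coeff k : ℝ)| * ρ ^ k) := by ring
      _ ≤ Real.exp 2 * Real.exp (K * (1 + 2 * Real.log Q) + 1) := by gcongr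
      _ = Real.exp (K * (1 + 2 * Real.log Q) + 3) := by rw [← Real.exp_add]; congr 1; ring
  have hsupp : P.support ⊆ Finset.range (Q + 1) := by
    intro k hk
    rw [Finset.mem_range]
    have h1 : k ≤ P.natDegree := Polynomial.le_natDegree_of_mem_supp k hk
    have h2 := (MPC_deg 𝒟).trans hdeg
    rw [← hP] at h2
    omega
  calc l1 P = ∑ k ∈ P.support, |(P.coeff k : ℝ)| := rfl
    _ ≤ ∑ k ∈ Finset.range (Q + 1), |(P.coeff k : ℝ)| :=
        Finset.sum_le_sum_of_subset_of_nonneg hsupp (fun _ _ _ => abs_nonneg _)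
    _ ≤ ∑ k ∈ Finset.range (Q + 1), Real.exp (K * (1 + 2 * Real.log Q) + 3) :=
        Finset.sum_le_sum fun k hk => hcoef k (by rw [Finset.mem_range] at hk; omega)
    _ = ((Q : ℝ) + 1) * Real.exp (K * (1 + 2 * Real.log Q) + 3) := by
        rw [Finset.sum_const, Finset.card_range, nsmul_eq_mul]; push_cast; ring
    _ ≤ Real.exp (1 + 2 * Real.log Q) * Real.exp (K * (1 + 2 * Real.log Q) + 3) := by
        refine mul_le_mul_of_nonneg_right ?_ (Real.exp_pos _).le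
        have h1 : Real.exp (1 + 2 * Real.log Q) = Real.exp 1 * (Q : ℝ) ^ 2 := by
          rw [Real.exp_add]
          congr 1
          rw [show 2 * Real.log (Q : ℝ) = Real.log ((Q : ℝ) ^ 2) by rw [Real.log_pow]; norm_num]
          exact Real.exp_log (by positivity)
        rw [h1]
        have h2 := Real.add_one_le_exp (1 : ℝ)
        nlinarith
    _ ≤ Real.exp ((K + 4) * (1 + 2 * Real.log Q)) := by
        rw [← Real.exp_add]
        refine Real.exp_le_exp.2 ?_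
        nlinarith

end QPL
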