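import Pool.Agent.QPL.PRE
import Pool.Agent.QPL.MPC

set_option autoImplicit false

namespace QPL

open Finset

/-- DES. The design (`selection`, `sequence_exists`, `l1_bound`). -/
theorem design : ∃ C : ℝ, 1 ≤ C ∧ ∀ (R b : ℕ) (L : ℝ), 1 ≤ R → 1 ≤ L → Real.log (R + 1) ≤ L →
    Real.log b ≤ L → C * L ^ 3 ≤ b →
    ∃ r : ℕ → ℕ, (∀ i, 1 ≤ r i ∧ r i ≤ R) ∧
      ∀ j : ℕ, (j : ℝ) ≤ (b : ℝ) * R / (2 * Real.log (R + 1)) → ∀ Q : ℕ, 2 ≤ Q →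
        ∑ i ∈ Finset.range j, r i ≤ Q →
        l1 (PP r j) ≤ Real.exp ((3 * b + 5) * (1 + 2 * Real.log Q)) := by
  obtain ⟨C, hC1, hsel⟩ := selection
  refine ⟨C, hC1, fun R b L hR hL hΛ hb hC => ?_⟩
  obtain ⟨ν, hν, hS, hsum⟩ := hsel R b L hR hL hΛ hb hC
  have hL3 : (1 : ℝ) ≤ L ^ 3 := one_le_pow₀ hL
  have hb1 : (1 : ℝ) ≤ b := by nlinarith
  have hbN : 1 ≤ b := by exact_mod_cast hb1
  obtain ⟨r, hr, hseq⟩ := sequence_exists hbN ν hν hS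
  refine ⟨r, hr, fun j hj Q hQ hdeg => ?_⟩
  have hjN : j ≤ ∑ i ∈ Finset.range b, ν i := by
    have h1 : (j : ℝ) ≤ ((∑ i ∈ Finset.range b, ν i : ℕ) : ℝ) := by
      push_cast
      exact hj.trans hsum
    exact_mod_cast h1
  obtain ⟨𝒟, hPP, hsumD, hZZ⟩ := hseq j hjN
  have h2 := l1_bound 𝒟 (3 * (b : ℝ) + 1) (by positivity) hZZ Q hQ (by rw [hsumD]; exact hdeg)
  rw [hPP]
  have h3 : (3 * (b : ℝ) + 1 + 4) = 3 * b + 5 := by ring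
  rw [h3] at h2
  exact h2

end QPL
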