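import Mathlib
import Pool.Agent.PRT.Defs

set_option autoImplicit false

/-! QPL (MP_174f8d_nt): short intervals and roots of partition numbers. See /team-store/QPL_BLUEPRINT.md -/

namespace QPL

open Complex Metric Finset

/-! ### analytic part -/

/-- the `m`-th complex derivative of `exp ∘ φ` at the real point `x` -/
noncomputable def gm (φ : ℂ → ℂ) (m : ℕ) (x : ℝ) : ℂ :=
  iteratedDeriv m (fun z => cexp (φ z)) (x : ℂ)

/-- normalised circle integral -/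
noncomputable def cI (m : ℕ) (E : ℝ → ℂ) : ℂ :=
  (((m.factorial : ℝ) / ((m : ℝ) ^ m * (2 * Real.pi)) : ℝ) : ℂ) *
    ∫ θ : ℝ in (-Real.pi)..Real.pi, cexp ((m : ℂ) * cexp (θ * I) - (m : ℂ) * (θ * I)) * cexp (E θ)

/-- iterated differences with the steps `h 0, h 1, …` -/
noncomputable def Dop (h : ℕ → ℝ) : ℕ → (ℝ → ℝ) → ℝ → ℝ
  | 0, f => f
  | (j + 1), f => fun x => Dop h j f (x + h j) - Dop h j f x

/-! ### pure products -/

/-- `∏_{i < j} (X^(r i) - 1)` -/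
noncomputable def PP (r : ℕ → ℕ) (j : ℕ) : Polynomial ℤ :=
  ∏ i ∈ Finset.range j, (Polynomial.X ^ (r i) - 1)

/-- `∏_{r = 1}^n (X^r - 1)` -/
noncomputable def blk (n : ℕ) : Polynomial ℤ :=
  ∏ r ∈ Finset.Icc 1 n, (Polynomial.X ^ r - 1)

/-- sum of the absolute values of the coefficients -/
noncomputable def l1 (P : Polynomial ℤ) : ℝ := ∑ k ∈ P.support, |(P.coeff k : ℝ)|

/-- `∑_{r=1}^n cos (r θ)` -/
noncomputable def Dn (n : ℕ) (θ : ℝ) : ℝ := ∑ r ∈ Finset.Icc 1 n, Real.cos (r * θ)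

/-- the cosine sum of a list of cut-offs -/
noncomputable def ZZ (𝒟 : List ℕ) (θ : ℝ) : ℝ := (𝒟.map (fun n => Dn n θ)).sum

/-- the corresponding polynomial `∑_{n ∈ 𝒟} ∑_{r=1}^n z^r` -/
noncomputable def gz (𝒟 : List ℕ) (z : ℂ) : ℂ :=
  (𝒟.map (fun n => ∑ r ∈ Finset.Icc 1 n, z ^ r)).sum

/-- `∑_{i < b, ν i ≤ y} Dn (ν i) θ` -/
noncomputable def SY (ν : ℕ → ℕ) (b y : ℕ) (θ : ℝ) : ℝ :=
  ∑ i ∈ (Finset.range b).filter (fun i => ν i ≤ y), Dn (ν i) θ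

end QPL
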