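import Pool.Agent.QPL.Defs

set_option autoImplicit false

namespace QPL

open Complex Metric

private theorem ebd_sig_pos {c : ℝ} {N : ℕ} (hc : 0 < c) (hN : 1 ≤ N) : 0 < PRT.sig c N := by
  unfold PRT.sig
  have h : (0 : ℝ) < N := by exact_mod_cast hN
  have := Real.sqrt_pos.2 h
  positivity

/-- EBD (a). On the ball of radius `ϱN/2` the derivative of `φ` is Lipschitz with constant `2ϵσ/(ϱN)`
(Cauchy: `φ' - σ` is bounded by `ϵσ` on the ball of radius `ϱN`; `Complex.norm_deriv_le_of_forall_mem_sphere_norm_le`). -/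
theorem deriv_lip {c ϵ ϱ : ℝ} {N : ℕ} {φ : ℂ → ℂ} (hc : 0 < c) (hϵ : 0 < ϵ) (hϱ : 0 < ϱ) (hN : 1 ≤ N)
    (h : PRT.PhiGood c ϵ ϱ N φ) {z w : ℂ} (hz : z ∈ ball (N : ℂ) (ϱ * N / 2))
    (hw : w ∈ ball (N : ℂ) (ϱ * N / 2)) :
    ‖deriv φ z - deriv φ w‖ ≤ 2 * ϵ * PRT.sig c N / (ϱ * N) * ‖z - w‖ := by
  have hN0 : (0 : ℝ) < N := by exact_mod_cast hN
  have hR : 0 < ϱ * N / 2 := by positivity
  have hdd : DifferentiableOn ℂ (deriv φ) (ball (N : ℂ) (ϱ * N)) := h.diff.deriv isOpen_ball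
  have hsub : ∀ u ∈ ball (N : ℂ) (ϱ * N / 2), closedBall u (ϱ * N / 2) ⊆ ball (N : ℂ) (ϱ * N) := by
    intro u hu v hv
    rw [mem_ball] at hu ⊢
    rw [mem_closedBall] at hv
    calc dist v N ≤ dist v u + dist u N := dist_triangle _ _ _
      _ < ϱ * N / 2 + ϱ * N / 2 := by linarith
      _ = ϱ * N := by ring
  have hball : ball (N : ℂ) (ϱ * N / 2) ⊆ ball (N : ℂ) (ϱ * N) := ball_subset_ball (by linarith)
  have hda : ∀ u ∈ ball (N : ℂ) (ϱ * N / 2),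
      DifferentiableAt ℂ (fun v => deriv φ v - (PRT.sig c N : ℂ)) u := by
    intro u hu
    exact ((hdd u (hball hu)).differentiableAt (isOpen_ball.mem_nhds (hball hu))).sub_const _
  have hbd : ∀ u ∈ ball (N : ℂ) (ϱ * N / 2),
      ‖deriv (fun v => deriv φ v - (PRT.sig c N : ℂ)) u‖ ≤ 2 * ϵ * PRT.sig c N / (ϱ * N) := by
    intro u hu
    have h1 : DiffContOnCl ℂ (fun v => deriv φ v - (PRT.sig c N : ℂ)) (ball u (ϱ * N / 2)) :=
      (hdd.sub_const _).diffContOnCl_ball (hsub u hu)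
    have h2 := Complex.norm_deriv_le_of_forall_mem_sphere_norm_le hR h1 (C := ϵ * PRT.sig c N)
      (fun v hv => h.deriv_near v (hsub u hu (sphere_subset_closedBall hv)))
    refine h2.trans (le_of_eq ?_)
    field_simp
  have h3 := Convex.norm_image_sub_le_of_norm_deriv_le hda hbd (convex_ball _ _) hw hz
  have e : deriv φ z - deriv φ w =
      (deriv φ z - (PRT.sig c N : ℂ)) - (deriv φ w - (PRT.sig c N : ℂ)) := by ring
  rw [e]
  exact h3

private theorem ebd_exp_sub_one (t : ℝ) : ‖cexp (t * I) - 1‖ ≤ |t| := by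
  have h := Real.norm_exp_I_mul_ofReal_sub_one_le (x := t)
  rw [mul_comm (t : ℂ) I]
  simpa using h

/-- EBD (b). The error on the circle. `E' (along the arc) = (φ'(w) - s) · dw`, `φ'(x + j/s) = s`, and
`|w - (x + j/s)| ≤ r|θ| + 1/s` on the arc (`r = m/s`), so
`|E| ≤ r|θ| · (2ϵσ/(ϱN)) (r|θ| + 1/s) ≤ ϵ m θ² / 2 + ϵ |θ| / 2`, because `r ≤ ϱN/8` and `σ ≤ 2 s`.
(`‖φ(w1) - s w1 - (φ(w0) - s w0)‖ ≤ sup |φ' - s| · |arc|`; mean value inequality for the curve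
`t ↦ φ (x + r e^{it}) - m e^{it}`, `Convex.norm_image_sub_le_of_norm_hasDerivWithin_le` on `[0, θ]`.) -/
theorem E_bound {c ϵ ϱ : ℝ} {N : ℕ} {φ : ℂ → ℂ} (hc : 0 < c) (hϵ : 0 < ϵ) (hϱ : 0 < ϱ) (hN : 1 ≤ N)
    (h : PRT.PhiGood c ϵ ϱ N φ) {x s : ℝ} {j m : ℕ} (hx : |x - N| ≤ ϱ * N / 4)
    (hs : PRT.sig c N / 2 ≤ s) (hj : 1 ≤ j) (hm : m = j ∨ m = j + 1)
    (hjN : (j : ℝ) + 1 ≤ c * ϱ / 32 * Real.sqrt N)
    (hsad : deriv φ ((x + j / s : ℝ) : ℂ) = (s : ℂ)) :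
    (∀ θ : ℝ, (x : ℂ) + ((m / s : ℝ) : ℂ) * cexp (θ * I) ∈ ball (N : ℂ) (ϱ * N / 2)) ∧
    ∀ θ : ℝ, |θ| ≤ Real.pi →
    ‖φ ((x : ℂ) + ((m / s : ℝ) : ℂ) * cexp (θ * I)) - φ ((x + m / s : ℝ) : ℂ)
        - (m : ℂ) * (cexp (θ * I) - 1)‖ ≤ ϵ * (m * θ ^ 2 + |θ|) := by
  have hN0 : (0 : ℝ) < N := by exact_mod_cast hN
  have hσ := ebd_sig_pos hc hN
  have hs0 : 0 < s := by linarith
  have hsq : 0 < Real.sqrt N := Real.sqrt_pos.2 hN0
  have hsqq : Real.sqrt N * Real.sqrt N = N := Real.mul_self_sqrt hN0.le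
  have hσe : PRT.sig c N * (2 * Real.sqrt N) = c := by
    unfold PRT.sig
    field_simp
  have hmj : (m : ℝ) ≤ j + 1 := by
    rcases hm with h1 | h1 <;> rw [h1] <;> push_cast <;> linarith
  have hjm : (j : ℝ) ≤ m := by
    rcases hm with h1 | h1 <;> rw [h1] <;> push_cast <;> linarith
  have hm0 : (0 : ℝ) ≤ m := Nat.cast_nonneg m
  -- a bound for the radius
  have hkey : ∀ a : ℝ, a ≤ j + 1 → a / s ≤ ϱ * N / 8 := by
    intro a ha
    rw [div_le_iff₀ hs0]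
    have h1 : a ≤ c * ϱ / 32 * Real.sqrt N := ha.trans hjN
    have h2 : ϱ * N / 8 * (PRT.sig c N / 2) ≤ ϱ * N / 8 * s :=
      mul_le_mul_of_nonneg_left hs (by positivity)
    have h3 : c * ϱ / 32 * Real.sqrt N = ϱ * N / 8 * (PRT.sig c N / 2) := by
      linear_combination (-(ϱ * Real.sqrt N) / 32) * hσe + (ϱ * PRT.sig c N / 16) * hsqq
    linarith
  have hr : (m : ℝ) / s ≤ ϱ * N / 8 := hkey m hmj
  have hr0 : 0 ≤ (m : ℝ) / s := by positivity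
  have hjs : (j : ℝ) / s ≤ ϱ * N / 8 := hkey j (by linarith)
  have hjs0 : 0 ≤ (j : ℝ) / s := by positivity
  have hxd : ‖(x : ℂ) - N‖ ≤ ϱ * N / 4 := by
    have e : (x : ℂ) - N = ((x - N : ℝ) : ℂ) := by push_cast; ring
    rw [e, Complex.norm_real]
    exact hx
  have hmem : ∀ θ : ℝ, (x : ℂ) + ((m / s : ℝ) : ℂ) * cexp (θ * I) ∈ ball (N : ℂ) (ϱ * N / 2) := by
    intro θ
    rw [mem_ball, dist_eq_norm]
    have e : (x : ℂ) + ((m / s : ℝ) : ℂ) * cexp (θ * I) - N =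
        ((x : ℂ) - N) + ((m / s : ℝ) : ℂ) * cexp (θ * I) := by ring
    rw [e]
    have h1 : ‖((m / s : ℝ) : ℂ) * cexp (θ * I)‖ = m / s := by
      rw [norm_mul, Complex.norm_exp_ofReal_mul_I, mul_one, Complex.norm_real,
        Real.norm_of_nonneg hr0]
    have h2 : 0 < ϱ * N := by positivity
    calc ‖((x : ℂ) - N) + ((m / s : ℝ) : ℂ) * cexp (θ * I)‖
        ≤ ‖(x : ℂ) - N‖ + ‖((m / s : ℝ) : ℂ) * cexp (θ * I)‖ := norm_add_le _ _
      _ ≤ ϱ * N / 4 + ϱ * N / 8 := by rw [h1]; linarith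
      _ < ϱ * N / 2 := by linarith
  have hpm : ((x + j / s : ℝ) : ℂ) ∈ ball (N : ℂ) (ϱ * N / 2) := by
    rw [mem_ball, dist_eq_norm]
    have e : ((x + j / s : ℝ) : ℂ) - N = ((x : ℂ) - N) + ((j / s : ℝ) : ℂ) := by
      push_cast
      ring
    rw [e]
    have h1 : ‖((j / s : ℝ) : ℂ)‖ = j / s := by
      rw [Complex.norm_real, Real.norm_of_nonneg hjs0]
    have h2 : 0 < ϱ * N := by positivity
    calc ‖((x : ℂ) - N) + ((j / s : ℝ) : ℂ)‖
        ≤ ‖(x : ℂ) - N‖ + ‖((j / s : ℝ) : ℂ)‖ := norm_add_le _ _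
      _ ≤ ϱ * N / 4 + ϱ * N / 8 := by rw [h1]; linarith
      _ < ϱ * N / 2 := by linarith
  refine ⟨hmem, fun θ _ => ?_⟩
  set L : ℝ := 2 * ϵ * PRT.sig c N / (ϱ * N) with hL
  have hL0 : 0 ≤ L := by positivity
  set r : ℝ := (m : ℝ) / s with hrdef
  have hrs : r * s = m := by
    rw [hrdef]
    field_simp
  -- the curve
  have hder : ∀ t : ℝ, HasDerivAt (fun t : ℝ => φ ((x : ℂ) + (r : ℂ) * cexp (t * I)) -
      (m : ℂ) * cexp (t * I))
      (((r : ℂ) * (cexp (t * I) * I)) * (deriv φ ((x : ℂ) + (r : ℂ) * cexp (t * I)) - s)) t := by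
    intro t
    have he : HasDerivAt (fun t : ℝ => cexp (t * I)) (cexp (t * I) * I) t := by
      have h1 : HasDerivAt (fun z : ℂ => cexp (z * I)) (cexp ((t : ℂ) * I) * (1 * I)) (t : ℂ) :=
        ((hasDerivAt_id (t : ℂ)).mul_const I).cexp
      have h2 := h1.comp_ofReal
      rwa [one_mul] at h2
    have hw : HasDerivAt (fun t : ℝ => (x : ℂ) + (r : ℂ) * cexp (t * I))
        ((r : ℂ) * (cexp (t * I) * I)) t := (he.const_mul (r : ℂ)).const_add (x : ℂ)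
    have hin : (x : ℂ) + (r : ℂ) * cexp (t * I) ∈ ball (N : ℂ) (ϱ * N) :=
      ball_subset_ball (by nlinarith [mul_pos hϱ hN0]) (hmem t)
    have hφ : HasDerivAt φ (deriv φ ((x : ℂ) + (r : ℂ) * cexp (t * I)))
        ((x : ℂ) + (r : ℂ) * cexp (t * I)) :=
      ((h.diff _ hin).differentiableAt (isOpen_ball.mem_nhds hin)).hasDerivAt
    have hcomp : HasDerivAt (fun t : ℝ => φ ((x : ℂ) + (r : ℂ) * cexp (t * I)))
        (((r : ℂ) * (cexp (t * I) * I)) * deriv φ ((x : ℂ) + (r : ℂ) * cexp (t * I))) t := by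
      have h1 := (hφ.hasFDerivAt.restrictScalars ℝ).comp_hasDerivAt t hw
      refine HasDerivAt.congr_deriv (f := fun t : ℝ => φ ((x : ℂ) + (r : ℂ) * cexp (t * I))) h1 ?_
      simp [smul_eq_mul]
    have hsub := hcomp.sub (he.const_mul (m : ℂ))
    refine hsub.congr_deriv ?_
    have e : (m : ℂ) = (r : ℂ) * (s : ℂ) := by
      have h9 := congrArg (fun y : ℝ => (y : ℂ)) hrs
      simp only [Complex.ofReal_mul, Complex.ofReal_natCast] at h9
      exact h9.symm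
    rw [e]
    ring
  -- the bound of the derivative
  have hbound : ∀ t ∈ Set.Icc (-|θ|) |θ|,
      ‖((r : ℂ) * (cexp (t * I) * I)) * (deriv φ ((x : ℂ) + (r : ℂ) * cexp (t * I)) - s)‖ ≤
        r * (L * (r * |θ| + 1 / s)) := by
    intro t ht
    have ht' : |t| ≤ |θ| := abs_le.2 ht
    rw [norm_mul, norm_mul, norm_mul, Complex.norm_exp_ofReal_mul_I, Complex.norm_I, mul_one, mul_one,
      Complex.norm_real, Real.norm_of_nonneg hr0]
    refine mul_le_mul_of_nonneg_left ?_ hr0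
    rw [← hsad]
    refine (deriv_lip hc hϵ hϱ hN h (hmem t) hpm).trans ?_
    refine mul_le_mul_of_nonneg_left ?_ hL0
    have e : (x : ℂ) + ((m / s : ℝ) : ℂ) * cexp (t * I) - ((x + j / s : ℝ) : ℂ) =
        (r : ℂ) * (cexp (t * I) - 1) + ((m / s - j / s : ℝ) : ℂ) := by
      rw [hrdef]
      push_cast
      ring
    rw [e]
    have h1 : ‖(r : ℂ) * (cexp (t * I) - 1)‖ ≤ r * |θ| := by
      rw [norm_mul, Complex.norm_real, Real.norm_of_nonneg hr0]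
      exact mul_le_mul_of_nonneg_left ((ebd_exp_sub_one t).trans ht') hr0
    have h2 : ‖((m / s - j / s : ℝ) : ℂ)‖ ≤ 1 / s := by
      rw [Complex.norm_real, ← sub_div, Real.norm_of_nonneg (div_nonneg (by linarith) hs0.le)]
      exact div_le_div_of_nonneg_right (by linarith) hs0.le
    exact (norm_add_le _ _).trans (add_le_add h1 h2)
  have hmv := Convex.norm_image_sub_le_of_norm_hasDerivWithin_le
    (fun t _ => (hder t).hasDerivWithinAt) hbound (convex_Icc (-|θ|) |θ|)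
    (Set.mem_Icc.2 ⟨by linarith [abs_nonneg θ], abs_nonneg θ⟩) (Set.mem_Icc.2 (abs_le.1 le_rfl))
  have e0 : φ ((x : ℂ) + ((m / s : ℝ) : ℂ) * cexp (θ * I)) - φ ((x + m / s : ℝ) : ℂ)
        - (m : ℂ) * (cexp (θ * I) - 1) =
      (φ ((x : ℂ) + (r : ℂ) * cexp (θ * I)) - (m : ℂ) * cexp (θ * I)) -
        (φ ((x : ℂ) + (r : ℂ) * cexp ((0 : ℝ) * I)) - (m : ℂ) * cexp ((0 : ℝ) * I)) := by
    have e1 : cexp (((0 : ℝ) : ℂ) * I) = 1 := by simp
    rw [e1, mul_one]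
    have e2 : ((x + m / s : ℝ) : ℂ) = (x : ℂ) + (r : ℂ) := by
      rw [hrdef]
      push_cast
      ring
    rw [e2]
    ring
  rw [e0]
  refine hmv.trans ?_
  rw [sub_zero, Real.norm_eq_abs]
  -- arithmetic
  have hσs : PRT.sig c N ≤ 2 * s := by linarith
  have hrL : r * L ≤ ϵ * PRT.sig c N / 4 := by
    have h1 : r * L ≤ ϱ * N / 8 * L := mul_le_mul_of_nonneg_right hr hL0
    have h2 : ϱ * N / 8 * L = ϵ * PRT.sig c N / 4 := by
      rw [hL]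
      field_simp
      ring
    linarith
  have hrL2 : r * L ≤ ϵ * s / 2 := by
    have h1 : ϵ * PRT.sig c N ≤ ϵ * (2 * s) := mul_le_mul_of_nonneg_left hσs hϵ.le
    linarith
  have hA : r * (L * (r * |θ| + 1 / s)) ≤ ϵ * (m * |θ| / 2 + 1 / 2) := by
    have h1 : r * (L * (r * |θ| + 1 / s)) = (r * L) * (r * |θ| + 1 / s) := by ring
    rw [h1]
    have h2 : 0 ≤ r * |θ| + 1 / s := by positivity
    have h3 := mul_le_mul_of_nonneg_right hrL2 h2
    have h4 : ϵ * s / 2 * (r * |θ| + 1 / s) = ϵ * (m * |θ| / 2 + 1 / 2) := by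
      rw [← hrs]
      field_simp
    linarith
  have hB := mul_le_mul_of_nonneg_right hA (abs_nonneg θ)
  have hsqθ : |θ| * |θ| = θ ^ 2 := by rw [← sq, sq_abs]
  have hC : ϵ * (m * |θ| / 2 + 1 / 2) * |θ| = ϵ * (m * θ ^ 2 / 2 + |θ| / 2) := by
    rw [← hsqθ]
    ring
  have hD : ϵ * (m * θ ^ 2 / 2 + |θ| / 2) ≤ ϵ * (m * θ ^ 2 + |θ|) := by
    refine mul_le_mul_of_nonneg_left ?_ hϵ.le
    have : 0 ≤ (m : ℝ) * θ ^ 2 := by positivity
    have := abs_nonneg θ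
    linarith
  linarith

end QPL
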