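import Pool.Agent.QPL.Defs

set_option autoImplicit false

namespace QPL

open Polynomial Finset

private noncomputable def OPP_T (f : ℝ → ℝ) (x : ℝ) : Polynomial ℤ →ₗ[ℤ] ℝ :=
  Polynomial.lsum (fun k => LinearMap.toSpanSingleton ℤ ℝ (f (x + 2 * k)))

private theorem OPP_T_eq (f : ℝ → ℝ) (x : ℝ) (P : Polynomial ℤ) :
    OPP_T f x P = ∑ k ∈ P.support, (P.coeff k : ℝ) * f (x + 2 * k) := by
  unfold OPP_T
  rw [Polynomial.lsum_apply, Polynomial.sum_def]
  refine Finset.sum_congr rfl fun k _ => ?_
  rw [LinearMap.toSpanSingleton_apply, zsmul_eq_mul]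

private theorem OPP_T_monomial (f : ℝ → ℝ) (x : ℝ) (n : ℕ) (a : ℤ) :
    OPP_T f x (monomial n a) = a • f (x + 2 * n) := by
  unfold OPP_T
  rw [Polynomial.lsum_apply, Polynomial.sum_monomial_index]
  · rw [LinearMap.toSpanSingleton_apply]
  · simp

private theorem OPP_T_mul (f : ℝ → ℝ) (x : ℝ) (m : ℕ) (P : Polynomial ℤ) :
    OPP_T f x (P * X ^ m) = OPP_T f (x + 2 * m) P := by
  induction P using Polynomial.induction_on' with
  | add p q hp hq => rw [add_mul, map_add, map_add, hp, hq]
  | monomial n a =>
    rw [Polynomial.monomial_mul_X_pow, OPP_T_monomial, OPP_T_monomial]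
    congr 2
    push_cast
    ring

/-- OPP (a). The iterated difference as a polynomial in the shift by `2` (induction on `j`:
`(X^r - 1) P`, the degree of `PP r j` is `∑ r i`). -/
theorem Dop_eq_sum (r : ℕ → ℕ) (j : ℕ) (f : ℝ → ℝ) (x : ℝ) :
    Dop (fun i => 2 * (r i : ℝ)) j f x =
      ∑ k ∈ (PP r j).support, ((PP r j).coeff k : ℝ) * f (x + 2 * k) := by
  rw [← OPP_T_eq]
  induction j generalizing x with
  | zero =>
    have h1 : PP r 0 = monomial 0 1 := by
      unfold PP
      simp
    rw [h1, OPP_T_monomial]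
    simp [Dop]
  | succ j ih =>
    have h1 : PP r (j + 1) = PP r j * X ^ (r j) - PP r j := by
      unfold PP
      rw [Finset.prod_range_succ]
      ring
    rw [h1, map_sub, OPP_T_mul, ← ih, ← ih]
    rfl

/-- OPP (b). The exponents in the support. -/
theorem PP_support_le (r : ℕ → ℕ) (j k : ℕ) (hk : k ∈ (PP r j).support) :
    k ≤ ∑ i ∈ Finset.range j, r i := by
  refine (Polynomial.le_natDegree_of_mem_supp k hk).trans ?_
  unfold PP
  refine (Polynomial.natDegree_prod_le _ _).trans (Finset.sum_le_sum fun i _ => ?_)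
  refine (Polynomial.natDegree_sub_le _ _).trans ?_
  simp

private theorem OPP_Dop_shift (h : ℕ → ℝ) (j : ℕ) (f : ℝ → ℝ) (a x : ℝ) :
    Dop h j (fun y => f (y + a) - f y) x = Dop h j f (x + a) - Dop h j f x := by
  induction j generalizing x with
  | zero => rfl
  | succ j ih =>
    simp only [Dop]
    rw [ih, ih]
    have h1 : x + h j + a = x + a + h j := by ring
    rw [h1]
    ring

private theorem OPP_degree (T : Polynomial ℝ) (a : ℝ) (j : ℕ) (hT : T.degree < ((j + 1 : ℕ) : WithBot ℕ)) :
    (Polynomial.taylor a T - T).degree < (j : WithBot ℕ) := by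
  by_cases h0 : T = 0
  · subst h0
    simp
  · have h1 : (Polynomial.taylor a T).degree = T.degree := by
      rw [Polynomial.degree_taylor]
    have h2 : (Polynomial.taylor a T).leadingCoeff = T.leadingCoeff := by
      simp
    have h3 : Polynomial.taylor a T ≠ 0 := by
      intro h
      rw [h, Polynomial.degree_zero] at h1
      exact h0 (Polynomial.degree_eq_bot.1 h1.symm)
    have h4 := Polynomial.degree_sub_lt_left h1 h3 h2
    rw [h1] at h4
    refine lt_of_lt_of_le h4 ?_
    rw [Polynomial.degree_eq_natDegree h0] at hT ⊢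
    have h5 : T.natDegree < j + 1 := by exact_mod_cast hT
    exact_mod_cast Nat.le_of_lt_succ h5

private theorem OPP_Dop_poly' (h : ℕ → ℝ) (j : ℕ) (T : Polynomial ℝ) (hT : T.degree < (j : WithBot ℕ)) (x : ℝ) :
    Dop h j (fun y => T.eval y) x = 0 := by
  induction j generalizing T x with
  | zero =>
    have h1 : T = 0 := by
      rw [← Polynomial.degree_eq_bot]
      simpa using hT
    subst h1
    simp [Dop]
  | succ j ih =>
    have h1 := ih (Polynomial.taylor (h j) T - T) (OPP_degree T (h j) j hT) x
    have h2 : (fun y => (Polynomial.taylor (h j) T - T).eval y) =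
        fun y => T.eval (y + h j) - T.eval y := by
      funext y
      rw [Polynomial.eval_sub, Polynomial.taylor_eval]
    rw [h2, OPP_Dop_shift h j (fun y => T.eval y)] at h1
    exact h1

/-- OPP (c). `j` differences kill the polynomials of degree `< j` (each difference lowers the degree). -/
theorem Dop_poly (h : ℕ → ℝ) (j : ℕ) (T : Polynomial ℝ) (hT : T.natDegree < j) (x : ℝ) :
    Dop h j (fun y => T.eval y) x = 0 := by
  refine OPP_Dop_poly' h j T ?_ x
  refine lt_of_le_of_lt Polynomial.degree_le_natDegree ?_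
  exact_mod_cast hT

end QPL
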