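import Pool.Agent.QPL.Defs
import Pool.Agent.PRT.PHIG

set_option autoImplicit false

namespace QPL

open Complex Filter

/-- REA (a). `phi k 1` is real on the real axis far out: all logarithms and square roots in
`PRT.phi` have positive real arguments (`rr` is real and small). -/
theorem phi_real (k : ℕ) : ∀ᶠ N : ℕ in atTop, ∀ x : ℝ, (N : ℝ) / 2 ≤ x →
    (PRT.phi k 1 (x : ℂ)).im = 0 := by
  filter_upwards [eventually_ge_atTop 200] with N hN x hx
  have hN' : (200 : ℝ) ≤ N := by exact_mod_cast hN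
  obtain ⟨w, hw⟩ : ∃ w : ℝ, w = x - 1 / 24 := ⟨_, rfl⟩
  have hw64 : 64 ≤ w := by rw [hw]; linarith
  have hw0 : 0 ≤ w := by linarith
  have hwc : (x : ℂ) - 1 / 24 = (w : ℂ) := by
    rw [hw]; push_cast; ring
  obtain ⟨s, hs⟩ : ∃ s : ℝ, s = w ^ ((1 : ℝ) / 2) := ⟨_, rfl⟩
  have hsc : (w : ℂ) ^ ((1 : ℂ) / 2) = (s : ℂ) := by
    rw [hs, Complex.ofReal_cpow hw0]
    push_cast
    rfl
  have hs8 : 8 ≤ s := by
    rw [hs, ← Real.sqrt_eq_rpow]
    apply Real.le_sqrt_of_sq_le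
    linarith
  have hC := PRT.PHIG.two_le_Cst
  have hCs : 16 ≤ PRT.Cst * s := by nlinarith
  have h1 : 1 / (PRT.Cst * s) ≤ 1 / 16 := one_div_le_one_div_of_le (by norm_num) hCs
  obtain ⟨r, hr⟩ : ∃ r : ℝ, r = (1 / Real.sqrt 2) * Real.exp (-PRT.Cst * s / 2)
    * (1 - 2 / (PRT.Cst * s)) / (1 - 1 / (PRT.Cst * s)) := ⟨_, rfl⟩
  have hrr : PRT.rr (w : ℂ) = (r : ℂ) := by
    unfold PRT.rr
    rw [hsc, hr]
    push_cast
    rfl
  have hr4 : |r| ≤ 1 / 4 := by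
    have h2 := PRT.PHIG.rr_small (w := (w : ℂ)) (N := w) hw64 (by simp; linarith)
    rw [hrr, Complex.norm_real, Real.norm_eq_abs] at h2
    exact h2
  have hl1 : Complex.log (w : ℂ) = ((Real.log w : ℝ) : ℂ) := (Complex.ofReal_log hw0).symm
  have hl2 : Complex.log (1 - 1 / ((PRT.Cst : ℂ) * (s : ℂ))) =
      ((Real.log (1 - 1 / (PRT.Cst * s)) : ℝ) : ℂ) := by
    rw [Complex.ofReal_log (by linarith)]
    push_cast
    rfl
  have hl3 : Complex.log (1 + 1 * (r : ℂ)) = ((Real.log (1 + r) : ℝ) : ℂ) := by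
    rw [Complex.ofReal_log (by have := (abs_le.1 hr4).1; linarith)]
    push_cast
    rw [one_mul]
  have hphi : PRT.phi k 1 (x : ℂ) = (((1 / (k : ℝ)) * (PRT.Cst * s - Real.log w
    - Real.log (4 * Real.sqrt 3) + Real.log (1 - 1 / (PRT.Cst * s)) + Real.log (1 + r)) : ℝ) : ℂ) := by
    unfold PRT.phi
    rw [hwc, hsc, hrr, hl1, hl2, hl3]
    push_cast
    rfl
  rw [hphi, Complex.ofReal_im]

end QPL
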