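import Pool.Agent.QPL.FOP
import Pool.Agent.QPL.DES
import Pool.Agent.QPL.REA
import Pool.Agent.QPL.OPP

set_option autoImplicit false

namespace QPL

open Complex Metric Filter

theorem four_lt_exp_two : (4 : ℝ) < Real.exp 2 := by
  have h := Real.exp_one_gt_d9
  have h12 : Real.exp 2 = Real.exp 1 * Real.exp 1 := by rw [← Real.exp_add]; norm_num
  rw [h12]
  have h2 : (2 : ℝ) < Real.exp 1 := by linarith
  nlinarith

/-- the operator for one `N` -/
theorem exo_one {c ϱ CD : ℝ} {N : ℕ} {φ : ℂ → ℂ} (hc : 0 < c) (hϱ : 0 < ϱ) (hCD : 1 ≤ CD)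
    (hdes : ∀ (R b : ℕ) (L : ℝ), 1 ≤ R → 1 ≤ L → Real.log (R + 1) ≤ L →
      Real.log b ≤ L → CD * L ^ 3 ≤ b →
      ∃ r : ℕ → ℕ, (∀ i, 1 ≤ r i ∧ r i ≤ R) ∧
        ∀ j : ℕ, (j : ℝ) ≤ (b : ℝ) * R / (2 * Real.log (R + 1)) → ∀ Q : ℕ, 2 ≤ Q →
          ∑ i ∈ Finset.range j, r i ≤ Q →
          l1 (PP r j) ≤ Real.exp ((3 * b + 5) * (1 + 2 * Real.log Q)))
    (h : PRT.PhiGood c (1 / 100) ϱ N φ)
    (hreal : ∀ x : ℝ, |x - N| < ϱ * N → (φ (x : ℂ)).im = 0)
    (b q : ℕ) {s l η C : ℝ} (hs : s = Real.sqrt N) (hl : l = Real.log N) (hη : η = c * ϱ / 64)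
    (hC1 : 8 * CD ≤ C) (hC2 : 40 ≤ C) (hC3 : 8 * η ^ 2 + 2 * η ≤ C) (hC4 : 2 / c ≤ C)
    (hs1 : 1 ≤ s) (E1 : 1 ≤ l) (E2 : 4 ≤ η * s) (E4 : 4 * η * s + 2 ≤ s ^ 2) (E5 : 64 * η ^ 2 ≤ ϱ * l ^ 2)
    (E6 : 16 * η ≤ ϱ * s) (E7 : 4 ≤ c * s) (E8 : 64 * c * η ≤ l) (E8' : 16 * c * l ≤ s)
    (E9 : 2 / η * (1.01 * c + 2.5) ≤ Real.log l) (E10 : 4 * η ^ 2 * s ^ 2 + η * s + 2 ≤ s ^ 4)
    (hb : C * l ^ 3 ≤ b) (hbN : b ≤ N) (hq : 1 ≤ q) (hq' : Real.log q ≤ s / 2) :
    ∃ (r : ℕ → ℕ) (j : ℕ), (∀ i, 1 ≤ r i) ∧ s ≤ C * j * l ∧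
      2 * (∑ i ∈ Finset.range j, (r i : ℝ)) ≤ C * (N * l / b + s) ∧
      l1 (PP r j) ≤ Real.exp (C * b * l) ∧
      1 / (4 * (q : ℝ) * N) ≤
        Dop (fun i => 2 * (r i : ℝ)) j (fun x => (cexp (φ (x : ℂ))).re) N ∧
      Dop (fun i => 2 * (r i : ℝ)) j (fun x => (cexp (φ (x : ℂ))).re) N < 1 / (4 * (q : ℝ)) := by
  have hη0 : 0 < η := by rw [hη]; positivity
  have hs0 : 0 < s := by linarith
  have hl0 : 0 < l := by linarith
  have hsN : s ^ 2 = (N : ℝ) := by rw [hs]; exact Real.sq_sqrt (Nat.cast_nonneg _)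
  have hN0 : (0 : ℝ) < N := by rw [← hsN]; positivity
  have hN1 : 1 ≤ N := by exact_mod_cast Nat.pos_of_ne_zero (by rintro rfl; simp at hN0)
  have hC0 : 0 < C := by linarith
  have hl3 : 1 ≤ l ^ 3 := one_le_pow₀ E1
  have hb0 : (0 : ℝ) < b := lt_of_lt_of_le (by positivity) hb
  have hb40 : (40 : ℝ) ≤ b := by nlinarith
  have hb1 : (1 : ℝ) ≤ b := by linarith
  have hbl3 : l ^ 3 ≤ b := by nlinarith
  have hbl : l ≤ b := le_trans (le_self_pow₀ E1 (by norm_num)) hbl3
  -- parameters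
  set J : ℕ := ⌊η * s⌋₊ with hJ
  have hJle : (J : ℝ) ≤ η * s := Nat.floor_le (by positivity)
  have hJge : η * s / 2 ≤ (J : ℝ) := by
    have := Nat.lt_floor_add_one (η * s)
    rw [← hJ] at this
    linarith
  have hJ1 : (1 : ℝ) ≤ J := by linarith
  set R : ℕ := ⌈2 * J * (2 * l) / b⌉₊ with hR
  have hRpos : 0 < 2 * (J : ℝ) * (2 * l) / b := by positivity
  have hR1 : 1 ≤ R := Nat.one_le_ceil_iff.2 hRpos
  have hRle : (R : ℝ) ≤ 2 * J * (2 * l) / b + 1 := (Nat.ceil_lt_add_one hRpos.le).le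
  have hRge : 2 * (J : ℝ) * (2 * l) / b ≤ R := Nat.le_ceil _
  have hRge' : 2 * (J : ℝ) * (2 * l) ≤ b * R := by
    rw [div_le_iff₀ hb0] at hRge
    linarith
  have hR1' : (1 : ℝ) ≤ R := by exact_mod_cast hR1
  have hRle2 : (R : ℝ) ≤ 4 * η * s + 1 := by
    have h1 : 2 * (J : ℝ) * (2 * l) / b ≤ 4 * J := by
      rw [div_le_iff₀ hb0]
      nlinarith
    linarith
  have hlogR : Real.log (R + 1) ≤ 2 * l := by
    have h1 : (R : ℝ) + 1 ≤ N := by rw [← hsN]; linarith
    have h2 : Real.log (R + 1) ≤ Real.log N := Real.log_le_log (by positivity) h1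
    rw [← hl] at h2
    linarith
  have hlogR0 : 0 < Real.log (R + 1) := Real.log_pos (by linarith)
  have hlogb : Real.log b ≤ 2 * l := by
    have h2 : Real.log b ≤ Real.log N := Real.log_le_log hb0 (by exact_mod_cast hbN)
    rw [← hl] at h2
    linarith
  have hCD3 : CD * (2 * l) ^ 3 ≤ b := by
    calc CD * (2 * l) ^ 3 = 8 * CD * l ^ 3 := by ring
      _ ≤ C * l ^ 3 := mul_le_mul_of_nonneg_right hC1 (by positivity)
      _ ≤ b := hb
  obtain ⟨r, hr, hl1⟩ := hdes R b (2 * l) hR1 (by linarith) hlogR hlogb hCD3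
  have hr1 : ∀ i, (1 : ℝ) ≤ r i := fun i => by exact_mod_cast (hr i).1
  have hrR : ∀ i, (r i : ℝ) ≤ R := fun i => by exact_mod_cast (hr i).2
  -- σ
  have hsig : PRT.sig c N = c / (2 * s) := by rw [PRT.sig, ← hs]
  have hsig0 : 0 < PRT.sig c N := by rw [hsig]; positivity
  -- sums
  have hsumle : ∀ j ≤ J, ∑ i ∈ Finset.range j, (r i : ℝ) ≤ J * R := by
    intro j hj
    calc ∑ i ∈ Finset.range j, (r i : ℝ) ≤ ∑ i ∈ Finset.range j, (R : ℝ) :=
          Finset.sum_le_sum (fun i _ => hrR i)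
      _ = j * R := by simp
      _ ≤ J * R := by
          apply mul_le_mul_of_nonneg_right _ (by positivity)
          exact_mod_cast hj
  have hJR : 2 * ((J : ℝ) * R) ≤ 8 * η ^ 2 * (N * l / b) + 2 * η * s := by
    have h1 : (J : ℝ) * R ≤ (η * s) * (2 * (η * s) * (2 * l) / b + 1) := by
      apply mul_le_mul hJle _ (by positivity) (by positivity)
      refine hRle.trans ?_
      have : 2 * (J : ℝ) * (2 * l) / b ≤ 2 * (η * s) * (2 * l) / b := by
        apply div_le_div_of_nonneg_right _ hb0.le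
        nlinarith
      linarith
    calc 2 * ((J : ℝ) * R) ≤ 2 * ((η * s) * (2 * (η * s) * (2 * l) / b + 1)) := by linarith
      _ = 8 * η ^ 2 * (s ^ 2 * l / b) + 2 * η * s := by ring
      _ = _ := by rw [hsN]
  have hsumJ : 2 * ((J : ℝ) * R) ≤ ϱ * N / 4 := by
    have h1 : N * l / b ≤ N / l ^ 2 := by
      rw [div_le_div_iff₀ hb0 (by positivity)]
      calc (N : ℝ) * l * l ^ 2 = N * l ^ 3 := by ring
        _ ≤ (N : ℝ) * b := mul_le_mul_of_nonneg_left hbl3 hN0.le
    have h2 : 8 * η ^ 2 * (N * l / b) ≤ ϱ * N / 8 := by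
      calc 8 * η ^ 2 * (N * l / b) ≤ 8 * η ^ 2 * (N / l ^ 2) :=
            mul_le_mul_of_nonneg_left h1 (by positivity)
        _ = (64 * η ^ 2) * N / (8 * l ^ 2) := by field_simp; ring
        _ ≤ (ϱ * l ^ 2) * N / (8 * l ^ 2) := by
            apply div_le_div_of_nonneg_right _ (by positivity)
            exact mul_le_mul_of_nonneg_right E5 hN0.le
        _ = ϱ * N / 8 := by field_simp
    have h3 : 2 * η * s ≤ ϱ * N / 8 := by
      rw [← hsN]
      nlinarith
    linarith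
  set A : ℕ → ℝ := fun j => Dop (fun i => 2 * (r i : ℝ)) j (fun x => (cexp (φ (x : ℂ))).re) N with hA
  -- one step
  have hstep : ∀ j < J, 0 < A j ∧ A j / N ≤ A (j + 1) ∧ A (j + 1) ≤ A j * (1 / l) := by
    intro j hj
    have hjJ : (j : ℝ) + 1 ≤ J := by exact_mod_cast hj
    have h1 : (j : ℝ) + 3 ≤ c * ϱ / 32 * Real.sqrt N := by
      rw [← hs]
      have : c * ϱ / 32 * s = 2 * (η * s) := by rw [hη]; ring
      rw [this]
      linarith
    have h2 : ∑ i ∈ Finset.range (j + 1), (2 * (r i : ℝ)) ≤ ϱ * N / 4 := by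
      rw [← Finset.mul_sum]
      have := hsumle (j + 1) hj
      linarith
    obtain ⟨p1, p2, p3⟩ := diff_chain hc (by norm_num) le_rfl hϱ hN1 h hreal
      (fun i => 2 * (r i : ℝ)) (fun i => by have := hr1 i; positivity) j h1 h2
    refine ⟨p1, ?_, ?_⟩
    · refine le_trans ?_ p2
      change A j / N ≤ PRT.sig c N / 4 * (2 * (r j : ℝ)) * A j
      have h3 : 1 / (N : ℝ) ≤ PRT.sig c N / 4 * (2 * (r j : ℝ)) := by
        have h4 : 1 / (N : ℝ) ≤ PRT.sig c N / 2 := by
          rw [hsig, ← hsN, div_div, div_le_div_iff₀ (by positivity) (by positivity)]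
          calc 1 * (2 * s * 2) = 4 * s := by ring
            _ ≤ (c * s) * s := mul_le_mul_of_nonneg_right E7 hs0.le
            _ = c * s ^ 2 := by ring
        have h5 : PRT.sig c N / 2 ≤ PRT.sig c N / 4 * (2 * (r j : ℝ)) := by
          calc PRT.sig c N / 2 = PRT.sig c N / 2 * 1 := by ring
            _ ≤ PRT.sig c N / 2 * (r j : ℝ) := mul_le_mul_of_nonneg_left (hr1 j) (by positivity)
            _ = _ := by ring
        exact h4.trans h5
      calc A j / N = (1 / (N : ℝ)) * A j := by ring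
        _ ≤ _ := mul_le_mul_of_nonneg_right h3 p1.le
    · refine p3.trans ?_
      change (Real.exp (4 * PRT.sig c N * (2 * (r j : ℝ))) - 1) * A j ≤ A j * (1 / l)
      have h3 : 4 * PRT.sig c N * (2 * (r j : ℝ)) ≤ 1 / (2 * l) := by
        have h4 : 4 * PRT.sig c N * (2 * (r j : ℝ)) ≤ 4 * PRT.sig c N * (2 * (R : ℝ)) := by
          apply mul_le_mul_of_nonneg_left _ (by positivity)
          linarith [hrR j]
        have h5 : (R : ℝ) ≤ 4 * η * s / l ^ 2 + 1 := by
          refine hRle.trans ?_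
          have : 2 * (J : ℝ) * (2 * l) / b ≤ 4 * η * s / l ^ 2 := by
            rw [div_le_div_iff₀ hb0 (by positivity)]
            calc 2 * (J : ℝ) * (2 * l) * l ^ 2 = 4 * J * l ^ 3 := by ring
              _ ≤ 4 * (η * s) * b := by
                  apply mul_le_mul _ hbl3 (by positivity) (by positivity)
                  linarith
              _ = 4 * η * s * b := by ring
          linarith
        calc 4 * PRT.sig c N * (2 * (r j : ℝ)) ≤ 4 * PRT.sig c N * (2 * (R : ℝ)) := h4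
          _ ≤ 4 * PRT.sig c N * (2 * (4 * η * s / l ^ 2 + 1)) := by
              apply mul_le_mul_of_nonneg_left _ (by positivity)
              linarith
          _ = (64 * c * η) / (4 * l ^ 2) + (16 * c * l) / (4 * l * s) := by
              rw [hsig]
              field_simp
              ring
          _ ≤ l / (4 * l ^ 2) + s / (4 * l * s) := by
              apply add_le_add
              · exact div_le_div_of_nonneg_right E8 (by positivity)
              · exact div_le_div_of_nonneg_right E8' (by positivity)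
          _ = 1 / (2 * l) := by
              field_simp
              ring
      have h6 : (0 : ℝ) ≤ 4 * PRT.sig c N * (2 * (r j : ℝ)) := by positivity
      have h7 : 1 / (2 * l) ≤ 1 / 2 := by
        apply one_div_le_one_div_of_le (by norm_num)
        linarith
      have h8 : Real.exp (4 * PRT.sig c N * (2 * (r j : ℝ))) - 1 ≤ 1 / l := by
        have h9 := Real.abs_exp_sub_one_le (x := 4 * PRT.sig c N * (2 * (r j : ℝ)))
          (by rw [abs_of_nonneg h6]; linarith)
        have h10 := (abs_le.1 h9).2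
        rw [abs_of_nonneg h6] at h10
        calc Real.exp (4 * PRT.sig c N * (2 * (r j : ℝ))) - 1
            ≤ 2 * (4 * PRT.sig c N * (2 * (r j : ℝ))) := h10
          _ ≤ 2 * (1 / (2 * l)) := by linarith
          _ = 1 / l := by field_simp
      calc (Real.exp (4 * PRT.sig c N * (2 * (r j : ℝ))) - 1) * A j ≤ (1 / l) * A j :=
            mul_le_mul_of_nonneg_right h8 p1.le
        _ = _ := mul_comm _ _
  -- the first value
  have hA0 : A 0 = Real.exp (φ (N : ℂ)).re := by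
    have him : (φ ((N : ℝ) : ℂ)).im = 0 := hreal N (by simp; positivity)
    change (cexp (φ ((N : ℝ) : ℂ))).re = _
    rw [Complex.exp_re, him, Real.cos_zero, mul_one]
    simp
  have hre := abs_le.1 h.re_near
  rw [← hs] at hre
  have hA0l : Real.exp (0.99 * (c * s)) ≤ A 0 := by
    rw [hA0]
    apply Real.exp_le_exp.2
    linarith [hre.1]
  have hA0u : A 0 ≤ Real.exp (1.01 * c * s) := by
    rw [hA0]
    apply Real.exp_le_exp.2
    linarith [hre.2]
  -- lower and upper bounds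
  have hlow : ∀ i ≤ J, Real.exp (0.99 * (c * s)) ≤ A i * N ^ i := by
    intro i
    induction i with
    | zero => intro _; simpa using hA0l
    | succ i ih =>
      intro hi
      have h1 := ih (by omega)
      obtain ⟨p1, p2, p3⟩ := hstep i (by omega)
      rw [div_le_iff₀ hN0] at p2
      calc Real.exp (0.99 * (c * s)) ≤ A i * N ^ i := h1
        _ ≤ (A (i + 1) * N) * N ^ i := mul_le_mul_of_nonneg_right p2 (by positivity)
        _ = _ := by ring
  have hup : ∀ i ≤ J, A i * l ^ i ≤ Real.exp (1.01 * c * s) := by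
    intro i
    induction i with
    | zero => intro _; simpa using hA0u
    | succ i ih =>
      intro hi
      have h1 := ih (by omega)
      obtain ⟨p1, p2, p3⟩ := hstep i (by omega)
      calc A (i + 1) * l ^ (i + 1) ≤ (A i * (1 / l)) * l ^ (i + 1) :=
            mul_le_mul_of_nonneg_right p3 (by positivity)
        _ = A i * l ^ i * (1 / l * l) := by ring
        _ = A i * l ^ i := by rw [one_div_mul_cancel hl0.ne', mul_one]
        _ ≤ _ := h1
  have hq0 : (0 : ℝ) < q := by exact_mod_cast hq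
  have hq1 : (1 : ℝ) ≤ q := by exact_mod_cast hq
  have hqe : (q : ℝ) ≤ Real.exp (s / 2) := by
    rw [← Real.log_le_iff_le_exp hq0]
    exact hq'
  have hAJ : A J < 1 / (4 * (q : ℝ)) := by
    have h1 := hup J le_rfl
    have h2 : Real.exp ((1.01 * c + 2.5) * s) ≤ l ^ J := by
      have h3 : l ^ J = Real.exp (J * Real.log l) := by
        rw [Real.exp_nat_mul, Real.exp_log hl0]
      rw [h3]
      apply Real.exp_le_exp.2
      have h4 : 0 ≤ 2 / η * (1.01 * c + 2.5) := by positivity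
      calc (1.01 * c + 2.5) * s = (η * s / 2) * (2 / η * (1.01 * c + 2.5)) := by field_simp
        _ ≤ J * Real.log l := mul_le_mul hJge E9 h4 (by positivity)
    have h5 : A J * Real.exp ((1.01 * c + 2.5) * s) ≤ Real.exp (1.01 * c * s) := by
      by_cases hneg : 0 ≤ A J
      · exact (mul_le_mul_of_nonneg_left h2 hneg).trans h1
      · rw [not_le] at hneg
        have := mul_neg_of_neg_of_pos hneg (Real.exp_pos ((1.01 * c + 2.5) * s))
        have h6 := Real.exp_pos (1.01 * c * s)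
        linarith
    have h6 : A J ≤ Real.exp (-(2.5 * s)) := by
      have h7 : Real.exp (1.01 * c * s) = Real.exp (-(2.5 * s)) * Real.exp ((1.01 * c + 2.5) * s) := by
        rw [← Real.exp_add]
        congr 1
        ring
      rw [h7] at h5
      exact le_of_mul_le_mul_right h5 (Real.exp_pos _)
    rw [lt_div_iff₀ (by positivity)]
    have h8 : Real.exp (-(2.5 * s)) * (4 * Real.exp (s / 2)) < 1 := by
      have h9 : (4 : ℝ) < Real.exp (2 * s) := by
        have h10 : Real.exp 2 ≤ Real.exp (2 * s) := Real.exp_le_exp.2 (by linarith)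
        exact lt_of_lt_of_le four_lt_exp_two h10
      calc Real.exp (-(2.5 * s)) * (4 * Real.exp (s / 2))
          = 4 * (Real.exp (-(2.5 * s)) * Real.exp (s / 2)) := by ring
        _ = 4 * Real.exp (-(2 * s)) := by
            rw [← Real.exp_add]
            congr 2
            ring
        _ < Real.exp (2 * s) * Real.exp (-(2 * s)) := mul_lt_mul_of_pos_right h9 (Real.exp_pos _)
        _ = 1 := by rw [← Real.exp_add]; simp
    calc A J * (4 * (q : ℝ)) ≤ Real.exp (-(2.5 * s)) * (4 * Real.exp (s / 2)) := by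
          apply mul_le_mul h6 (by linarith) (by positivity) (Real.exp_pos _).le
      _ < 1 := h8
  -- the first index below the threshold
  classical
  have hex : ∃ j, A j < 1 / (4 * (q : ℝ)) := ⟨J, hAJ⟩
  set j := Nat.find hex with hj
  have hjlt : A j < 1 / (4 * (q : ℝ)) := Nat.find_spec hex
  have hjJ : j ≤ J := Nat.find_min' hex hAJ
  have hj0 : j ≠ 0 := by
    intro h0
    rw [h0] at hjlt
    have h1 : (1 : ℝ) ≤ A 0 := by
      refine le_trans ?_ hA0l
      exact Real.one_le_exp (by positivity)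
    have h2 : 1 / (4 * (q : ℝ)) ≤ 1 := by
      rw [div_le_one (by positivity)]
      linarith
    linarith
  obtain ⟨i, hi⟩ := Nat.exists_eq_succ_of_ne_zero hj0
  have hi' : 1 / (4 * (q : ℝ)) ≤ A i := by
    have := Nat.find_min hex (m := i) (by omega)
    exact not_lt.1 this
  refine ⟨r, j, fun i => (hr i).1, ?_, ?_, ?_, ?_, hjlt⟩
  · -- lower bound for j
    have h1 := hlow j hjJ
    have h2 : Real.exp (0.99 * (c * s)) ≤ (N : ℝ) ^ j := by
      have h3 : 1 / (4 * (q : ℝ)) ≤ 1 := by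
        rw [div_le_one (by positivity)]
        linarith
      calc Real.exp (0.99 * (c * s)) ≤ A j * N ^ j := h1
        _ ≤ 1 * N ^ j := mul_le_mul_of_nonneg_right (by linarith) (by positivity)
        _ = _ := one_mul _
    have h3 : 0.99 * (c * s) ≤ j * l := by
      have h4 := Real.log_le_log (Real.exp_pos _) h2
      rw [Real.log_exp, Real.log_pow, ← hl] at h4
      exact h4
    have h5 : s ≤ (2 / c) * (j * l) := by
      rw [div_mul_eq_mul_div, le_div_iff₀ hc]
      have h6 : 0 < c * s := mul_pos hc hs0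
      linarith only [h3, h6]
    calc s ≤ (2 / c) * (j * l) := h5
      _ ≤ C * (j * l) := mul_le_mul_of_nonneg_right hC4 (by positivity)
      _ = _ := by ring
  · have h1 := hsumle j hjJ
    have h2 : 0 ≤ N * l / b := by positivity
    calc 2 * (∑ i ∈ Finset.range j, (r i : ℝ)) ≤ 2 * ((J : ℝ) * R) := by linarith
      _ ≤ 8 * η ^ 2 * (N * l / b) + 2 * η * s := hJR
      _ ≤ C * (N * l / b) + C * s := by
          apply add_le_add
          · apply mul_le_mul_of_nonneg_right _ h2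
            linarith only [hC3, hη0]
          · apply mul_le_mul_of_nonneg_right _ hs0.le
            linarith only [hC3, sq_nonneg η]
      _ = _ := by ring
  · -- the norm
    have h1 : (j : ℝ) ≤ (b : ℝ) * R / (2 * Real.log (R + 1)) := by
      rw [le_div_iff₀ (by positivity)]
      have h2 : (j : ℝ) ≤ J := by exact_mod_cast hjJ
      calc (j : ℝ) * (2 * Real.log (R + 1)) ≤ J * (2 * (2 * l)) := by
            apply mul_le_mul h2 _ (by positivity) (by positivity)
            linarith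
        _ = 2 * (J : ℝ) * (2 * l) := by ring
        _ ≤ b * R := hRge'
    have h2 : ∑ i ∈ Finset.range j, r i ≤ J * R + 2 := by
      have := hsumle j hjJ
      have h3 : ((∑ i ∈ Finset.range j, r i : ℕ) : ℝ) ≤ ((J * R + 2 : ℕ) : ℝ) := by
        push_cast
        linarith
      exact_mod_cast h3
    have h3 := hl1 j h1 (J * R + 2) (by omega) h2
    refine h3.trans (Real.exp_le_exp.2 ?_)
    have hQ : Real.log ((J * R + 2 : ℕ) : ℝ) ≤ 2 * l := by
      have h4 : ((J * R + 2 : ℕ) : ℝ) ≤ (N : ℝ) ^ 2 := by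
        push_cast
        have h5 : (J : ℝ) * R ≤ (η * s) * (4 * η * s + 1) :=
          mul_le_mul hJle hRle2 (by positivity) (by positivity)
        calc (J : ℝ) * R + 2 ≤ (η * s) * (4 * η * s + 1) + 2 := by linarith
          _ = 4 * η ^ 2 * s ^ 2 + η * s + 2 := by ring
          _ ≤ s ^ 4 := E10
          _ = (N : ℝ) ^ 2 := by rw [← hsN]; ring
      have h5 := Real.log_le_log (by positivity) h4
      rw [Real.log_pow, ← hl] at h5
      exact_mod_cast h5
    have hQ0 : 0 ≤ Real.log ((J * R + 2 : ℕ) : ℝ) := Real.log_natCast_nonneg _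
    calc (3 * (b : ℝ) + 5) * (1 + 2 * Real.log ((J * R + 2 : ℕ) : ℝ))
        ≤ (8 * b) * (5 * l) := by
          apply mul_le_mul (by linarith) (by linarith) (by positivity) (by positivity)
      _ = 40 * (b * l) := by ring
      _ ≤ C * (b * l) := mul_le_mul_of_nonneg_right hC2 (by positivity)
      _ = C * b * l := by ring
  · obtain ⟨p1, p2, p3⟩ := hstep i (by omega)
    have h1 : A j = A (i + 1) := by rw [hi]
    change 1 / (4 * (q : ℝ) * N) ≤ A j
    rw [h1]
    refine le_trans ?_ p2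
    rw [← div_div]
    exact div_le_div_of_nonneg_right hi' hN0.le

/-- EXO. Existence of the operator. `c = Cst/k`, `ϵ = 1/100`, `ϱ` from `PRT.phi_good` (`≤ 1/4`), `φ = phi k 1`,
`J = ⌊cϱ/64 · √N⌋`, `L = 2 log N`, `M' = b/log (R+1)`, `R` = the least number with `b R ≥ 2 J log (R+1)`
(or simply `R = ⌈2 J L/b⌉`), so `R ≤ 2JL/b + 1`, `J ≤ b R/(2 log (R+1))` (as `R + 1 ≤ N²`). `r` from `design`,
steps `h i = 2 r i`, `∑_{i<J} h i ≤ 2 J R ≤ C (N log N/b + √N) ≤ ϱN/4`.
`A j = Dop h j (Re exp φ) N`. `A 0 = exp (Re φ(N)) ≥ e^{c√N/2}` and `≤ e^{2c√N}`. Each step multiplies by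
at least `σ/4 · 2 ≥ 1/N` and at most `e^{8σR} - 1 ≤ 16σR ≤ 1/log N` (as `b ≥ C (log N)^3`), so
`A J ≤ e^{2c√N} (log N)^{-J} < e^{-√N}`. Let `j+1` be the first index with `A < 1/(4q)`: then
`1/(4qN) ≤ A (j+1) < 1/(4q)`, and `A i ≥ e^{c√N/2} N^{-i}` shows `(j+1) log N ≥ c√N/2 ` (as `A (j+1) < 1`). -/
theorem exists_op {k : ℕ} (hk : 2 ≤ k) : ∃ C : ℝ, 1 ≤ C ∧ ∀ᶠ N : ℕ in atTop, ∀ b : ℕ,
    C * (Real.log N) ^ 3 ≤ b → b ≤ N → ∀ q : ℕ, 1 ≤ q → Real.log q ≤ Real.sqrt N / 2 →
    ∃ (r : ℕ → ℕ) (j : ℕ), (∀ i, 1 ≤ r i) ∧ Real.sqrt N ≤ C * j * Real.log N ∧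
      2 * (∑ i ∈ Finset.range j, (r i : ℝ)) ≤ C * (N * Real.log N / b + Real.sqrt N) ∧
      l1 (PP r j) ≤ Real.exp (C * b * Real.log N) ∧
      1 / (4 * (q : ℝ) * N) ≤
        Dop (fun i => 2 * (r i : ℝ)) j (fun x => (cexp (PRT.phi k 1 (x : ℂ))).re) N ∧
      Dop (fun i => 2 * (r i : ℝ)) j (fun x => (cexp (PRT.phi k 1 (x : ℂ))).re) N < 1 / (4 * (q : ℝ)) := by
  obtain ⟨CD, hCD, hdes⟩ := design
  obtain ⟨ϱ₀, hϱ₀, hgood⟩ := PRT.phi_good hk (e := 1) (Or.inl rfl) (ϵ := 1 / 100) (by norm_num)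
  set c : ℝ := PRT.Cst / k with hc
  have hk0 : (0 : ℝ) < k := by
    have : (2 : ℝ) ≤ k := by exact_mod_cast hk
    linarith
  have hCst : 0 < PRT.Cst := by
    unfold PRT.Cst
    positivity
  have hc0 : 0 < c := by positivity
  set ϱ : ℝ := min ϱ₀ (1 / 4) with hϱ
  have hϱ0 : 0 < ϱ := lt_min hϱ₀ (by norm_num)
  have hg := hgood ϱ hϱ0 (min_le_left _ _)
  set η : ℝ := c * ϱ / 64 with hη
  have hη0 : 0 < η := by positivity
  refine ⟨8 * CD + 40 + (8 * η ^ 2 + 2 * η) + 2 / c, ?_, ?_⟩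
  · have : 0 < 8 * η ^ 2 + 2 * η := by positivity
    have : 0 < 2 / c := by positivity
    linarith
  have hsq : Tendsto (fun N : ℕ => Real.sqrt (N : ℝ)) atTop atTop :=
    Real.tendsto_sqrt_atTop.comp tendsto_natCast_atTop_atTop
  have hlg : Tendsto (fun N : ℕ => Real.log (N : ℝ)) atTop atTop :=
    Real.tendsto_log_atTop.comp tendsto_natCast_atTop_atTop
  have hlg2 : Tendsto (fun N : ℕ => Real.log (Real.log (N : ℝ))) atTop atTop :=
    Real.tendsto_log_atTop.comp hlg
  have hsmall : ∀ᶠ N : ℕ in atTop, 16 * c * Real.log (N : ℝ) ≤ Real.sqrt N := by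
    have h1 := (isLittleO_log_rpow_atTop (r := 1 / 2) (by norm_num)).bound
      (show (0 : ℝ) < 1 / (16 * c) by positivity)
    have h2 := tendsto_natCast_atTop_atTop (R := ℝ) |>.eventually h1
    filter_upwards [h2, hlg.eventually_ge_atTop 0] with N hN hN0
    rw [Real.norm_of_nonneg hN0, Real.norm_of_nonneg (by positivity), ← Real.sqrt_eq_rpow] at hN
    calc 16 * c * Real.log (N : ℝ) ≤ 16 * c * (1 / (16 * c) * Real.sqrt N) :=
          mul_le_mul_of_nonneg_left hN (by positivity)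
      _ = Real.sqrt N := by field_simp
  have hq1 : ∀ᶠ N : ℕ in atTop, 64 * η ^ 2 / ϱ + 1 ≤ Real.log (N : ℝ) := hlg.eventually_ge_atTop _
  filter_upwards [hg, phi_real k, hsq.eventually_ge_atTop
      (4 * η + 2 + 4 / η + 16 * η / ϱ + 4 / c + (4 * η ^ 2 + η + 2)),
    hlg.eventually_ge_atTop (1 + 64 * c * η), hq1, hsmall,
    hlg2.eventually_ge_atTop (2 / η * (1.01 * c + 2.5))] with N hN hre hs hl hl2 hsm hll
  intro b hb hbN q hq hq'
  have hs2 : 2 ≤ Real.sqrt N := by
    have : 0 ≤ 4 * η + 4 / η + 16 * η / ϱ + 4 / c + (4 * η ^ 2 + η + 2) := by positivity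
    linarith
  have hs1 : 1 ≤ Real.sqrt N := by linarith
  set s := Real.sqrt N with hsdef
  set l := Real.log (N : ℝ) with hldef
  have p1 : 0 ≤ 4 * η := by positivity
  have p2 : 0 ≤ 4 / η := by positivity
  have p3 : 0 ≤ 16 * η / ϱ := by positivity
  have p4 : 0 ≤ 4 / c := by positivity
  have p5 : 0 ≤ 4 * η ^ 2 + η + 2 := by positivity
  have hsN : s ^ 2 = (N : ℝ) := Real.sq_sqrt (Nat.cast_nonneg _)
  have hNpos : (0 : ℝ) < N := by rw [← hsN]; positivity
  refine exo_one (C := 8 * CD + 40 + (8 * η ^ 2 + 2 * η) + 2 / c) hc0 hϱ0 hCD hdes hN ?_ b q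
    hsdef hldef hη ?_ ?_ ?_ ?_ hs1 ?_ ?_ ?_ ?_ ?_ ?_ ?_ ?_ hll ?_ hb hbN hq hq'
  · intro x hx
    apply hre
    have h1 := (abs_lt.1 hx).1
    have h2 : ϱ ≤ 1 / 4 := min_le_right _ _
    nlinarith
  · have h1 : 0 < 8 * η ^ 2 + 2 * η := by positivity
    have h2 : 0 < 2 / c := by positivity
    linarith
  · have h1 : 0 < 8 * η ^ 2 + 2 * η := by positivity
    have h2 : 0 < 2 / c := by positivity
    linarith
  · have h2 : 0 < 2 / c := by positivity
    linarith
  · have h1 : 0 < 8 * η ^ 2 + 2 * η := by positivity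
    linarith
  · have : 0 ≤ 64 * c * η := by positivity
    linarith
  · have h1 : 4 / η ≤ s := by linarith
    rw [div_le_iff₀ hη0] at h1
    linarith
  · have h1 : 4 * η + 2 ≤ s := by linarith
    calc 4 * η * s + 2 ≤ 4 * η * s + 2 * s := by linarith only [hs1]
      _ = (4 * η + 2) * s := by ring
      _ ≤ s * s := mul_le_mul_of_nonneg_right h1 (by linarith only [hs1])
      _ = s ^ 2 := by ring
  · have h1 : 64 * η ^ 2 / ϱ ≤ l := by linarith
    rw [div_le_iff₀ hϱ0] at h1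
    have h2 : 1 ≤ l := by
      have : 0 ≤ 64 * c * η := by positivity
      linarith
    calc 64 * η ^ 2 ≤ l * ϱ := h1
      _ = ϱ * (l * 1) := by ring
      _ ≤ ϱ * (l * l) := by
          apply mul_le_mul_of_nonneg_left _ hϱ0.le
          exact mul_le_mul_of_nonneg_left h2 (by linarith)
      _ = ϱ * l ^ 2 := by ring
  · have h1 : 16 * η / ϱ ≤ s := by linarith
    rw [div_le_iff₀ hϱ0] at h1
    linarith
  · have h1 : 4 / c ≤ s := by linarith
    rw [div_le_iff₀ hc0] at h1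
    linarith
  · linarith
  · exact hsm
  · have h1 : 4 * η ^ 2 + η + 2 ≤ s := by linarith
    have h4 : s ≤ s ^ 2 := le_self_pow₀ hs1 (by norm_num)
    have h5 : η * s ≤ η * s ^ 2 := mul_le_mul_of_nonneg_left h4 hη0.le
    have h6 : (1 : ℝ) ≤ s ^ 2 := one_le_pow₀ hs1
    have h3 : 4 * η ^ 2 * s ^ 2 + η * s + 2 ≤ (4 * η ^ 2 + η + 2) * s ^ 2 := by
      linarith only [h5, h6]
    calc 4 * η ^ 2 * s ^ 2 + η * s + 2 ≤ (4 * η ^ 2 + η + 2) * s ^ 2 := h3
      _ ≤ s * s ^ 2 := mul_le_mul_of_nonneg_right h1 (by positivity)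
      _ = s ^ 3 := by ring
      _ ≤ s ^ 4 := pow_le_pow_right₀ hs1 (by norm_num)

end QPL
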