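import Pool.Agent.QPL.Defs

set_option autoImplicit false

namespace QPL

open Finset

theorem fej_G (n : ℕ) (θ : ℝ) :
    2 * Real.sin (θ / 2) * (1 / 2 + Dn n θ) = Real.sin ((n + 1 / 2) * θ) := by
  induction n with
  | zero =>
    unfold Dn
    have h : ((0 : ℕ) + 1 / 2 : ℝ) * θ = θ / 2 := by push_cast; ring
    rw [h]
    simp
    ring
  | succ n ih =>
    have h1 : Dn (n + 1) θ = Dn n θ + Real.cos ((n + 1 : ℕ) * θ) := by
      unfold Dn
      rw [Finset.sum_Icc_succ_top (by omega)]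
    have h2 : Real.sin (((n + 1 : ℕ) + 1 / 2 : ℝ) * θ) - Real.sin ((n + 1 / 2) * θ) =
        2 * Real.sin (θ / 2) * Real.cos ((n + 1 : ℕ) * θ) := by
      rw [Real.sin_sub_sin]
      congr 2
      · congr 1
        push_cast
        ring
      · congr 1
        push_cast
        ring
    rw [h1]
    linear_combination ih - h2

theorem fej_F (m : ℕ) (θ : ℝ) :
    2 * Real.sin (θ / 2) ^ 2 * ∑ n ∈ range m, (1 / 2 + Dn n θ) = Real.sin (m * θ / 2) ^ 2 := by
  induction m with
  | zero => simp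
  | succ m ih =>
    rw [Finset.sum_range_succ, mul_add, ih]
    have h1 := fej_G m θ
    have h2 : 2 * Real.sin (θ / 2) ^ 2 * (1 / 2 + Dn m θ) =
        Real.sin (θ / 2) * Real.sin ((m + 1 / 2) * θ) := by
      rw [← h1]; ring
    rw [h2]
    have h3 : ((m + 1 : ℕ) : ℝ) * θ / 2 = m * θ / 2 + θ / 2 := by push_cast; ring
    have h4 : ((m : ℝ) + 1 / 2) * θ = m * θ / 2 + (m * θ / 2 + θ / 2) := by ring
    rw [h3, h4, Real.sin_add (m * θ / 2) (m * θ / 2 + θ / 2), Real.sin_add, Real.cos_add]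
    have h5 := Real.sin_sq_add_cos_sq (m * θ / 2)
    have h6 := Real.sin_sq_add_cos_sq (θ / 2)
    set A := Real.sin (m * θ / 2)
    set B := Real.cos (m * θ / 2)
    set C := Real.sin (θ / 2)
    set D := Real.cos (θ / 2)
    linear_combination (-A ^ 2) * h6

/-- FEJ (a). `Dn n θ = -1/2 + sin ((n+1/2)θ)/(2 sin (θ/2))`, `sin (θ/2) ≥ θ/π`. -/
theorem Dn_abs (n : ℕ) {θ : ℝ} (h0 : 0 < θ) (hπ : θ ≤ Real.pi) : |Dn n θ| ≤ Real.pi / θ := by
  have hpi := Real.pi_pos
  have hs : θ / Real.pi ≤ Real.sin (θ / 2) := by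
    have h := Real.mul_le_sin (x := θ / 2) (by linarith) (by linarith)
    calc θ / Real.pi = 2 / Real.pi * (θ / 2) := by ring
      _ ≤ _ := h
  have hs0 : 0 < Real.sin (θ / 2) := lt_of_lt_of_le (by positivity) hs
  have h1 := fej_G n θ
  have h2 : 2 * Real.sin (θ / 2) * Dn n θ = Real.sin ((n + 1 / 2) * θ) - Real.sin (θ / 2) := by
    linear_combination h1
  have h3 : |2 * Real.sin (θ / 2) * Dn n θ| ≤ 2 := by
    rw [h2]
    have a1 := Real.sin_le_one ((n + 1 / 2) * θ)
    have a2 := Real.neg_one_le_sin ((n + 1 / 2) * θ)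
    have a3 := Real.sin_le_one (θ / 2)
    have a4 := Real.neg_one_le_sin (θ / 2)
    rw [abs_le]
    constructor <;> linarith
  rw [abs_mul, abs_of_pos (by positivity : 0 < 2 * Real.sin (θ / 2))] at h3
  rw [le_div_iff₀ h0]
  have h4 : θ ≤ Real.pi * Real.sin (θ / 2) := by
    rw [div_le_iff₀ hpi] at hs
    linarith
  have h5 : |Dn n θ| * θ ≤ |Dn n θ| * (Real.pi * Real.sin (θ / 2)) :=
    mul_le_mul_of_nonneg_left h4 (abs_nonneg _)
  nlinarith

/-- FEJ (b). Lipschitz constant. -/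
theorem Dn_lip (n : ℕ) (θ θ' : ℝ) : |Dn n θ - Dn n θ'| ≤ (n : ℝ) ^ 2 * |θ - θ'| := by
  have hcos : ∀ a b : ℝ, |Real.cos a - Real.cos b| ≤ |a - b| := by
    intro a b
    rw [Real.cos_sub_cos, abs_mul, abs_mul]
    have h1 := Real.abs_sin_le_one ((a + b) / 2)
    have h2 : |Real.sin ((a - b) / 2)| ≤ |(a - b) / 2| := Real.abs_sin_le_abs
    have h3 : |(-2 : ℝ)| = 2 := by norm_num
    rw [h3]
    have h4 : |(a - b) / 2| = |a - b| / 2 := by
      rw [abs_div]; norm_num
    rw [h4] at h2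
    calc 2 * |Real.sin ((a + b) / 2)| * |Real.sin ((a - b) / 2)|
        ≤ 2 * 1 * (|a - b| / 2) := by
          apply mul_le_mul (by linarith) h2 (abs_nonneg _) (by norm_num)
      _ = |a - b| := by ring
  unfold Dn
  rw [← Finset.sum_sub_distrib]
  refine (Finset.abs_sum_le_sum_abs _ _).trans ?_
  calc ∑ r ∈ Icc 1 n, |Real.cos (r * θ) - Real.cos (r * θ')|
      ≤ ∑ r ∈ Icc 1 n, (n : ℝ) * |θ - θ'| := by
        refine Finset.sum_le_sum fun r hr => ?_
        refine (hcos _ _).trans ?_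
        rw [← mul_sub, abs_mul, Nat.abs_cast]
        exact mul_le_mul_of_nonneg_right (by exact_mod_cast (Finset.mem_Icc.1 hr).2)
          (abs_nonneg _)
    _ = (n : ℝ) ^ 2 * |θ - θ'| := by
        rw [Finset.sum_const, Nat.card_Icc, nsmul_eq_mul]
        rw [Nat.add_sub_cancel]
        ring

/-- the logarithmic weights -/
noncomputable def fejl (n : ℕ) : ℝ := if n = 0 then Real.log 2 else Real.log (1 + 1 / (n : ℝ))

theorem fejl_succ (n : ℕ) : fejl (n + 1) = Real.log (1 + 1 / ((n + 1 : ℕ) : ℝ)) := by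
  unfold fejl
  rw [if_neg (Nat.succ_ne_zero n)]

theorem fejl_zero : fejl 0 = Real.log 2 := by
  unfold fejl
  rw [if_pos rfl]

theorem fej_abel (G : ℕ → ℝ) (y : ℕ) :
    ∑ n ∈ range (y + 1), fejl n * G n =
      ∑ m ∈ range y, (fejl m - fejl (m + 1)) * ∑ n ∈ range (m + 1), G n +
        fejl y * ∑ n ∈ range (y + 1), G n := by
  induction y with
  | zero => simp
  | succ y ih =>
    rw [Finset.sum_range_succ, ih, Finset.sum_range_succ (fun m => (fejl m - fejl (m + 1)) *
      ∑ n ∈ range (m + 1), G n), Finset.sum_range_succ G (y + 1)]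
    ring

theorem fejl_sub {m : ℕ} (hm : 1 ≤ m) : 1 / ((m : ℝ) + 1) ^ 2 ≤ fejl m - fejl (m + 1) := by
  have hm0 : (0 : ℝ) < m := by exact_mod_cast hm
  unfold fejl
  rw [if_neg (by omega), if_neg (by omega), ← Real.log_div (by positivity) (by positivity)]
  have h1 : (1 + 1 / (m : ℝ)) / (1 + 1 / ((m + 1 : ℕ) : ℝ)) =
      ((m : ℝ) + 1) ^ 2 / (m * (m + 2)) := by
    push_cast
    field_simp
    ring
  rw [h1]
  have h2 := Real.one_sub_inv_le_log_of_pos (x := ((m : ℝ) + 1) ^ 2 / (m * (m + 2)))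
    (by positivity)
  refine le_trans (le_of_eq ?_) h2
  rw [inv_div]
  field_simp
  ring

theorem fejl_sub_nonneg (m : ℕ) : 0 ≤ fejl m - fejl (m + 1) := by
  by_cases hm : m = 0
  · subst hm
    rw [fejl_zero, fejl_succ]
    norm_num
  · exact le_trans (by positivity) (fejl_sub (by omega))

theorem fejl_ge {y : ℕ} (hy : 1 ≤ y) : 1 / ((y : ℝ) + 1) ≤ fejl y := by
  have hy0 : (0 : ℝ) < y := by exact_mod_cast hy
  unfold fejl
  rw [if_neg (by omega)]
  have h2 := Real.one_sub_inv_le_log_of_pos (x := 1 + 1 / (y : ℝ)) (by positivity)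
  refine le_trans (le_of_eq ?_) h2
  field_simp
  ring

theorem fej_log (y : ℕ) : ∑ n ∈ Finset.Icc 1 y, Real.log (1 + 1 / (n : ℝ)) =
    Real.log (y + 1) := by
  induction y with
  | zero => simp
  | succ y ih =>
    rw [Finset.sum_Icc_succ_top (by omega), ih, ← Real.log_mul (by positivity) (by positivity)]
    congr 1
    push_cast
    field_simp

/-- FEJ (c). Lower bound for the mean. -/
theorem WW_lower {y : ℕ} (hy : 1 ≤ y) {θ : ℝ} (h0 : 1 / ((y : ℝ) + 1) ≤ θ) (hπ : θ ≤ Real.pi) :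
    1 / (20 * θ) - 1 - Real.log (y + 1) ≤ ∑ n ∈ Finset.Icc 1 y, Real.log (1 + 1 / (n : ℝ)) * Dn n θ := by
  have hpi := Real.pi_pos
  have hy0 : (0 : ℝ) < y := by exact_mod_cast hy
  have hθ : 0 < θ := lt_of_lt_of_le (by positivity) h0
  set G : ℕ → ℝ := fun n => 1 / 2 + Dn n θ with hG
  set Fm : ℕ → ℝ := fun m => ∑ n ∈ range m, G n with hFm
  have hs0 : 0 < Real.sin (θ / 2) :=
    Real.sin_pos_of_pos_of_lt_pi (by linarith) (by linarith)
  have hF : ∀ m, 2 * Real.sin (θ / 2) ^ 2 * Fm m = Real.sin (m * θ / 2) ^ 2 := fun m => fej_F m θ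
  have hF0 : ∀ m, 0 ≤ Fm m := by
    intro m
    by_contra hc
    have h1 := hF m
    have h2 : 2 * Real.sin (θ / 2) ^ 2 * Fm m < 0 :=
      mul_neg_of_pos_of_neg (by positivity) (not_le.1 hc)
    have h3 := sq_nonneg (Real.sin (m * θ / 2))
    linarith
  have hFlow : ∀ m : ℕ, 1 ≤ m * θ → (m : ℝ) * θ ≤ 3 → 1 / (5 * θ ^ 2) ≤ Fm m := by
    intro m h1 h2
    have h3 := hF m
    have h4 : 1 / Real.pi ≤ Real.sin (m * θ / 2) := by
      have h5 := Real.mul_le_sin (x := m * θ / 2) (by linarith)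
        (by have := Real.pi_gt_three; linarith)
      refine le_trans ?_ h5
      rw [div_mul_eq_mul_div, div_le_div_iff_of_pos_right hpi]
      linarith
    have h5 : 1 / 10 ≤ Real.sin (m * θ / 2) ^ 2 := by
      have h6 : (1 / Real.pi) ^ 2 ≤ Real.sin (m * θ / 2) ^ 2 :=
        pow_le_pow_left₀ (by positivity) h4 2
      refine le_trans ?_ h6
      rw [div_pow, one_pow, div_le_div_iff₀ (by norm_num) (by positivity)]
      have := Real.pi_lt_d2
      nlinarith
    have h6 : Real.sin (θ / 2) ^ 2 ≤ (θ / 2) ^ 2 :=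
      pow_le_pow_left₀ hs0.le (Real.sin_le (by linarith)) 2
    have h7 : 2 * Real.sin (θ / 2) ^ 2 * Fm m ≤ 2 * (θ / 2) ^ 2 * Fm m :=
      mul_le_mul_of_nonneg_right (by linarith) (hF0 m)
    rw [div_le_iff₀ (by positivity)]
    nlinarith
  have habel := fej_abel G y
  set S : ℝ := ∑ n ∈ range (y + 1), fejl n * G n with hS
  have hlast : 0 ≤ fejl y := le_trans (by positivity) (fejl_ge hy)
  have hterm : ∀ m, 0 ≤ (fejl m - fejl (m + 1)) * Fm (m + 1) := fun m =>
    mul_nonneg (fejl_sub_nonneg m) (hF0 _)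
  have hsum0 : 0 ≤ ∑ m ∈ range y, (fejl m - fejl (m + 1)) * Fm (m + 1) :=
    Finset.sum_nonneg fun m _ => hterm m
  -- relation between `S` and the goal
  have hrel : S = Real.log 2 / 2 + Real.log (y + 1) / 2 +
      ∑ n ∈ Finset.Icc 1 y, Real.log (1 + 1 / (n : ℝ)) * Dn n θ := by
    have h1 : S = fejl 0 * G 0 + ∑ n ∈ Finset.Icc 1 y, fejl n * G n := by
      rw [hS, Finset.sum_range_succ' , add_comm]
      congr 1
      rw [← Finset.Ico_succ_right_eq_Icc, Finset.sum_Ico_eq_sum_range]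
      simp only [Order.succ_eq_add_one, Nat.add_sub_cancel]
      refine Finset.sum_congr rfl fun n _ => ?_
      rw [add_comm 1 n]
    have h2 : ∑ n ∈ Finset.Icc 1 y, fejl n * G n =
        (∑ n ∈ Finset.Icc 1 y, Real.log (1 + 1 / (n : ℝ))) / 2 +
          ∑ n ∈ Finset.Icc 1 y, Real.log (1 + 1 / (n : ℝ)) * Dn n θ := by
      rw [Finset.sum_div, ← Finset.sum_add_distrib]
      refine Finset.sum_congr rfl fun n hn => ?_
      have hn1 : n ≠ 0 := by have := (Finset.mem_Icc.1 hn).1; omega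
      unfold fejl
      rw [if_neg hn1, hG]
      ring
    rw [h1, h2, fej_log, fejl_zero, hG]
    simp only [Dn]
    simp
    ring
  have hlog2 : 0 ≤ Real.log (y + 1) - Real.log 2 := by
    have : Real.log 2 ≤ Real.log (y + 1) := by
      apply Real.log_le_log (by norm_num)
      have : (1 : ℝ) ≤ y := by exact_mod_cast hy
      linarith
    linarith
  have hlogn : 0 ≤ Real.log (y + 1) := Real.log_nonneg (by linarith)
  suffices hmain : 1 / (20 * θ) - 1 ≤ S by
    rw [hrel] at hmain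
    linarith
  by_cases hbig : 1 / 20 ≤ θ
  · have h1 : 1 / (20 * θ) ≤ 1 := by
      rw [div_le_one (by positivity)]
      linarith
    have h2 : 0 ≤ fejl y * Fm (y + 1) := mul_nonneg hlast (hF0 _)
    have h3 : S = ∑ m ∈ range y, (fejl m - fejl (m + 1)) * Fm (m + 1) + fejl y * Fm (y + 1) :=
      habel
    linarith
  · push Not at hbig
    have h3 : S = ∑ m ∈ range y, (fejl m - fejl (m + 1)) * Fm (m + 1) + fejl y * Fm (y + 1) :=
      habel
    by_cases hcase : 2 / θ ≤ y
    · set A : ℕ := ⌈1 / θ⌉₊ with hA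
      set B : ℕ := ⌊2 / θ⌋₊ with hB
      have hA1 : 1 / θ ≤ A := Nat.le_ceil _
      have hA2 : (A : ℝ) < 1 / θ + 1 := Nat.ceil_lt_add_one (by positivity)
      have hB1 : (B : ℝ) ≤ 2 / θ := Nat.floor_le (by positivity)
      have hB2 : 2 / θ < B + 1 := Nat.lt_floor_add_one _
      have h20 : 20 ≤ 1 / θ := by
        rw [le_div_iff₀ hθ]
        linarith
      have hA20 : 20 ≤ A := by
        have : (20 : ℝ) ≤ A := h20.trans hA1
        exact_mod_cast this
      have hBy : B ≤ y := by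
        have : (B : ℝ) ≤ y := hB1.trans hcase
        exact_mod_cast this
      have hsub : Finset.Ico (A - 1) B ⊆ range y := by
        intro m hm
        rw [Finset.mem_Ico] at hm
        exact Finset.mem_range.2 (by omega)
      have hge : ∀ m ∈ Finset.Ico (A - 1) B, 1 / 20 ≤ (fejl m - fejl (m + 1)) * Fm (m + 1) := by
        intro m hm
        rw [Finset.mem_Ico] at hm
        have m1 : (A : ℝ) ≤ (m + 1 : ℕ) := by exact_mod_cast (by omega : A ≤ m + 1)
        have m2 : ((m + 1 : ℕ) : ℝ) ≤ B := by exact_mod_cast (by omega : m + 1 ≤ B)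
        have m3 : 1 ≤ ((m + 1 : ℕ) : ℝ) * θ := by
          have := hA1.trans m1
          rwa [div_le_iff₀ hθ] at this
        have m4 : ((m + 1 : ℕ) : ℝ) * θ ≤ 2 := by
          have := m2.trans hB1
          rwa [le_div_iff₀ hθ] at this
        have m5 := hFlow (m + 1) m3 (by linarith)
        have m6 := fejl_sub (m := m) (by omega)
        have m7 : 1 / ((m : ℝ) + 1) ^ 2 * (1 / (5 * θ ^ 2)) ≤
            (fejl m - fejl (m + 1)) * Fm (m + 1) :=
          mul_le_mul m6 m5 (by positivity) (fejl_sub_nonneg m)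
        refine le_trans ?_ m7
        push_cast at m4
        have m8 : 0 < ((m : ℝ) + 1) * θ := by positivity
        have m9 : (((m : ℝ) + 1) * θ) ^ 2 ≤ 4 := by nlinarith
        have m10 : 1 / ((m : ℝ) + 1) ^ 2 * (1 / (5 * θ ^ 2)) =
            1 / (5 * (((m : ℝ) + 1) * θ) ^ 2) := by
          field_simp
        rw [m10, div_le_div_iff₀ (by norm_num) (by positivity)]
        linarith
      have hs1 : ∑ m ∈ Finset.Ico (A - 1) B, (1 / 20 : ℝ) ≤
          ∑ m ∈ range y, (fejl m - fejl (m + 1)) * Fm (m + 1) :=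
        (Finset.sum_le_sum hge).trans
          (Finset.sum_le_sum_of_subset_of_nonneg hsub fun m _ _ => hterm m)
      rw [Finset.sum_const, Nat.card_Ico, nsmul_eq_mul] at hs1
      have hcard : 1 / θ - 1 ≤ ((B - (A - 1) : ℕ) : ℝ) := by
        have e1 : ((B - (A - 1) : ℕ) : ℝ) ≥ (B : ℝ) - ((A - 1 : ℕ) : ℝ) := by
          have : B ≤ (B - (A - 1)) + (A - 1) := by omega
          have e2 : (B : ℝ) ≤ ((B - (A - 1) : ℕ) : ℝ) + ((A - 1 : ℕ) : ℝ) := by exact_mod_cast this
          linarith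
        have e3 : ((A - 1 : ℕ) : ℝ) = A - 1 := by
          rw [Nat.cast_sub (by omega)]; simp
        rw [e3] at e1
        have e4 : 2 / θ = 1 / θ + 1 / θ := by ring
        linarith
      have h2 : 0 ≤ fejl y * Fm (y + 1) := mul_nonneg hlast (hF0 _)
      have e5 : 1 / (20 * θ) = 1 / θ * (1 / 20) := by
        field_simp
      rw [e5]
      nlinarith
    · push Not at hcase
      have y1 : (y : ℝ) * θ < 2 := by rwa [lt_div_iff₀ hθ] at hcase
      have y2 : 1 ≤ ((y + 1 : ℕ) : ℝ) * θ := by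
        rw [div_le_iff₀ (by positivity)] at h0
        push_cast
        linarith
      have y3 : ((y + 1 : ℕ) : ℝ) * θ ≤ 3 := by
        push_cast
        linarith
      have y4 := hFlow (y + 1) y2 y3
      have y5 : 1 / ((y : ℝ) + 1) * (1 / (5 * θ ^ 2)) ≤ fejl y * Fm (y + 1) :=
        mul_le_mul (fejl_ge hy) y4 (by positivity) hlast
      have y6 : 1 / (20 * θ) ≤ 1 / ((y : ℝ) + 1) * (1 / (5 * θ ^ 2)) := by
        rw [one_div_mul_one_div, div_le_div_iff₀ (by positivity) (by positivity)]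
        push_cast at y3
        have : ((y : ℝ) + 1) * (5 * θ ^ 2) = 5 * θ * (((y : ℝ) + 1) * θ) := by ring
        rw [one_mul, one_mul, this]
        nlinarith
      linarith

end QPL
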