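import Pool.Agent.QPL.EXO
import Pool.Agent.QPL.CTD
import Pool.Agent.PRT.ROOT

set_option autoImplicit false

namespace QPL

open Complex Metric Filter

/-- FIN, for one `N`. `U = (N/H) (log N)^2`. -/
theorem fin_one {k : ℕ} {C C₀ κ : ℝ} (hC : 1 ≤ C) (hκ : 0 < κ) {N N' : ℕ} (hNN : N ≤ N') (hN1 : N' ≤ N + 1)
    (hev : (-1 : ℂ) ^ N' = 1)
    (hexo : ∀ b : ℕ, C * (Real.log N') ^ 3 ≤ b → b ≤ N' → ∀ q : ℕ, 1 ≤ q →
      Real.log q ≤ Real.sqrt N' / 2 →
      ∃ (r : ℕ → ℕ) (j : ℕ), (∀ i, 1 ≤ r i) ∧ Real.sqrt N' ≤ C * j * Real.log N' ∧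
      2 * (∑ i ∈ Finset.range j, (r i : ℝ)) ≤ C * (N' * Real.log N' / b + Real.sqrt N') ∧
      l1 (PP r j) ≤ Real.exp (C * b * Real.log N') ∧
      1 / (4 * (q : ℝ) * N') ≤
        Dop (fun i => 2 * (r i : ℝ)) j (fun x => (cexp (PRT.phi k 1 (x : ℂ))).re) N' ∧
      Dop (fun i => 2 * (r i : ℝ)) j (fun x => (cexp (PRT.phi k 1 (x : ℂ))).re) N' < 1 / (4 * (q : ℝ)))
    (hroot : ∀ n : ℕ, N ≤ n →
      ‖cexp (PRT.phi k ((-1) ^ n) n) - (((PRT.pc n : ℝ) ^ ((1 : ℝ) / k) : ℝ) : ℂ)‖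
      ≤ Real.exp (-(κ * Real.sqrt n)))
    {s l : ℝ} (hs : s = Real.sqrt N) (hl : l = Real.log N)
    (hs4 : 4 ≤ s) (hl1 : 1 ≤ l) (hκs : 10 * l ≤ κ * s)
    (G1 : 16 * C ≤ C₀) (G2 : (2 + 2 * C * (16 * C) + 2 * C) + 5 ≤ C₀)
    (G3 : 2 * (2 + 2 * C * (16 * C) + 2 * C) / κ ≤ C₀)
    (H : ℝ) (hH1 : C₀ * s * l ^ 2 ≤ H) (hH2 : C₀ * H * l ^ 2 ≤ N)
    (T : Polynomial ℝ) (hT : C₀ * T.natDegree * l ≤ s) (q : ℕ) (hq : 1 ≤ q)
    (hq' : Real.log q ≤ 2 * (N / H * l ^ 2)) :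
    ∃ n : ℕ, N ≤ n ∧ (n : ℝ) ≤ N + H ∧ ∀ a : ℤ, Real.exp (-(C₀ * (N / H * l ^ 2))) <
      |(PRT.pc n : ℝ) ^ ((1 : ℝ) / k) - T.eval (n : ℝ) - (a : ℝ) / q| := by
  have hs0 : 0 < s := by linarith
  have hl0 : 0 < l := by linarith
  have hC0 : 0 < C := by linarith
  have hC₀ : 16 ≤ C₀ := by linarith
  have hC₀0 : 0 < C₀ := by linarith
  have hsN : s ^ 2 = (N : ℝ) := by rw [hs]; exact Real.sq_sqrt (Nat.cast_nonneg _)
  have hN0 : (0 : ℝ) < N := by rw [← hsN]; positivity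
  have hN16 : (16 : ℝ) ≤ N := by
    rw [← hsN]
    calc (16 : ℝ) = 4 ^ 2 := by norm_num
      _ ≤ s ^ 2 := pow_le_pow_left₀ (by norm_num) hs4 2
  have hNNr : (N : ℝ) ≤ N' := by exact_mod_cast hNN
  have hN1r : (N' : ℝ) ≤ N + 1 := by exact_mod_cast hN1
  have hN'2 : (N' : ℝ) ≤ 2 * N := by linarith
  have hN'0 : (0 : ℝ) < N' := by linarith
  set s' := Real.sqrt N' with hs'
  set l' := Real.log (N' : ℝ) with hl'
  have hss : s ≤ s' := by rw [hs]; exact Real.sqrt_le_sqrt hNNr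
  have hss2 : s' ≤ 2 * s := by
    rw [hs', Real.sqrt_le_left (by positivity)]
    calc (N' : ℝ) ≤ 2 * N := hN'2
      _ = 2 * s ^ 2 := by rw [hsN]
      _ ≤ (2 * s) ^ 2 := by
        have : 0 ≤ s ^ 2 := sq_nonneg s
        linarith
  have hll : l ≤ l' := by rw [hl]; exact Real.log_le_log hN0 hNNr
  have hll2 : l' ≤ 2 * l := by
    have h1 : (N' : ℝ) ≤ (N : ℝ) ^ 2 := by
      calc (N' : ℝ) ≤ 2 * N := hN'2
        _ ≤ N * N := mul_le_mul_of_nonneg_right (by linarith) hN0.le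
        _ = (N : ℝ) ^ 2 := by ring
    have h2 := Real.log_le_log hN'0 h1
    rw [Real.log_pow, ← hl] at h2
    exact_mod_cast h2
  have hl'0 : 0 < l' := by linarith
  have hl2 : 1 ≤ l ^ 2 := one_le_pow₀ hl1
  -- size of `H`
  have hH0 : 0 < H := lt_of_lt_of_le (by positivity) hH1
  have hsH : C₀ * s ≤ H := by
    refine le_trans ?_ hH1
    calc C₀ * s = C₀ * s * 1 := (mul_one _).symm
      _ ≤ C₀ * s * l ^ 2 := mul_le_mul_of_nonneg_left hl2 (by positivity)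
  set U : ℝ := N / H * l ^ 2 with hU
  have hNH : C₀ * l ^ 2 ≤ N / H := by
    rw [le_div_iff₀ hH0]
    calc C₀ * l ^ 2 * H = C₀ * H * l ^ 2 := by ring
      _ ≤ (N : ℝ) := hH2
  have hNH1 : 1 ≤ N / H := by
    refine le_trans ?_ hNH
    calc (1 : ℝ) = 1 * 1 := by norm_num
      _ ≤ C₀ * l ^ 2 := mul_le_mul (by linarith) hl2 (by norm_num) hC₀0.le
  have hUl : l ≤ U := by
    calc l ≤ l ^ 2 := le_self_pow₀ hl1 (by norm_num)
      _ = 1 * l ^ 2 := (one_mul _).symm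
      _ ≤ N / H * l ^ 2 := mul_le_mul_of_nonneg_right hNH1 (by positivity)
  have hU0 : 0 < U := by linarith
  have hUs : C₀ * U ≤ s := by
    have h1 : N / H * (C₀ * s * l ^ 2) ≤ N := by
      calc (N : ℝ) / H * (C₀ * s * l ^ 2) ≤ N / H * H := mul_le_mul_of_nonneg_left hH1 (by positivity)
        _ = N := div_mul_cancel₀ _ hH0.ne'
    have h2 : (C₀ * U) * s ≤ s * s := by
      calc (C₀ * U) * s = N / H * (C₀ * s * l ^ 2) := by rw [hU]; ring
        _ ≤ N := h1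
        _ = s * s := by rw [← hsN]; ring
    exact le_of_mul_le_mul_right h2 hs0
  -- the block parameter
  set x : ℝ := 16 * C * (N * l / H) with hx
  have hx0 : 0 < x := by positivity
  set b : ℕ := ⌈x⌉₊ with hb
  have hbge : x ≤ b := Nat.le_ceil _
  have hble : (b : ℝ) ≤ x + 1 := (Nat.ceil_lt_add_one hx0.le).le
  have hb0 : (0 : ℝ) < b := by linarith
  have hxl : x * l = 16 * C * U := by rw [hx, hU]; ring
  have B1 : C * l' ^ 3 ≤ b := by
    refine le_trans ?_ hbge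
    have h1 : l' ^ 3 ≤ (2 * l) ^ 3 := pow_le_pow_left₀ hl'0.le hll2 3
    have h2 : C₀ * l ^ 2 * l ≤ N / H * l := mul_le_mul_of_nonneg_right hNH hl0.le
    calc C * l' ^ 3 ≤ C * (2 * l) ^ 3 := mul_le_mul_of_nonneg_left h1 hC0.le
      _ = C * (8 * l ^ 2 * l) := by ring
      _ ≤ C * (C₀ * l ^ 2 * l) := by
          apply mul_le_mul_of_nonneg_left _ hC0.le
          apply mul_le_mul_of_nonneg_right _ hl0.le
          apply mul_le_mul_of_nonneg_right _ (by positivity)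
          linarith
      _ ≤ C * (N / H * l) := mul_le_mul_of_nonneg_left h2 hC0.le
      _ = 1 * (C * (N / H * l)) := (one_mul _).symm
      _ ≤ 16 * (C * (N / H * l)) := mul_le_mul_of_nonneg_right (by norm_num) (by positivity)
      _ = x := by rw [hx]; ring
  have hxs : x ≤ s := by
    have h1 : x ≤ x * l := le_mul_of_one_le_right hx0.le hl1
    calc x ≤ 16 * C * U := by rw [← hxl]; exact h1
      _ ≤ C₀ * U := mul_le_mul_of_nonneg_right G1 hU0.le
      _ ≤ s := hUs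
  have B2 : b ≤ N' := by
    have h1 : (b : ℝ) ≤ N' := by
      calc (b : ℝ) ≤ x + 1 := hble
        _ ≤ s + s := by linarith
        _ = 2 * s := by ring
        _ ≤ s * s := mul_le_mul_of_nonneg_right (by linarith) hs0.le
        _ = N := by rw [← hsN]; ring
        _ ≤ N' := hNNr
    exact_mod_cast h1
  have hU4 : U ≤ s / 4 := by
    have h1 : 16 * U ≤ C₀ * U := mul_le_mul_of_nonneg_right hC₀ hU0.le
    linarith
  have B3 : Real.log q ≤ s' / 2 := by linarith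
  obtain ⟨r, j, hr, hj, hwin, hnorm, hlow, hupp⟩ := hexo b B1 B2 q hq B3
  -- window
  have hwin2 : 2 * (∑ i ∈ Finset.range j, (r i : ℝ)) ≤ H / 2 := by
    have h1 : N' * l' / b ≤ 4 * (N * l) / x := by
      rw [div_le_div_iff₀ hb0 hx0]
      have h2 : (N' : ℝ) * l' ≤ (2 * N) * (2 * l) := mul_le_mul hN'2 hll2 hl'0.le (by positivity)
      calc N' * l' * x ≤ ((2 * N) * (2 * l)) * b := mul_le_mul h2 hbge hx0.le (by positivity)
        _ = 4 * (N * l) * b := by ring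
    have h3 : 4 * (N * l) / x = H / (4 * C) := by
      rw [hx]
      field_simp
      ring
    have h4 : C * (H / (4 * C)) = H / 4 := by field_simp
    have h5 : C * (2 * s) ≤ H / 4 := by
      have h6 : 16 * C * s ≤ C₀ * s := mul_le_mul_of_nonneg_right G1 hs0.le
      linarith
    calc 2 * (∑ i ∈ Finset.range j, (r i : ℝ)) ≤ C * (N' * l' / b + s') := hwin
      _ ≤ C * (H / (4 * C) + 2 * s) := by
          apply mul_le_mul_of_nonneg_left _ hC0.le
          rw [← h3]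
          exact add_le_add h1 hss2
      _ = C * (H / (4 * C)) + C * (2 * s) := by ring
      _ ≤ H / 4 + H / 4 := by rw [h4]; linarith
      _ = H / 2 := by ring
  have hH2' : 2 ≤ H := by
    have : 16 * 4 ≤ C₀ * s := mul_le_mul hC₀ hs4 (by norm_num) hC₀0.le
    linarith
  -- the points
  have hpt : ∀ i : ℕ, i ≤ ∑ i ∈ Finset.range j, r i →
      N ≤ N' + 2 * i ∧ ((N' + 2 * i : ℕ) : ℝ) ≤ N + H := by
    intro i hi
    refine ⟨by omega, ?_⟩
    have h1 : (i : ℝ) ≤ ∑ i ∈ Finset.range j, (r i : ℝ) := by exact_mod_cast hi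
    push_cast
    linarith
  -- degree
  have hdeg : T.natDegree < j := by
    have h1 : s ≤ C * j * (2 * l) := by
      calc s ≤ s' := hss
        _ ≤ C * j * l' := hj
        _ ≤ C * j * (2 * l) := mul_le_mul_of_nonneg_left hll2 (by positivity)
    have h2 : C₀ * T.natDegree * l ≤ 2 * C * j * l := by
      calc C₀ * T.natDegree * l ≤ s := hT
        _ ≤ C * j * (2 * l) := h1
        _ = 2 * C * j * l := by ring
    have h3 : C₀ * T.natDegree ≤ 2 * C * j := le_of_mul_le_mul_right h2 hl0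
    have hj0 : (0 : ℝ) < j := by
      by_contra hneg
      have h4 : (j : ℝ) = 0 := le_antisymm (not_lt.1 hneg) (Nat.cast_nonneg _)
      rw [h4] at h1
      linarith
    have h5 : (T.natDegree : ℝ) < j := by
      by_contra hneg
      rw [not_lt] at hneg
      have h6 : C₀ * j ≤ C₀ * T.natDegree := mul_le_mul_of_nonneg_left hneg hC₀0.le
      have h7 : 2 * C * j < C₀ * j := mul_lt_mul_of_pos_right (by linarith) hj0
      linarith
    exact_mod_cast h5
  -- the small quantity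
  set C₃ : ℝ := 2 + 2 * C * (16 * C) + 2 * C with hC₃
  have hC₃0 : 0 < C₃ := by positivity
  have hql1 : (q : ℝ) * l1 (PP r j) ≤ Real.exp (C₃ * U) := by
    have h1 : (q : ℝ) ≤ Real.exp (2 * U) := by
      rw [← Real.log_le_iff_le_exp (by exact_mod_cast hq)]
      exact hq'
    have h2 : C * b * l' ≤ (2 * C * (16 * C) + 2 * C) * U := by
      calc C * b * l' ≤ C * (x + 1) * (2 * l) := by
            apply mul_le_mul _ hll2 hl'0.le (by positivity)
            exact mul_le_mul_of_nonneg_left hble hC0.le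
        _ = 2 * C * (x * l) + 2 * C * l := by ring
        _ = 2 * C * (16 * C * U) + 2 * C * l := by rw [hxl]
        _ ≤ 2 * C * (16 * C * U) + 2 * C * U := by
            have := mul_le_mul_of_nonneg_left hUl (show 0 ≤ 2 * C by positivity)
            linarith
        _ = _ := by ring
    calc (q : ℝ) * l1 (PP r j) ≤ Real.exp (2 * U) * Real.exp (C * b * l') := by
          apply mul_le_mul h1 hnorm _ (Real.exp_pos _).le
          unfold l1
          positivity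
      _ = Real.exp (2 * U + C * b * l') := by rw [Real.exp_add]
      _ ≤ Real.exp (C₃ * U) := by
          apply Real.exp_le_exp.2
          rw [hC₃]
          linarith
  have hsmall : (q : ℝ) * l1 (PP r j) * (Real.exp (-(C₀ * U)) + Real.exp (-(κ * s))) <
      1 / (8 * (N' : ℝ)) := by
    have h1 : Real.exp (C₃ * U) * Real.exp (-(C₀ * U)) ≤ Real.exp (-(5 * l)) := by
      rw [← Real.exp_add]
      apply Real.exp_le_exp.2
      have h2 : 5 * U ≤ (C₀ - C₃) * U := mul_le_mul_of_nonneg_right (by linarith) hU0.le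
      linarith
    have h3 : Real.exp (C₃ * U) * Real.exp (-(κ * s)) ≤ Real.exp (-(5 * l)) := by
      rw [← Real.exp_add]
      apply Real.exp_le_exp.2
      have h4 : 2 * C₃ ≤ C₀ * κ := by
        rw [div_le_iff₀ hκ] at G3
        exact G3
      have h5 : 2 * C₃ * U ≤ C₀ * κ * U := mul_le_mul_of_nonneg_right h4 hU0.le
      have h6 : κ * (C₀ * U) ≤ κ * s := mul_le_mul_of_nonneg_left hUs hκ.le
      linarith
    have h7 : Real.exp (-(5 * l)) = 1 / (N : ℝ) ^ 5 := by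
      rw [Real.exp_neg, hl, ← Real.log_rpow hN0, Real.exp_log (by positivity), one_div]
      norm_cast
    calc (q : ℝ) * l1 (PP r j) * (Real.exp (-(C₀ * U)) + Real.exp (-(κ * s)))
        ≤ Real.exp (C₃ * U) * (Real.exp (-(C₀ * U)) + Real.exp (-(κ * s))) :=
          mul_le_mul_of_nonneg_right hql1 (by positivity)
      _ = Real.exp (C₃ * U) * Real.exp (-(C₀ * U)) + Real.exp (C₃ * U) * Real.exp (-(κ * s)) := by
          ring
      _ ≤ Real.exp (-(5 * l)) + Real.exp (-(5 * l)) := add_le_add h1 h3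
      _ = 2 / (N : ℝ) ^ 5 := by rw [h7]; ring
      _ < 1 / (16 * N) := by
          rw [div_lt_div_iff₀ (by positivity) (by positivity)]
          have h8 : (16 : ℝ) ^ 4 ≤ (N : ℝ) ^ 4 := pow_le_pow_left₀ (by norm_num) hN16 4
          calc 2 * (16 * (N : ℝ)) = 32 * N := by ring
            _ < (16 : ℝ) ^ 4 * N := mul_lt_mul_of_pos_right (by norm_num) hN0
            _ ≤ (N : ℝ) ^ 4 * N := mul_le_mul_of_nonneg_right h8 hN0.le
            _ = 1 * (N : ℝ) ^ 5 := by ring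
      _ ≤ 1 / (8 * (N' : ℝ)) := by
          apply one_div_le_one_div_of_le (by positivity)
          linarith
  by_contra hcon
  push Not at hcon
  have hN'1 : 1 ≤ N' := by
    have : (1 : ℝ) ≤ N' := by linarith
    exact_mod_cast this
  refine contra N' q hN'1 hq r j (fun x => (cexp (PRT.phi k 1 (x : ℂ))).re)
    (fun x => (PRT.pc ⌊x⌋₊ : ℝ) ^ ((1 : ℝ) / k)) T hdeg (Real.exp (-(C₀ * U))) (Real.exp (-(κ * s)))
    ?_ ?_ hsmall hlow hupp
  · intro i hi
    obtain ⟨h1, h2⟩ := hpt i hi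
    have h3 : (N' : ℝ) + 2 * i = ((N' + 2 * i : ℕ) : ℝ) := by push_cast; ring
    have h4 := hroot (N' + 2 * i) h1
    have h5 : (-1 : ℂ) ^ (N' + 2 * i) = 1 := by
      rw [pow_add, hev, pow_mul]
      simp
    rw [h5] at h4
    simp only [h3, Nat.floor_natCast]
    have h6 := (Complex.abs_re_le_norm _).trans h4
    rw [Complex.sub_re, Complex.ofReal_re] at h6
    have h7 : s ≤ Real.sqrt ((N' + 2 * i : ℕ) : ℝ) := by
      rw [hs]
      exact Real.sqrt_le_sqrt (by exact_mod_cast h1)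
    refine le_trans ?_ (le_trans h6 (Real.exp_le_exp.2 ?_))
    · rw [Complex.ofReal_natCast]
    · have := mul_le_mul_of_nonneg_left h7 hκ.le
      linarith
  · intro i hi
    obtain ⟨h1, h2⟩ := hpt i hi
    have h3 : (N' : ℝ) + 2 * i = ((N' + 2 * i : ℕ) : ℝ) := by push_cast; ring
    obtain ⟨a, ha⟩ := hcon (N' + 2 * i) h1 h2
    refine ⟨a, ?_⟩
    simp only [h3, Nat.floor_natCast]
    exact ha

/-- the core range of `H` -/
theorem fin_core {k : ℕ} (hk : 2 ≤ k) : ∃ C₀ : ℝ, 1 ≤ C₀ ∧ ∃ N₀ : ℕ, ∀ N : ℕ, N₀ ≤ N → 1 ≤ Real.log N ∧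
    ∀ H : ℝ, C₀ * Real.sqrt N * Real.log N ^ 2 ≤ H → C₀ * H * Real.log N ^ 2 ≤ N →
    ∀ T : Polynomial ℝ, C₀ * T.natDegree * Real.log N ≤ Real.sqrt N → ∀ q : ℕ, 1 ≤ q →
      Real.log q ≤ 2 * (N / H * Real.log N ^ 2) →
    ∃ n : ℕ, N ≤ n ∧ (n : ℝ) ≤ N + H ∧ ∀ a : ℤ, Real.exp (-(C₀ * (N / H * Real.log N ^ 2))) <
      |(PRT.pc n : ℝ) ^ ((1 : ℝ) / k) - T.eval (n : ℝ) - (a : ℝ) / q| := by
  obtain ⟨C, hC, hexo⟩ := exists_op hk
  have hroot := PRT.root_asymp hk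
  have hCst : 0 < PRT.Cst := by
    unfold PRT.Cst
    positivity
  set κ : ℝ := 0.004 * PRT.Cst with hκ
  have hκ0 : 0 < κ := by positivity
  obtain ⟨N₁, hN₁⟩ := eventually_atTop.1 hexo
  obtain ⟨N₂, hN₂⟩ := eventually_atTop.1 hroot
  have hsq : Tendsto (fun N : ℕ => Real.sqrt (N : ℝ)) atTop atTop :=
    Real.tendsto_sqrt_atTop.comp tendsto_natCast_atTop_atTop
  have hlg : Tendsto (fun N : ℕ => Real.log (N : ℝ)) atTop atTop :=
    Real.tendsto_log_atTop.comp tendsto_natCast_atTop_atTop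
  have hsmall : ∀ᶠ N : ℕ in atTop, 10 * Real.log (N : ℝ) ≤ κ * Real.sqrt N := by
    have h1 := (isLittleO_log_rpow_atTop (r := 1 / 2) (by norm_num)).bound
      (show (0 : ℝ) < κ / 10 by positivity)
    have h2 := tendsto_natCast_atTop_atTop (R := ℝ) |>.eventually h1
    filter_upwards [h2, hlg.eventually_ge_atTop 0] with N hN hN0
    rw [Real.norm_of_nonneg hN0, Real.norm_of_nonneg (by positivity), ← Real.sqrt_eq_rpow] at hN
    linarith
  obtain ⟨N₃, hN₃⟩ := eventually_atTop.1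
    ((hsmall.and (hsq.eventually_ge_atTop 4)).and (hlg.eventually_ge_atTop 1))
  set C₃ : ℝ := 2 + 2 * C * (16 * C) + 2 * C with hC₃
  have hC₃0 : 0 < C₃ := by positivity
  have hp : 0 < 2 * C₃ / κ := by positivity
  refine ⟨16 * C + (C₃ + 5) + 2 * C₃ / κ, by linarith, max N₁ (max N₂ N₃), fun N hN => ?_⟩
  have n1 : N₁ ≤ N := le_trans (le_max_left _ _) hN
  have n2 : N₂ ≤ N := le_trans (le_trans (le_max_left _ _) (le_max_right _ _)) hN
  have n3 : N₃ ≤ N := le_trans (le_trans (le_max_right _ _) (le_max_right _ _)) hN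
  obtain ⟨⟨e1, e2⟩, e3⟩ := hN₃ N n3
  refine ⟨e3, fun H h1 h2 T hT q hq hq' => ?_⟩
  have hrt : ∀ n : ℕ, N ≤ n →
      ‖cexp (PRT.phi k ((-1) ^ n) n) - (((PRT.pc n : ℝ) ^ ((1 : ℝ) / k) : ℝ) : ℂ)‖
      ≤ Real.exp (-(κ * Real.sqrt n)) := fun n hn => hN₂ n (le_trans n2 hn)
  rcases Nat.even_or_odd N with hE | hO
  · exact fin_one (N' := N) hC hκ0 le_rfl (by omega) hE.neg_one_pow (hN₁ N n1) hrt rfl rfl e2 e3 e1
      (by linarith) (by linarith) (by linarith) H h1 h2 T hT q hq hq'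
  · exact fin_one (N' := N + 1) hC hκ0 (by omega) le_rfl hO.add_one.neg_one_pow
      (hN₁ (N + 1) (by omega)) hrt rfl rfl e2 e3 e1
      (by linarith) (by linarith) (by linarith) H h1 h2 T hT q hq hq'

/-- FIN. All `H ≤ N`. -/
theorem main {k : ℕ} (hk : 2 ≤ k) : ∃ C : ℝ, 0 < C ∧ ∃ N₀ : ℕ, ∀ N : ℕ, N₀ ≤ N →
    ∀ H : ℝ, C * Real.sqrt N * Real.log N ^ 2 ≤ H → H ≤ N →
    ∀ T : Polynomial ℝ, C * T.natDegree * Real.log N ≤ Real.sqrt N → ∀ q : ℕ, 1 ≤ q →
      Real.log q ≤ N / H * Real.log N ^ 2 + Real.log N ^ 4 →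
    ∃ n : ℕ, N ≤ n ∧ (n : ℝ) ≤ N + H ∧ ∀ a : ℤ,
      Real.exp (-(C * (N / H * Real.log N ^ 2 + Real.log N ^ 4))) <
        |(PRT.pc n : ℝ) ^ ((1 : ℝ) / k) - T.eval (n : ℝ) - (a : ℝ) / q| := by
  obtain ⟨C₀, hC₀, N₀, h⟩ := fin_core hk
  have hC00 : 0 < C₀ := by linarith
  have hbig : ∀ᶠ N : ℕ in atTop, C₀ ^ 2 * Real.log (N : ℝ) ^ 4 ≤ Real.sqrt N := by
    have h1 := (isLittleO_log_rpow_rpow_atTop 4 (s := 1 / 2) (by norm_num)).bound
      (show (0 : ℝ) < 1 / C₀ ^ 2 by positivity)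
    have h2 := tendsto_natCast_atTop_atTop (R := ℝ) |>.eventually h1
    filter_upwards [h2] with N hN
    have h3 : (0 : ℝ) ≤ Real.log (N : ℝ) := Real.log_natCast_nonneg _
    rw [Real.norm_of_nonneg (by positivity), Real.norm_of_nonneg (by positivity),
      ← Real.sqrt_eq_rpow] at hN
    have h4 : Real.log (N : ℝ) ^ (4 : ℝ) = Real.log (N : ℝ) ^ 4 := by norm_cast
    rw [h4] at hN
    calc C₀ ^ 2 * Real.log (N : ℝ) ^ 4 ≤ C₀ ^ 2 * (1 / C₀ ^ 2 * Real.sqrt N) :=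
          mul_le_mul_of_nonneg_left hN (by positivity)
      _ = Real.sqrt N := by field_simp
  obtain ⟨N₁, hN₁⟩ := eventually_atTop.1 hbig
  refine ⟨C₀ ^ 2, by positivity, max (max N₀ N₁) 1, fun N hN H h1 h2 T hT q hq hq' => ?_⟩
  obtain ⟨hl, hcore⟩ := h N (le_trans (le_trans (le_max_left _ _) (le_max_left _ _)) hN)
  have hb := hN₁ N (le_trans (le_trans (le_max_right _ _) (le_max_left _ _)) hN)
  have hNpos : 1 ≤ N := le_trans (le_max_right _ _) hN
  have hN0 : (0 : ℝ) < N := by exact_mod_cast hNpos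
  set s := Real.sqrt (N : ℝ) with hs
  set l := Real.log (N : ℝ) with hldef
  have hl0 : 0 < l := by linarith
  have hsN : s * s = (N : ℝ) := Real.mul_self_sqrt (Nat.cast_nonneg _)
  have hs0 : 0 < s := Real.sqrt_pos.2 hN0
  have hCC : C₀ ≤ C₀ ^ 2 := le_self_pow₀ hC₀ (by norm_num)
  have hH0 : 0 < H := lt_of_lt_of_le (by positivity) h1
  have hT' : C₀ * T.natDegree * l ≤ s := by
    refine le_trans ?_ hT
    apply mul_le_mul_of_nonneg_right _ hl0.le
    exact mul_le_mul_of_nonneg_right hCC (Nat.cast_nonneg _)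
  have hl2 : 0 < l ^ 2 := by positivity
  by_cases hcase : C₀ * H * l ^ 2 ≤ N
  · -- core range
    have h3 : l ^ 4 ≤ N / H * l ^ 2 := by
      have h4 : l ^ 2 ≤ N / H := by
        rw [le_div_iff₀ hH0]
        calc l ^ 2 * H = 1 * (H * l ^ 2) := by ring
          _ ≤ C₀ * (H * l ^ 2) := mul_le_mul_of_nonneg_right hC₀ (by positivity)
          _ = C₀ * H * l ^ 2 := by ring
          _ ≤ N := hcase
      calc l ^ 4 = l ^ 2 * l ^ 2 := by ring
        _ ≤ N / H * l ^ 2 := mul_le_mul_of_nonneg_right h4 hl2.le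
    have h5 : C₀ * s * l ^ 2 ≤ H := by
      refine le_trans ?_ h1
      apply mul_le_mul_of_nonneg_right _ hl2.le
      exact mul_le_mul_of_nonneg_right hCC hs0.le
    obtain ⟨n, n1, n2, n3⟩ := hcore H h5 hcase T hT' q hq (by linarith)
    refine ⟨n, n1, n2, fun a => lt_of_le_of_lt (Real.exp_le_exp.2 ?_) (n3 a)⟩
    have h6 : C₀ * (N / H * l ^ 2) ≤ C₀ ^ 2 * (N / H * l ^ 2 + l ^ 4) := by
      apply mul_le_mul hCC _ (by positivity) (by positivity)
      have : 0 ≤ l ^ 4 := by positivity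
      linarith
    linarith
  · -- large `H`
    rw [not_le] at hcase
    set H' : ℝ := N / (C₀ * l ^ 2) with hH'
    have hH'0 : 0 < H' := by positivity
    have hH'H : H' ≤ H := by
      rw [hH', div_le_iff₀ (by positivity)]
      linarith
    have h3 : C₀ * s * l ^ 2 ≤ H' := by
      rw [hH', le_div_iff₀ (by positivity)]
      calc C₀ * s * l ^ 2 * (C₀ * l ^ 2) = (C₀ ^ 2 * l ^ 4) * s := by ring
        _ ≤ s * s := mul_le_mul_of_nonneg_right hb hs0.le
        _ = N := hsN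
    have h4 : C₀ * H' * l ^ 2 = N := by
      rw [hH']
      field_simp
    have h5 : N / H' = C₀ * l ^ 2 := by
      rw [hH']
      field_simp
    have h6 : N / H * l ^ 2 ≤ C₀ * l ^ 4 := by
      have h7 : N / H ≤ C₀ * l ^ 2 := by
        rw [div_le_iff₀ hH0]
        linarith
      calc N / H * l ^ 2 ≤ C₀ * l ^ 2 * l ^ 2 := mul_le_mul_of_nonneg_right h7 hl2.le
        _ = C₀ * l ^ 4 := by ring
    have h8 : 1 * l ^ 4 ≤ C₀ * l ^ 4 := mul_le_mul_of_nonneg_right hC₀ (by positivity)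
    obtain ⟨n, n1, n2, n3⟩ := hcore H' h3 h4.le T hT' q hq (by
      rw [h5]
      calc Real.log q ≤ N / H * l ^ 2 + l ^ 4 := hq'
        _ ≤ 2 * (C₀ * l ^ 4) := by linarith
        _ = 2 * (C₀ * l ^ 2 * l ^ 2) := by ring)
    refine ⟨n, n1, by linarith, fun a => lt_of_le_of_lt (Real.exp_le_exp.2 ?_) (n3 a)⟩
    rw [h5]
    have h9 : 0 ≤ C₀ ^ 2 * (N / H * l ^ 2) := by positivity
    have h10 : C₀ * (C₀ * l ^ 2 * l ^ 2) = C₀ ^ 2 * l ^ 4 := by ring
    rw [h10]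
    linarith

end QPL
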