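import Pool.Agent.QPL.RAT
import Pool.Agent.QPL.CHN

set_option autoImplicit false

namespace QPL

open Complex Metric Filter

/-- FOP. Finite differences of `Re exp φ` (for one `N`). `chain` with `f i x = (gm φ i x).re`, `a = N`,
`b = N + ϱN/4`, `σ = sig c N`, `ratio` for the ratios. (derivatives: `gm_hasDerivAt`) `f 0 x = (cexp (φ x)).re`. -/
theorem diff_chain {c ϵ ϱ : ℝ} {N : ℕ} {φ : ℂ → ℂ} (hc : 0 < c) (hϵ : 0 < ϵ) (hϵ' : ϵ ≤ 1 / 100)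
    (hϱ : 0 < ϱ) (hN : 1 ≤ N) (h : PRT.PhiGood c ϵ ϱ N φ)
    (hreal : ∀ x : ℝ, |x - N| < ϱ * N → (φ (x : ℂ)).im = 0)
    (hs : ℕ → ℝ) (hh : ∀ i, 0 < hs i) (j : ℕ) (hj : (j : ℝ) + 3 ≤ c * ϱ / 32 * Real.sqrt N)
    (hsum : ∑ i ∈ Finset.range (j + 1), hs i ≤ ϱ * N / 4) :
    0 < Dop hs j (fun x => (cexp (φ (x : ℂ))).re) N ∧
    PRT.sig c N / 4 * hs j * Dop hs j (fun x => (cexp (φ (x : ℂ))).re) N ≤
      Dop hs (j + 1) (fun x => (cexp (φ (x : ℂ))).re) N ∧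
    Dop hs (j + 1) (fun x => (cexp (φ (x : ℂ))).re) N ≤
      (Real.exp (4 * PRT.sig c N * hs j) - 1) * Dop hs j (fun x => (cexp (φ (x : ℂ))).re) N := by
  have hN0 : (0 : ℝ) < N := by exact_mod_cast hN
  have hϱN : 0 < ϱ * N := by positivity
  have hσ : 0 < PRT.sig c N := by
    unfold PRT.sig
    have : 0 < Real.sqrt N := Real.sqrt_pos.2 hN0
    positivity
  have hx : ∀ x ∈ Set.Icc (N : ℝ) (N + ϱ * N / 4), |x - N| ≤ ϱ * N / 4 := by
    intro x hx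
    rw [abs_of_nonneg (by linarith [hx.1])]
    linarith [hx.2]
  have h0 : (fun x : ℝ => (cexp (φ (x : ℂ))).re) = fun x : ℝ => (gm φ 0 x).re := by
    funext x
    simp [gm, iteratedDeriv_zero]
  rw [h0]
  have key := chain (a := (N : ℝ)) (b := (N : ℝ) + ϱ * N / 4) hσ (J := j + 1)
    (fun i x => (gm φ i x).re) ?_ ?_ hs hh j le_rfl (N : ℝ) le_rfl (by linarith)
  · exact key
  · intro i hi x hxI
    have h1 := hx x hxI
    exact gm_hasDerivAt h.diff i x (by linarith)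
  · intro i hi x hxI
    have h1 := hx x hxI
    have h2 : (i : ℝ) + 1 ≤ c * ϱ / 32 * Real.sqrt N := by
      have : (i : ℝ) ≤ j + 1 := by exact_mod_cast hi
      linarith
    obtain ⟨_, q2, q3, q4⟩ := ratio hc hϵ hϵ' hϱ hN h hreal i h2 x h1
    exact ⟨q2, q3, q4⟩

end QPL
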