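import Pool.Agent.QPL.CIR

set_option autoImplicit false

namespace QPL

open Complex Metric

private theorem gau_stirling {m : ℕ} (hm : 1 ≤ m) :
    (m.factorial : ℝ) * Real.exp m ≤ Real.exp 1 * Real.sqrt m * (m : ℝ) ^ m := by
  obtain ⟨k, rfl⟩ : ∃ k, m = k + 1 := ⟨m - 1, by omega⟩
  have h1 := Stirling.stirlingSeq'_antitone (Nat.zero_le k)
  simp only [Function.comp, Nat.succ_eq_add_one, zero_add] at h1
  rw [Stirling.stirlingSeq_one] at h1
  unfold Stirling.stirlingSeq at h1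
  set n : ℕ := k + 1 with hn
  have hn0 : (0 : ℝ) < n := by positivity
  have h2 : (0 : ℝ) < Real.sqrt (2 * n) * (n / Real.exp 1) ^ n := by positivity
  rw [div_le_iff₀ h2] at h1
  have h3 : Real.exp (n : ℝ) = Real.exp 1 ^ n := by
    rw [← Real.exp_nat_mul, mul_one]
  have h4 : (0 : ℝ) < Real.exp 1 ^ n := by positivity
  have hs : Real.sqrt (2 * n) = Real.sqrt 2 * Real.sqrt n := Real.sqrt_mul (by norm_num) _
  have hs2 : Real.sqrt 2 ≠ 0 := by positivity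
  rw [h3]
  calc (n.factorial : ℝ) * Real.exp 1 ^ n
      ≤ (Real.exp 1 / Real.sqrt 2 * (Real.sqrt (2 * n) * (n / Real.exp 1) ^ n)) *
        Real.exp 1 ^ n := mul_le_mul_of_nonneg_right h1 h4.le
    _ = Real.exp 1 * Real.sqrt n * (n : ℝ) ^ n := by
        rw [hs, div_pow]
        field_simp

private theorem gau_exp_inv : Real.exp (-1) ≤ 0.3679 := by
  rw [Real.exp_neg]
  have h := Real.exp_one_gt_d9
  rw [inv_le_comm₀ (Real.exp_pos _) (by norm_num)]
  linarith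

/-- `u² + u ≤ 6.1 e^{u²/10}` -/
private theorem gau_poly (u : ℝ) : u ^ 2 + u ≤ 6.1 * Real.exp (0.1 * u ^ 2) := by
  have h1 := Real.add_one_le_exp (0.1 * u ^ 2 - 1)
  rw [sub_add_cancel, sub_eq_add_neg, Real.exp_add] at h1
  have h2 := gau_exp_inv
  have h3 : 1 ≤ Real.exp (0.1 * u ^ 2) := Real.one_le_exp (by positivity)
  nlinarith [sq_nonneg (u - 1), mul_le_mul_of_nonneg_left h2 (zero_le_one.trans h3)]

private theorem gau_expsub (z : ℂ) : ‖cexp z - 1‖ ≤ ‖z‖ * Real.exp ‖z‖ := by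
  have h := Complex.norm_exp_sub_sum_le_norm_mul_exp z 1
  simpa using h

private theorem gau_exp04 : Real.exp 0.04 ≤ 1.042 := by
  have h1 := Real.add_one_le_exp (-0.04)
  rw [Real.exp_neg] at h1
  have h2 := Real.exp_pos 0.04
  have h3 : (0.96 : ℝ) ≤ (Real.exp 0.04)⁻¹ := by linarith
  rw [le_inv_comm₀ (by norm_num) h2] at h3
  refine h3.trans (by norm_num)

private theorem gau_pointwise {m : ℕ} (hm : 1 ≤ m) {ϵ : ℝ} (hϵ : 0 ≤ ϵ) (hϵ' : ϵ ≤ 1 / 100)
    {E : ℝ → ℂ} (hE : ∀ θ : ℝ, |θ| ≤ Real.pi → ‖E θ‖ ≤ ϵ * (m * θ ^ 2 + |θ|)) {θ : ℝ}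
    (hθ : |θ| ≤ Real.pi) :
    ‖cexp ((m : ℂ) * cexp (θ * I) - (m : ℂ) * (θ * I)) * (cexp (E θ) - 1)‖ ≤
      Real.exp m * (6.1 * 1.042 * ϵ) * Real.exp (-(0.09 * m) * θ ^ 2) := by
  have hm1 : (1 : ℝ) ≤ m := by exact_mod_cast hm
  have hm0 : (0 : ℝ) < m := zero_lt_one.trans_le hm1
  have h1 : ‖cexp ((m : ℂ) * cexp (θ * I) - (m : ℂ) * (θ * I))‖ = Real.exp (m * Real.cos θ) := by
    rw [Complex.norm_exp]
    congr 1
    have h0 : (cexp (θ * I)).re = Real.cos θ := by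
      rw [Complex.exp_mul_I, ← Complex.ofReal_cos, ← Complex.ofReal_sin]
      simp [-Complex.ofReal_cos, -Complex.ofReal_sin]
    simp [h0]
  have h2 := Real.cos_le_one_sub_mul_cos_sq hθ
  have hpi : Real.pi ^ 2 ≤ 10 := by
    have := Real.pi_lt_d4
    have h0 := Real.pi_pos
    nlinarith
  have hpi2 : (0.2 : ℝ) ≤ 2 / Real.pi ^ 2 := by
    rw [le_div_iff₀ (by positivity)]
    linarith
  have h3 : (m : ℝ) * Real.cos θ ≤ m - 0.2 * m * θ ^ 2 := by
    have : Real.cos θ ≤ 1 - 0.2 * θ ^ 2 := by nlinarith [sq_nonneg θ]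
    nlinarith
  set x := ‖E θ‖ with hx
  have hx0 : 0 ≤ x := norm_nonneg _
  have h4 : x ≤ ϵ * (m * θ ^ 2 + |θ|) := hE θ hθ
  have ha : 0 ≤ |θ| := abs_nonneg θ
  have hpi3 : Real.pi ≤ 3.1416 := Real.pi_lt_d4.le
  have h5 : x ≤ 0.01 * (m * θ ^ 2) + 0.04 := by
    have h6 : 0 ≤ m * θ ^ 2 + |θ| := by positivity
    nlinarith
  -- the polynomial part
  set u := Real.sqrt m * |θ| with hu
  have hu2 : u ^ 2 = m * θ ^ 2 := by
    rw [hu, mul_pow, Real.sq_sqrt hm0.le, sq_abs]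
  have hu1 : |θ| ≤ u := by
    have : 1 ≤ Real.sqrt m := Real.one_le_sqrt.2 hm1
    nlinarith
  have h7 : m * θ ^ 2 + |θ| ≤ 6.1 * Real.exp (0.1 * (m * θ ^ 2)) := by
    have := gau_poly u
    rw [hu2] at this
    linarith
  rw [norm_mul, h1]
  have h8 : ‖cexp (E θ) - 1‖ ≤ ϵ * (6.1 * Real.exp (0.1 * (m * θ ^ 2))) *
      (Real.exp (0.01 * (m * θ ^ 2)) * 1.042) := by
    refine (gau_expsub _).trans ?_
    refine mul_le_mul (h4.trans (mul_le_mul_of_nonneg_left h7 hϵ)) ?_ (Real.exp_pos _).le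
      (by positivity)
    refine (Real.exp_le_exp.2 h5).trans ?_
    rw [Real.exp_add]
    exact mul_le_mul_of_nonneg_left gau_exp04 (Real.exp_pos _).le
  have h9 : Real.exp (m * Real.cos θ) ≤ Real.exp m * Real.exp (-(0.2 * (m * θ ^ 2))) := by
    rw [← Real.exp_add]
    refine Real.exp_le_exp.2 (h3.trans (le_of_eq ?_))
    ring
  refine (mul_le_mul h9 h8 (norm_nonneg _) (by positivity)).trans (le_of_eq ?_)
  have h10 : Real.exp (-(0.09 * m) * θ ^ 2) = Real.exp (-(0.2 * (m * θ ^ 2))) *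
      (Real.exp (0.1 * (m * θ ^ 2)) * Real.exp (0.01 * (m * θ ^ 2))) := by
    rw [← Real.exp_add, ← Real.exp_add]
    congr 1
    ring
  rw [h10]
  ring

/-- GAU. `cI m E - 1 = cI`-prefactor times `∫ exp (m e^{iθ} - imθ) (exp E - 1)` by `cI_zero`.
`|exp (m e^{iθ} - imθ)| = e^{m cos θ} ≤ e^{m - (2/π²) m θ²}` (`cos θ ≤ 1 - 2θ²/π²` for `|θ| ≤ π`),
`|e^E - 1| ≤ |E| e^{|E|} ≤ ϵ (mθ²+|θ|) e^{ϵ m θ² + ϵ π}`; with `2/π² - ϵ ≥ 0.19` the integral is at most
`e^m ϵ e^{0.04} ∫ (mθ²+|θ|) e^{-0.19 m θ²} dθ ≤ e^m ϵ · 17/√m` (Gaussian integrals over `ℝ`), and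
`m! e^m / (m^m 2π) ≤ (e/2π) √m` (Stirling: `Stirling.stirlingSeq'_antitone`). Total `≤ 8 ϵ ≤ 1/4`.
Any sloppier computation that gives `≤ 25 ϵ` is enough. -/
theorem cI_near {m : ℕ} (hm : 1 ≤ m) {ϵ : ℝ} (hϵ : 0 ≤ ϵ) (hϵ' : ϵ ≤ 1 / 100) {E : ℝ → ℂ}
    (hc : Continuous E) (hE : ∀ θ : ℝ, |θ| ≤ Real.pi → ‖E θ‖ ≤ ϵ * (m * θ ^ 2 + |θ|)) :
    ‖cI m E - 1‖ ≤ 1 / 4 := by
  have hm1 : (1 : ℝ) ≤ m := by exact_mod_cast hm
  have hm0 : (0 : ℝ) < m := zero_lt_one.trans_le hm1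
  have hpi0 := Real.pi_pos
  have hle : -Real.pi ≤ Real.pi := by linarith
  set p : ℝ := (m.factorial : ℝ) / ((m : ℝ) ^ m * (2 * Real.pi)) with hp
  have hp0 : 0 ≤ p := by positivity
  set K : ℝ → ℂ := fun θ => cexp ((m : ℂ) * cexp (θ * I) - (m : ℂ) * (θ * I)) with hK
  have hKc : Continuous K := by
    rw [hK]
    fun_prop
  have h1 : cI m E - 1 = (p : ℂ) * ∫ θ : ℝ in (-Real.pi)..Real.pi, K θ * (cexp (E θ) - 1) := by
    have h0 : cI m E - 1 = cI m E - cI m (fun _ => 0) := by rw [cI_zero hm]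
    rw [h0]
    unfold cI
    rw [← mul_sub, ← intervalIntegral.integral_sub]
    · congr 1
      apply intervalIntegral.integral_congr
      intro θ _
      simp only [Complex.exp_zero]
      rw [hK]
      ring
    · exact (hKc.mul hc.cexp).intervalIntegrable _ _
    · exact (hKc.mul continuous_const).intervalIntegrable _ _
  have hb : (0 : ℝ) < 0.09 * m := by positivity
  have hint := integrable_exp_neg_mul_sq hb
  set c : ℝ := Real.exp m * (6.1 * 1.042 * ϵ) with hcdef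
  have hc0 : 0 ≤ c := by positivity
  have h2 : ‖∫ θ : ℝ in (-Real.pi)..Real.pi, K θ * (cexp (E θ) - 1)‖ ≤
      ∫ θ : ℝ in (-Real.pi)..Real.pi, c * Real.exp (-(0.09 * m) * θ ^ 2) := by
    refine intervalIntegral.norm_integral_le_of_norm_le hle (Filter.Eventually.of_forall ?_) ?_
    · intro θ hθ
      refine gau_pointwise hm hϵ hϵ' hE (abs_le.2 ⟨hθ.1.le, hθ.2⟩)
    · exact (hint.const_mul c).intervalIntegrable
  have h3 : ∫ θ : ℝ in (-Real.pi)..Real.pi, c * Real.exp (-(0.09 * m) * θ ^ 2) ≤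
      c * Real.sqrt (Real.pi / (0.09 * m)) := by
    rw [intervalIntegral.integral_const_mul]
    refine mul_le_mul_of_nonneg_left ?_ hc0
    rw [intervalIntegral.integral_of_le hle, ← integral_gaussian]
    exact MeasureTheory.setIntegral_le_integral hint
      (Filter.Eventually.of_forall (fun θ => (Real.exp_pos _).le))
  rw [h1, norm_mul, Complex.norm_real, Real.norm_of_nonneg hp0]
  have h4 : p * ‖∫ θ : ℝ in (-Real.pi)..Real.pi, K θ * (cexp (E θ) - 1)‖ ≤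
      p * (c * Real.sqrt (Real.pi / (0.09 * m))) := mul_le_mul_of_nonneg_left (h2.trans h3) hp0
  refine h4.trans ?_
  -- numbers
  have h5 : p * Real.exp m ≤ Real.exp 1 * Real.sqrt m / (2 * Real.pi) := by
    have h6 := gau_stirling hm
    have hmm : (0 : ℝ) < (m : ℝ) ^ m := by positivity
    rw [hp, div_mul_eq_mul_div, div_le_div_iff₀ (by positivity) (by positivity)]
    nlinarith [mul_le_mul_of_nonneg_right h6 (by positivity : (0 : ℝ) ≤ 2 * Real.pi)]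
  have h6 : Real.sqrt (Real.pi / (0.09 * m)) = Real.sqrt (Real.pi / 0.09) / Real.sqrt m := by
    rw [← Real.sqrt_div (by positivity), div_div]
  have hsm : 0 < Real.sqrt m := Real.sqrt_pos.2 hm0
  have h7 : Real.sqrt (Real.pi / 0.09) ≤ 5.91 := by
    rw [Real.sqrt_le_left (by norm_num), div_le_iff₀ (by norm_num)]
    have := Real.pi_lt_d4
    norm_num
    linarith
  have h8 : p * (c * Real.sqrt (Real.pi / (0.09 * m))) =
      (p * Real.exp m) * ((6.1 * 1.042 * ϵ) * (Real.sqrt (Real.pi / 0.09) / Real.sqrt m)) := by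
    rw [h6, hcdef]
    ring
  rw [h8]
  calc (p * Real.exp m) * ((6.1 * 1.042 * ϵ) * (Real.sqrt (Real.pi / 0.09) / Real.sqrt m))
      ≤ (Real.exp 1 * Real.sqrt m / (2 * Real.pi)) *
        ((6.1 * 1.042 * ϵ) * (5.91 / Real.sqrt m)) := by
        refine mul_le_mul h5 ?_ (by positivity) (by positivity)
        refine mul_le_mul_of_nonneg_left ?_ (by positivity)
        exact div_le_div_of_nonneg_right h7 hsm.le
    _ = Real.exp 1 / (2 * Real.pi) * (6.1 * 1.042 * ϵ) * 5.91 := by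
        field_simp
    _ ≤ 2.7183 / (2 * 3.1415) * (6.1 * 1.042 * (1 / 100)) * 5.91 := by
        have he := Real.exp_one_lt_d9
        have hpi := Real.pi_gt_d4
        gcongr
        linarith
    _ ≤ 1 / 4 := by norm_num

end QPL
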