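import Pool.Agent.QPL.Defs

set_option autoImplicit false

namespace QPL

open Finset

theorem grd_mgf {α : Type*} (S : Finset α) (p : α → ℝ)
    (hp : ∀ a ∈ S, 0 ≤ p a) (hsum : ∑ a ∈ S, p a = 1) (ψ : α → ℝ)
    (hψ : ∀ a ∈ S, |ψ a| ≤ 1) (lam : ℝ) (hl : 0 < lam) (hl' : lam ≤ 1 / 2) :
    ∑ a ∈ S, p a * Real.exp (lam * ((∑ a ∈ S, p a * ψ a) - ψ a)) ≤ Real.exp (4 * lam ^ 2) := by
  set μ := ∑ a ∈ S, p a * ψ a with hμ
  have hμ1 : |μ| ≤ 1 := by
    calc |μ| ≤ ∑ a ∈ S, |p a * ψ a| := Finset.abs_sum_le_sum_abs _ _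
      _ ≤ ∑ a ∈ S, p a := by
        refine Finset.sum_le_sum (fun a ha => ?_)
        rw [abs_mul, abs_of_nonneg (hp a ha)]
        nlinarith [hp a ha, hψ a ha, abs_nonneg (ψ a)]
      _ = 1 := hsum
  have key : ∀ a ∈ S, p a * Real.exp (lam * (μ - ψ a)) ≤
      p a * (1 + 4 * lam ^ 2) + lam * μ * p a - lam * (p a * ψ a) := by
    intro a ha
    have h1 := abs_le.mp hμ1
    have h2 := abs_le.mp (hψ a ha)
    have hd : |μ - ψ a| ≤ 2 := abs_le.mpr ⟨by linarith [h1.1, h2.2], by linarith [h1.2, h2.1]⟩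
    have hu : |lam * (μ - ψ a)| ≤ 1 := by
      rw [abs_mul, abs_of_pos hl]
      nlinarith [abs_nonneg (μ - ψ a)]
    have h3 := (abs_le.mp (Real.abs_exp_sub_one_sub_id_le hu)).2
    have h4 : (lam * (μ - ψ a)) ^ 2 ≤ 4 * lam ^ 2 := by
      have h5 : (μ - ψ a) ^ 2 ≤ 4 := by
        have := sq_le_sq' (abs_le.mp hd).1 (abs_le.mp hd).2
        linarith
      rw [mul_pow]
      nlinarith [sq_nonneg lam]
    have h6 : Real.exp (lam * (μ - ψ a)) ≤ 1 + lam * (μ - ψ a) + 4 * lam ^ 2 := by linarith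
    have h7 := mul_le_mul_of_nonneg_left h6 (hp a ha)
    calc p a * Real.exp (lam * (μ - ψ a)) ≤ p a * (1 + lam * (μ - ψ a) + 4 * lam ^ 2) := h7
      _ = _ := by ring
  calc ∑ a ∈ S, p a * Real.exp (lam * (μ - ψ a))
      ≤ ∑ a ∈ S, (p a * (1 + 4 * lam ^ 2) + lam * μ * p a - lam * (p a * ψ a)) :=
        Finset.sum_le_sum key
    _ = 1 + 4 * lam ^ 2 := by
        rw [Finset.sum_sub_distrib, Finset.sum_add_distrib, ← Finset.sum_mul, ← Finset.mul_sum,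
          ← Finset.mul_sum, hsum, ← hμ]
        ring
    _ ≤ Real.exp (4 * lam ^ 2) := by
        have := Real.add_one_le_exp (4 * lam ^ 2)
        linarith

theorem grd_pot {α ι : Type*} [DecidableEq α] [DecidableEq ι] (S : Finset α) (p : α → ℝ)
    (hp : ∀ a ∈ S, 0 ≤ p a) (hsum : ∑ a ∈ S, p a = 1) (I : Finset ι) (ψ : ι → α → ℝ)
    (hψ : ∀ i ∈ I, ∀ a ∈ S, |ψ i a| ≤ 1) (lam : ℝ) (hl : 0 < lam) (hl' : lam ≤ 1 / 2) (b : ℕ) :
    ∃ ν : ℕ → α, (∀ t, ν t ∈ S) ∧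
      ∑ i ∈ I, Real.exp (lam * ((b : ℝ) * (∑ a ∈ S, p a * ψ i a) - ∑ t ∈ Finset.range b, ψ i (ν t)))
        ≤ I.card * Real.exp (4 * b * lam ^ 2) := by
  have hex : ∃ a ∈ S, 0 < p a := by
    by_contra hcon
    push Not at hcon
    have : ∑ a ∈ S, p a ≤ 0 := Finset.sum_nonpos hcon
    linarith
  induction b with
  | zero =>
    obtain ⟨a, ha, _⟩ := hex
    refine ⟨fun _ => a, fun _ => ha, ?_⟩
    simp
  | succ b ih =>
    obtain ⟨ν, hν, hΦ⟩ := ih
    set w : ι → ℝ := fun i =>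
      Real.exp (lam * ((b : ℝ) * (∑ a ∈ S, p a * ψ i a) - ∑ t ∈ Finset.range b, ψ i (ν t))) with hw
    have hw0 : ∀ i, 0 < w i := fun i => Real.exp_pos _
    set c : ℝ := Real.exp (4 * lam ^ 2) * ∑ i ∈ I, w i with hc
    have hav : ∑ a ∈ S, p a * (∑ i ∈ I, w i * Real.exp (lam * ((∑ a ∈ S, p a * ψ i a) - ψ i a)))
        ≤ c := by
      calc ∑ a ∈ S, p a * (∑ i ∈ I, w i * Real.exp (lam * ((∑ a ∈ S, p a * ψ i a) - ψ i a)))
          = ∑ i ∈ I, w i * ∑ a ∈ S, p a * Real.exp (lam * ((∑ a ∈ S, p a * ψ i a) - ψ i a)) := by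
            simp_rw [Finset.mul_sum]
            rw [Finset.sum_comm]
            refine Finset.sum_congr rfl (fun i _ => Finset.sum_congr rfl (fun a _ => ?_))
            ring
        _ ≤ ∑ i ∈ I, w i * Real.exp (4 * lam ^ 2) := by
            refine Finset.sum_le_sum (fun i hi => ?_)
            exact mul_le_mul_of_nonneg_left
              (grd_mgf S p hp hsum (ψ i) (hψ i hi) lam hl hl') (hw0 i).le
        _ = c := by rw [← Finset.sum_mul, hc, mul_comm]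
    have hch : ∃ a ∈ S, ∑ i ∈ I, w i * Real.exp (lam * ((∑ a ∈ S, p a * ψ i a) - ψ i a)) ≤ c := by
      by_contra hcon
      push Not at hcon
      obtain ⟨a0, ha0, hpa0⟩ := hex
      have : ∑ a ∈ S, p a * c <
          ∑ a ∈ S, p a * (∑ i ∈ I, w i * Real.exp (lam * ((∑ a ∈ S, p a * ψ i a) - ψ i a))) := by
        refine Finset.sum_lt_sum (fun a ha => mul_le_mul_of_nonneg_left (hcon a ha).le (hp a ha))
          ⟨a0, ha0, mul_lt_mul_of_pos_left (hcon a0 ha0) hpa0⟩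
      rw [← Finset.sum_mul, hsum, one_mul] at this
      linarith
    obtain ⟨a, ha, hca⟩ := hch
    refine ⟨fun t => if t < b then ν t else a, fun t => ?_, ?_⟩
    · by_cases h : t < b
      · simp only [h, if_true]; exact hν t
      · simp only [h, if_false]; exact ha
    · have heq : ∀ i ∈ I, Real.exp (lam * (((b + 1 : ℕ) : ℝ) * (∑ a ∈ S, p a * ψ i a) -
          ∑ t ∈ Finset.range (b + 1), ψ i (if t < b then ν t else a))) =
          w i * Real.exp (lam * ((∑ a ∈ S, p a * ψ i a) - ψ i a)) := by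
        intro i _
        rw [hw, ← Real.exp_add, Finset.sum_range_succ]
        have : ∑ t ∈ Finset.range b, ψ i (if t < b then ν t else a) =
            ∑ t ∈ Finset.range b, ψ i (ν t) := by
          refine Finset.sum_congr rfl (fun t ht => ?_)
          rw [if_pos (Finset.mem_range.mp ht)]
        rw [this]
        congr 1
        simp only [lt_irrefl, if_false]
        push_cast
        ring
      rw [Finset.sum_congr rfl heq]
      calc ∑ i ∈ I, w i * Real.exp (lam * ((∑ a ∈ S, p a * ψ i a) - ψ i a)) ≤ c := hca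
        _ ≤ Real.exp (4 * lam ^ 2) * (I.card * Real.exp (4 * b * lam ^ 2)) :=
            mul_le_mul_of_nonneg_left hΦ (Real.exp_pos _).le
        _ = I.card * Real.exp (4 * ((b + 1 : ℕ) : ℝ) * lam ^ 2) := by
            rw [mul_left_comm, ← Real.exp_add]
            congr 2
            push_cast
            ring

/-- GRD. Greedy selection. Potential `Φ_t = ∑_{ι ∈ I} exp (t λ μ_ι - λ ∑_{i<t} ψ_ι (ν i))`, `μ_ι = ∑_a p a ψ_ι a`.
For every `ι`: `∑_a p a exp (λ μ_ι - λ ψ_ι a) ≤ 1 + 4λ² ≤ exp (4λ²)` (`e^u ≤ 1 + u + u²` for `|u| ≤ 1`,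
`u = λ(μ - ψ)`, `|u| ≤ 2λ ≤ 1`, mean zero), so the `p`-average over `a` of the next potential is
`≤ exp (4λ²) Φ_t`, and some `a = ν t` in `S` attains it. At the end `exp (λ (b μ_ι - ∑ ψ)) ≤ |I| exp (4 b λ²)`. -/
theorem greedy {α ι : Type*} [DecidableEq α] [DecidableEq ι] (S : Finset α) (p : α → ℝ)
    (hp : ∀ a ∈ S, 0 ≤ p a) (hsum : ∑ a ∈ S, p a = 1) (I : Finset ι) (ψ : ι → α → ℝ)
    (hψ : ∀ i ∈ I, ∀ a ∈ S, |ψ i a| ≤ 1) (lam : ℝ) (hl : 0 < lam) (hl' : lam ≤ 1 / 2) (b : ℕ) :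
    ∃ ν : ℕ → α, (∀ t, ν t ∈ S) ∧ ∀ i ∈ I,
      (b : ℝ) * (∑ a ∈ S, p a * ψ i a) - ∑ t ∈ Finset.range b, ψ i (ν t) ≤
        Real.log I.card / lam + 4 * b * lam := by
  obtain ⟨ν, hν, hΦ⟩ := grd_pot S p hp hsum I ψ hψ lam hl hl' b
  refine ⟨ν, hν, fun i hi => ?_⟩
  have h1 : Real.exp (lam * ((b : ℝ) * (∑ a ∈ S, p a * ψ i a) - ∑ t ∈ Finset.range b, ψ i (ν t)))
      ≤ I.card * Real.exp (4 * b * lam ^ 2) :=
    (Finset.single_le_sum (f := fun i => Real.exp (lam * ((b : ℝ) * (∑ a ∈ S, p a * ψ i a) -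
      ∑ t ∈ Finset.range b, ψ i (ν t)))) (fun j _ => (Real.exp_pos _).le) hi).trans hΦ
  have hcard : (0 : ℝ) < I.card := by
    have : 0 < I.card := Finset.card_pos.mpr ⟨i, hi⟩
    exact_mod_cast this
  have h2 := Real.log_le_log (Real.exp_pos _) h1
  rw [Real.log_exp, Real.log_mul hcard.ne' (Real.exp_pos _).ne', Real.log_exp] at h2
  have h3 : (b : ℝ) * (∑ a ∈ S, p a * ψ i a) - ∑ t ∈ Finset.range b, ψ i (ν t) ≤
      (Real.log I.card + 4 * b * lam ^ 2) / lam := by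
    rw [le_div_iff₀ hl]
    linarith
  calc (b : ℝ) * (∑ a ∈ S, p a * ψ i a) - ∑ t ∈ Finset.range b, ψ i (ν t)
      ≤ (Real.log I.card + 4 * b * lam ^ 2) / lam := h3
    _ = Real.log I.card / lam + 4 * b * lam := by
        field_simp

end QPL
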