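import Pool.Agent.QPL.Defs

set_option autoImplicit false

namespace QPL

open Complex Metric Finset

private theorem MPA_diff (𝒟 : List ℕ) : Differentiable ℂ (gz 𝒟) := by
  induction 𝒟 with
  | nil =>
    have : gz [] = fun _ => (0 : ℂ) := by
      funext z; simp [gz]
    rw [this]
    exact differentiable_const _
  | cons n l ih =>
    have : gz (n :: l) = fun z => (∑ r ∈ Finset.Icc 1 n, z ^ r) + gz l z := by
      funext z; simp [gz]
    rw [this]
    refine Differentiable.add ?_ ih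
    exact Differentiable.fun_sum fun r _ => differentiable_id.pow r

private theorem MPA_re (𝒟 : List ℕ) (θ : ℝ) : (gz 𝒟 (cexp (θ * I))).re = ZZ 𝒟 θ := by
  induction 𝒟 with
  | nil => simp [gz, ZZ]
  | cons n l ih =>
    have h1 : gz (n :: l) (cexp (θ * I)) =
        (∑ r ∈ Finset.Icc 1 n, (cexp (θ * I)) ^ r) + gz l (cexp (θ * I)) := by simp [gz]
    have h2 : ZZ (n :: l) θ = Dn n θ + ZZ l θ := by simp [ZZ]
    rw [h1, h2, Complex.add_re, ih, Complex.re_sum]
    congr 1
    unfold Dn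
    refine Finset.sum_congr rfl fun r _ => ?_
    rw [← Complex.exp_nat_mul]
    have h3 : (r : ℂ) * ((θ : ℂ) * I) = (((r : ℝ) * θ : ℝ) : ℂ) * I := by push_cast; ring
    rw [h3, Complex.exp_ofReal_mul_I_re]

/-- MPA. `Re gz 𝒟 (e^{iθ}) = ZZ 𝒟 θ`; maximum modulus principle for `exp (-gz 𝒟 z)` on the closed unit disc
(`Complex.norm_le_of_forall_mem_frontier_norm_le`). -/
theorem re_lower (𝒟 : List ℕ) (K : ℝ) (hK : ∀ θ : ℝ, -K ≤ ZZ 𝒟 θ) (z : ℂ) (hz : ‖z‖ ≤ 1) :
    -K ≤ (gz 𝒟 z).re := by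
  have hd : DiffContOnCl ℂ (fun z => cexp (-gz 𝒟 z)) (ball (0 : ℂ) 1) :=
    ((MPA_diff 𝒟).neg.cexp).diffContOnCl
  have hb : ∀ w ∈ frontier (ball (0 : ℂ) 1), ‖cexp (-gz 𝒟 w)‖ ≤ Real.exp K := by
    intro w hw
    rw [frontier_ball (0 : ℂ) one_ne_zero, mem_sphere_zero_iff_norm] at hw
    have hw2 : w = cexp ((Complex.arg w : ℂ) * I) := by
      have := Complex.norm_mul_exp_arg_mul_I w
      rw [hw] at this
      simpa using this.symm
    rw [Complex.norm_exp, Real.exp_le_exp, Complex.neg_re, hw2, MPA_re]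
    linarith [hK (Complex.arg w)]
  have hz' : z ∈ closure (ball (0 : ℂ) 1) := by
    rw [closure_ball (0 : ℂ) one_ne_zero]
    simpa using hz
  have h := Complex.norm_le_of_forall_mem_frontier_norm_le isBounded_ball hd hb hz'
  rw [Complex.norm_exp, Real.exp_le_exp, Complex.neg_re] at h
  linarith

end QPL
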