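import Pool.Agent.QPL.MPA

set_option autoImplicit false

namespace QPL

open Complex Metric Finset

private theorem one_sub_bound (w : ℂ) (hw : ‖w‖ < 1) (L : ℕ) :
    ‖w - 1‖ ≤ Real.exp (-(∑ l ∈ Finset.Icc 1 L, (1 / (l : ℝ)) * (w ^ l).re)
      + ‖w‖ ^ (L + 1) / (1 - ‖w‖)) := by
  have hne : (1 : ℂ) + -w ≠ 0 := by
    intro h
    have : w = 1 := by linear_combination -h
    rw [this] at hw
    simp at hw
  have hnorm : ‖-w‖ < 1 := by rwa [norm_neg]
  have h1 := Complex.norm_log_sub_logTaylor_le L hnorm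
  rw [norm_neg] at h1
  have h2 : (Complex.logTaylor (L + 1) (-w)).re
      = -(∑ l ∈ Finset.Icc 1 L, (1 / (l : ℝ)) * (w ^ l).re) := by
    have e1 : Finset.range (L + 1) = insert 0 (Finset.Icc 1 L) := by
      ext i
      simp only [Finset.mem_range, Finset.mem_insert, Finset.mem_Icc]
      omega
    unfold Complex.logTaylor
    rw [e1, Finset.sum_insert (by simp)]
    simp only [Nat.cast_zero, div_zero, zero_add]
    rw [Complex.re_sum, ← Finset.sum_neg_distrib]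
    apply Finset.sum_congr rfl
    intro l hl
    have e2 : (-1 : ℂ) ^ (l + 1) * (-w) ^ l / (l : ℂ) = ((-(1 / (l : ℝ)) : ℝ) : ℂ) * w ^ l := by
      have e3 : (-1 : ℂ) ^ (l + 1) * (-w) ^ l = -(w ^ l) := by
        rw [pow_succ, neg_pow w l]
        have : ((-1 : ℂ) ^ l) * ((-1 : ℂ) ^ l) = 1 := by
          rw [← mul_pow]; simp
        linear_combination (-(w ^ l)) * this
      rw [e3]
      push_cast
      ring
    rw [e2, Complex.re_ofReal_mul]
    ring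
  have h3 : (Complex.log (1 + -w)).re ≤ -(∑ l ∈ Finset.Icc 1 L, (1 / (l : ℝ)) * (w ^ l).re)
      + ‖w‖ ^ (L + 1) / (1 - ‖w‖) := by
    have h4 : (Complex.log (1 + -w) - Complex.logTaylor (L + 1) (-w)).re
        ≤ ‖w‖ ^ (L + 1) * (1 - ‖w‖)⁻¹ / (L + 1) := (Complex.re_le_norm _).trans h1
    rw [Complex.sub_re, h2] at h4
    have h5 : ‖w‖ ^ (L + 1) * (1 - ‖w‖)⁻¹ / (L + 1) ≤ ‖w‖ ^ (L + 1) / (1 - ‖w‖) := by
      rw [← div_eq_mul_inv]
      apply div_le_self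
      · apply div_nonneg (by positivity)
        linarith
      · have : (0 : ℝ) ≤ L := Nat.cast_nonneg L
        linarith
    linarith
  have h6 : ‖w - 1‖ = Real.exp (Complex.log (1 + -w)).re := by
    rw [← Complex.norm_exp, Complex.exp_log hne, ← norm_neg]
    congr 1
    ring
  rw [h6]
  exact Real.exp_le_exp.2 h3

private theorem blk_bound (n : ℕ) (ρ : ℝ) (hρ0 : 0 < ρ)
    (hρ : ρ < 1) (L : ℕ) (z : ℂ) (hz : ‖z‖ = ρ) :
    ‖((blk n).map (Int.castRingHom ℂ)).eval z‖ ≤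
      Real.exp (-(∑ l ∈ Finset.Icc 1 L, (1 / (l : ℝ)) * (∑ r ∈ Finset.Icc 1 n, (z ^ l) ^ r).re)
        + (n : ℝ) * (ρ ^ (L + 1) / (1 - ρ))) := by
  have e1 : ((blk n).map (Int.castRingHom ℂ)).eval z = ∏ r ∈ Finset.Icc 1 n, (z ^ r - 1) := by
    unfold blk
    rw [Polynomial.map_prod, Polynomial.eval_prod]
    apply Finset.prod_congr rfl
    intro r _
    simp
  rw [e1, norm_prod]
  calc ∏ r ∈ Finset.Icc 1 n, ‖z ^ r - 1‖
      ≤ ∏ r ∈ Finset.Icc 1 n, Real.exp (-(∑ l ∈ Finset.Icc 1 L, (1 / (l : ℝ)) * ((z ^ r) ^ l).re)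
        + ρ ^ (L + 1) / (1 - ρ)) := by
        apply Finset.prod_le_prod
        · intro r _; positivity
        · intro r hr
          rw [Finset.mem_Icc] at hr
          have hzr : ‖z ^ r‖ ≤ ρ := by
            rw [norm_pow, hz]
            calc ρ ^ r ≤ ρ ^ 1 := pow_le_pow_of_le_one hρ0.le hρ.le hr.1
              _ = ρ := pow_one ρ
          refine (one_sub_bound (z ^ r) (lt_of_le_of_lt hzr hρ) L).trans ?_
          apply Real.exp_le_exp.2
          have h1 : ‖z ^ r‖ ^ (L + 1) ≤ ρ ^ (L + 1) := pow_le_pow_left₀ (norm_nonneg _) hzr _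
          have h2 : ‖z ^ r‖ ^ (L + 1) / (1 - ‖z ^ r‖) ≤ ρ ^ (L + 1) / (1 - ρ) := by
            apply div_le_div₀ (by positivity) h1 (by linarith) (by linarith)
          linarith
    _ = Real.exp (∑ r ∈ Finset.Icc 1 n, (-(∑ l ∈ Finset.Icc 1 L, (1 / (l : ℝ)) * ((z ^ r) ^ l).re)
        + ρ ^ (L + 1) / (1 - ρ))) := by rw [Real.exp_sum]
    _ = _ := by
        congr 1
        rw [Finset.sum_add_distrib, Finset.sum_const, Finset.sum_neg_distrib, Finset.sum_comm]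
        simp only [Nat.card_Icc, Nat.add_sub_cancel, nsmul_eq_mul]
        congr 2
        apply Finset.sum_congr rfl
        intro l _
        rw [← Finset.mul_sum, Complex.re_sum]
        congr 1
        apply Finset.sum_congr rfl
        intro r _
        congr 1
        rw [← pow_mul, ← pow_mul, mul_comm]

private theorem list_bound (𝒟 : List ℕ) (ρ : ℝ) (hρ0 : 0 < ρ)
    (hρ : ρ < 1) (L : ℕ) (z : ℂ) (hz : ‖z‖ = ρ) :
    ‖(((𝒟.map blk).prod).map (Int.castRingHom ℂ)).eval z‖ ≤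
      Real.exp (-(∑ l ∈ Finset.Icc 1 L, (1 / (l : ℝ)) * (gz 𝒟 (z ^ l)).re)
        + (𝒟.sum : ℝ) * (ρ ^ (L + 1) / (1 - ρ))) := by
  induction 𝒟 with
  | nil => simp [gz]
  | cons n D ih =>
    have e1 : (((n :: D).map blk).prod).map (Int.castRingHom ℂ)
        = (blk n).map (Int.castRingHom ℂ) * ((D.map blk).prod).map (Int.castRingHom ℂ) := by
      rw [List.map_cons, List.prod_cons, Polynomial.map_mul]
    have e2 : ∀ w : ℂ, gz (n :: D) w = (∑ r ∈ Finset.Icc 1 n, w ^ r) + gz D w := by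
      intro w
      unfold gz
      rw [List.map_cons, List.sum_cons]
    rw [e1, Polynomial.eval_mul, norm_mul]
    refine (mul_le_mul (blk_bound n ρ hρ0 hρ L z hz) ih (norm_nonneg _)
      (Real.exp_pos _).le).trans ?_
    rw [← Real.exp_add]
    apply le_of_eq
    congr 1
    simp only [e2, Complex.add_re, mul_add, Finset.sum_add_distrib, List.sum_cons]
    push_cast
    ring

/-- MPB. For `|w| < 1`: `log |1 - w| ≤ -Re ∑_{l=1}^L w^l/l + |w|^(L+1)/(1-|w|)`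
(`Complex.norm_log_one_add_sub_self_le`-type bound: `Complex.norm_log_sub_logTaylor_le`, or `hasSum_taylorSeries_neg_log`).
With `w = z^r`, `‖z‖ = ρ`, sum over all `r ≤ n`, `n ∈ 𝒟`:
`log |P(z)| ≤ -∑_{l ≤ L} (1/l) Re gz 𝒟 (z^l) + m ρ^(L+1)/(1-ρ)`, `m = ∑_{n ∈ 𝒟} n`, then `re_lower` and
`∑_{l ≤ L} 1/l ≤ 1 + log L`. (`‖z^r‖ ≤ ρ` for `r ≥ 1`.) -/
theorem prod_bound (𝒟 : List ℕ) (K : ℝ) (hK0 : 0 ≤ K) (hK : ∀ θ : ℝ, -K ≤ ZZ 𝒟 θ) (ρ : ℝ) (hρ0 : 0 < ρ)
    (hρ : ρ < 1) (L : ℕ) (hL : 1 ≤ L) (z : ℂ) (hz : ‖z‖ = ρ) :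
    ‖(((𝒟.map blk).prod).map (Int.castRingHom ℂ)).eval z‖ ≤
      Real.exp (K * (1 + Real.log L) + (𝒟.sum : ℝ) * (ρ ^ (L + 1) / (1 - ρ))) := by
  refine (list_bound 𝒟 ρ hρ0 hρ L z hz).trans ?_
  apply Real.exp_le_exp.2
  gcongr
  rw [← Finset.sum_neg_distrib]
  calc ∑ l ∈ Finset.Icc 1 L, -(1 / (l : ℝ) * (gz 𝒟 (z ^ l)).re)
      ≤ ∑ l ∈ Finset.Icc 1 L, K * ((l : ℝ))⁻¹ := by
        apply Finset.sum_le_sum
        intro l hl
        have h1 : -K ≤ (gz 𝒟 (z ^ l)).re := by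
          apply re_lower 𝒟 K hK
          rw [norm_pow, hz]
          exact pow_le_one₀ hρ0.le hρ.le
        have h2 : (0 : ℝ) ≤ (l : ℝ)⁻¹ := by positivity
        rw [one_div]
        nlinarith
    _ = K * ((harmonic L : ℚ) : ℝ) := by
        rw [← Finset.mul_sum, harmonic_eq_sum_Icc]
        push_cast
        rfl
    _ ≤ K * (1 + Real.log L) := by
        apply mul_le_mul_of_nonneg_left (harmonic_le_one_add_log L) hK0

end QPL
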