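import Pool.Agent.QPL.SEL

set_option autoImplicit false

namespace QPL

open Finset

private theorem cos_red (r : ℕ) (θ : ℝ) :
    Real.cos (r * Real.arccos (Real.cos θ)) = Real.cos (r * θ) := by
  have h1 := Polynomial.Chebyshev.T_real_cos (Real.arccos (Real.cos θ)) (r : ℤ)
  have h2 := Polynomial.Chebyshev.T_real_cos θ (r : ℤ)
  rw [Real.cos_arccos (Real.neg_one_le_cos θ) (Real.cos_le_one θ)] at h1
  rw [h1] at h2
  push_cast at h2
  exact h2

private theorem Dn_red (n : ℕ) (θ : ℝ) : Dn n (Real.arccos (Real.cos θ)) = Dn n θ := by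
  unfold Dn
  exact Finset.sum_congr rfl fun r _ => cos_red r θ

private theorem SY_red (ν : ℕ → ℕ) (b y : ℕ) (θ : ℝ) :
    SY ν b y (Real.arccos (Real.cos θ)) = SY ν b y θ := by
  unfold SY
  exact Finset.sum_congr rfl fun i _ => Dn_red _ θ

private theorem Dn_nonneg {m n : ℕ} (hm : m ≤ n) {θ : ℝ} (h0 : 0 ≤ θ) (h1 : (n : ℝ) * θ ≤ 1) :
    0 ≤ Dn m θ := by
  unfold Dn
  refine Finset.sum_nonneg fun r hr => ?_
  rw [Finset.mem_Icc] at hr
  have h2 : (r : ℝ) * θ ≤ 1 := by
    refine le_trans (mul_le_mul_of_nonneg_right ?_ h0) h1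
    exact_mod_cast hr.2.trans hm
  have h3 : (0 : ℝ) ≤ r * θ := by positivity
  refine (Real.cos_pos_of_mem_Ioo ⟨?_, ?_⟩).le
  · linarith [Real.pi_pos]
  · linarith [Real.pi_gt_three]

/-- PRE (a). Prefixes of the sorted list of cut-offs. `𝒟` = the elements `< n` of the multiset
`{ν i : i < b}` (all of them), `g` copies of `n` (`g` at most the multiplicity `G` of `n`), and one more cut-off
`R' ≤ n`. With `y = n - 1`: `ZZ 𝒟 = SY y + g Dn n + Dn R'`, `SY n = SY y + G Dn n`, hence
`SY y + g Dn n ≥ min (SY y) (SY n)`. For `θ ∈ [1/n, π]` both are `≥ π/θ - (3b+1)` and `Dn R' θ ≥ -π/θ`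
(`Dn_abs`). For `0 ≤ θ < 1/n` all cosines are positive. Other `θ`: `cos` is even and `2π`-periodic. -/
theorem prefix_bound {R b : ℕ} (hb : 1 ≤ b) (ν : ℕ → ℕ) (hν : ∀ i, 1 ≤ ν i ∧ ν i ≤ R)
    (hS : ∀ y ≤ R, ∀ θ : ℝ, 1 / ((y : ℝ) + 1) ≤ θ → θ ≤ Real.pi →
        Real.pi / θ - (3 * b + 1) ≤ SY ν b y θ)
    (n : ℕ) (hn : 1 ≤ n) (hnR : n ≤ R) (g R' : ℕ)
    (hg : g ≤ ((Finset.range b).filter (fun i => ν i = n)).card) (hR' : R' ≤ n) (θ : ℝ) :
    -(3 * (b : ℝ) + 1) ≤ SY ν b (n - 1) θ + g * Dn n θ + Dn R' θ := by
  rw [← SY_red ν b (n - 1) θ, ← Dn_red n θ, ← Dn_red R' θ]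
  have h0 : 0 ≤ Real.arccos (Real.cos θ) := Real.arccos_nonneg _
  have hπ : Real.arccos (Real.cos θ) ≤ Real.pi := Real.arccos_le_pi _
  generalize Real.arccos (Real.cos θ) = t at h0 hπ
  have hn0 : (0 : ℝ) < n := by exact_mod_cast hn
  by_cases hc : (n : ℝ) * t ≤ 1
  · have h1 : 0 ≤ SY ν b (n - 1) t := by
      unfold SY
      refine Finset.sum_nonneg fun i hi => ?_
      have h2 := (Finset.mem_filter.1 hi).2
      exact Dn_nonneg (by omega : ν i ≤ n) h0 hc
    have h2 : 0 ≤ (g : ℝ) * Dn n t := mul_nonneg (Nat.cast_nonneg g) (Dn_nonneg le_rfl h0 hc)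
    have h3 : 0 ≤ Dn R' t := Dn_nonneg hR' h0 hc
    have h4 : (0 : ℝ) ≤ b := Nat.cast_nonneg b
    linarith
  · push Not at hc
    have ht : 1 / (n : ℝ) ≤ t := by
      rw [div_le_iff₀ hn0]
      linarith
    have ht0 : 0 < t := lt_of_lt_of_le (by positivity) ht
    have h1 : Real.pi / t - (3 * b + 1) ≤ SY ν b (n - 1) t := by
      refine hS (n - 1) (by omega) t ?_ hπ
      have h2 : (((n - 1 : ℕ) : ℝ) + 1) = n := by
        have : ((n - 1 + 1 : ℕ) : ℝ) = n := by rw [Nat.sub_add_cancel hn]
        push_cast at this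
        exact this
      rw [h2]
      exact ht
    have h2 : Real.pi / t - (3 * b + 1) ≤ SY ν b n t := by
      refine hS n hnR t (le_trans ?_ ht) hπ
      exact one_div_le_one_div_of_le hn0 (by linarith)
    have h3 : SY ν b n t = SY ν b (n - 1) t +
        (((Finset.range b).filter (fun i => ν i = n)).card : ℝ) * Dn n t := by
      unfold SY
      have h4 : (Finset.range b).filter (fun i => ν i ≤ n) =
          (Finset.range b).filter (fun i => ν i ≤ n - 1) ∪
            (Finset.range b).filter (fun i => ν i = n) := by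
        ext i
        simp only [Finset.mem_filter, Finset.mem_union]
        constructor
        · rintro ⟨h5, h6⟩
          by_cases h7 : ν i = n
          · exact Or.inr ⟨h5, h7⟩
          · exact Or.inl ⟨h5, by omega⟩
        · rintro (⟨h5, h6⟩ | ⟨h5, h6⟩)
          · exact ⟨h5, by omega⟩
          · exact ⟨h5, by omega⟩
      rw [h4, Finset.sum_union]
      · congr 1
        rw [← nsmul_eq_mul]
        refine Finset.sum_eq_card_nsmul fun i hi => ?_
        rw [(Finset.mem_filter.1 hi).2]
      · rw [Finset.disjoint_left]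
        intro i h5 h6
        have h7 := (Finset.mem_filter.1 h5).2
        have h8 := (Finset.mem_filter.1 h6).2
        omega
    have h5 : Real.pi / t - (3 * b + 1) ≤ SY ν b (n - 1) t + g * Dn n t := by
      rcases le_total 0 (Dn n t) with h6 | h6
      · have h7 : 0 ≤ (g : ℝ) * Dn n t := mul_nonneg (Nat.cast_nonneg g) h6
        linarith
      · have h7 : (((Finset.range b).filter (fun i => ν i = n)).card : ℝ) * Dn n t ≤ g * Dn n t :=
          mul_le_mul_of_nonpos_right (by exact_mod_cast hg) h6
        linarith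
    have h6 : -(Real.pi / t) ≤ Dn R' t := (abs_le.1 (Dn_abs R' ht0 hπ)).1
    linarith

private theorem take_prod {α M : Type} [CommMonoid M] (g : α → M) (d : α) (E : List α) (j : ℕ)
    (hj : j ≤ E.length) : ∏ i ∈ Finset.range j, g (E.getD i d) = ((E.take j).map g).prod := by
  induction j with
  | zero => simp
  | succ j ih =>
    have hj' : j < E.length := hj
    rw [Finset.prod_range_succ, ih hj'.le, ← List.take_append_getElem hj', List.map_append,
      List.prod_append, List.map_singleton, List.prod_singleton, List.getD_eq_getElem _ _ hj']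

private theorem take_sum {α M : Type} [AddCommMonoid M] (g : α → M) (d : α) (E : List α) (j : ℕ)
    (hj : j ≤ E.length) : ∑ i ∈ Finset.range j, g (E.getD i d) = ((E.take j).map g).sum := by
  induction j with
  | zero => simp
  | succ j ih =>
    have hj' : j < E.length := hj
    rw [Finset.sum_range_succ, ih hj'.le, ← List.take_append_getElem hj', List.map_append,
      List.sum_append, List.map_singleton, List.sum_singleton, List.getD_eq_getElem _ _ hj']

private theorem range'_prod {M : Type} [CommMonoid M] (g : ℕ → M) (n : ℕ) :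
    ((List.range' 1 n).map g).prod = ∏ r ∈ Finset.Icc 1 n, g r := by
  induction n with
  | zero => simp
  | succ n ih =>
    rw [List.range'_1_concat, List.map_append, List.prod_append, ih, List.map_singleton,
      List.prod_singleton, Finset.prod_Icc_succ_top (by omega), add_comm 1 n]

private theorem range'_sum {M : Type} [AddCommMonoid M] (g : ℕ → M) (n : ℕ) :
    ((List.range' 1 n).map g).sum = ∑ r ∈ Finset.Icc 1 n, g r := by
  induction n with
  | zero => simp
  | succ n ih =>
    rw [List.range'_1_concat, List.map_append, List.sum_append, ih, List.map_singleton,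
      List.sum_singleton, Finset.sum_Icc_succ_top (by omega), add_comm 1 n]

private theorem flat_prod {M : Type} [CommMonoid M] (g : ℕ → M) (D : List ℕ) :
    ((D.flatMap (List.range' 1)).map g).prod = (D.map fun n => ∏ r ∈ Finset.Icc 1 n, g r).prod := by
  induction D with
  | nil => simp
  | cons a D ih =>
    rw [List.flatMap_cons, List.map_append, List.prod_append, ih, List.map_cons, List.prod_cons,
      range'_prod]

private theorem flat_sum {M : Type} [AddCommMonoid M] (g : ℕ → M) (D : List ℕ) :
    ((D.flatMap (List.range' 1)).map g).sum = (D.map fun n => ∑ r ∈ Finset.Icc 1 n, g r).sum := by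
  induction D with
  | nil => simp
  | cons a D ih =>
    rw [List.flatMap_cons, List.map_append, List.sum_append, ih, List.map_cons, List.sum_cons,
      range'_sum]

private theorem flat_len (D : List ℕ) : (D.flatMap (List.range' 1)).length = D.sum := by
  induction D with
  | nil => simp
  | cons a D ih => rw [List.flatMap_cons, List.length_append, ih, List.sum_cons, List.length_range']

private theorem take_range'_one (j a : ℕ) (h : j ≤ a) :
    (List.range' 1 a).take j = List.range' 1 j := by
  rw [List.take_range'_of_length_ge h]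

private theorem flat_take (L : List ℕ) (hL : L ≠ []) : ∀ j ≤ L.sum,
    ∃ (m : ℕ) (hm : m < L.length) (R' : ℕ), R' ≤ L[m] ∧
      (L.flatMap (List.range' 1)).take j = (L.take m ++ [R']).flatMap (List.range' 1) := by
  induction L with
  | nil => exact absurd rfl hL
  | cons a L ih =>
    intro j hj
    by_cases hja : j ≤ a
    · refine ⟨0, by simp, j, hja, ?_⟩
      rw [List.flatMap_cons, List.take_append_of_le_length (by rw [List.length_range']; exact hja),
        take_range'_one j a hja]
      simp
    · push Not at hja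
      have hL' : L ≠ [] := by
        rintro rfl
        simp only [List.sum_cons, List.sum_nil] at hj
        omega
      rw [List.sum_cons] at hj
      obtain ⟨m, hm, R', hR', h⟩ := ih hL' (j - a) (by omega)
      refine ⟨m + 1, by rw [List.length_cons]; omega, R', by simpa using hR', ?_⟩
      rw [List.flatMap_cons, List.take_append, List.length_range', h,
        List.take_of_length_le (by rw [List.length_range']; omega), List.take_succ_cons,
        List.cons_append, List.flatMap_cons]

private theorem sum_ite_count (l : List ℕ) (a : ℕ) (c : ℝ) :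
    (l.map fun x => if x = a then c else 0).sum = (l.count a : ℝ) * c := by
  induction l with
  | nil => simp
  | cons x l ih =>
    rw [List.map_cons, List.sum_cons, ih, List.count_cons]
    by_cases h : x = a
    · subst h
      simp
      ring
    · simp [h]

private theorem split_sum (L : List ℕ) (hs : L.Pairwise (· ≤ ·)) (m : ℕ) (hm : m < L.length)
    (f : ℕ → ℝ) : ((L.take m).map f).sum =
      (L.map fun x => if x < L[m] then f x else 0).sum + ((L.take m).count L[m] : ℝ) * f L[m] := by
  have h1 : ∀ x ∈ L.take m, x ≤ L[m] := by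
    intro x hx
    obtain ⟨i, hi, rfl⟩ := List.getElem_of_mem hx
    rw [List.length_take] at hi
    rw [List.getElem_take]
    exact List.pairwise_iff_getElem.1 hs i m (by omega) hm (by omega)
  have h2 : ∀ x ∈ L.drop m, L[m] ≤ x := by
    intro x hx
    obtain ⟨i, hi, rfl⟩ := List.getElem_of_mem hx
    rw [List.length_drop] at hi
    rw [List.getElem_drop]
    rcases Nat.eq_zero_or_pos i with h | h
    · subst h
      simp
    · exact List.pairwise_iff_getElem.1 hs m (m + i) hm (by omega) (by omega)
  have h5 : ∀ g : ℕ → ℝ, (L.map g).sum = ((L.take m).map g).sum + ((L.drop m).map g).sum := by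
    intro g
    rw [← List.sum_append, ← List.map_append, List.take_append_drop]
  have h3 : (L.map fun x => if x < L[m] then f x else 0).sum =
      ((L.take m).map fun x => if x < L[m] then f x else 0).sum := by
    rw [h5]
    have h4 : ((L.drop m).map fun x => if x < L[m] then f x else 0).sum = 0 := by
      refine List.sum_eq_zero fun y hy => ?_
      obtain ⟨x, hx, rfl⟩ := List.mem_map.1 hy
      rw [if_neg (not_lt.2 (h2 x hx))]
    rw [h4, add_zero]
  rw [h3, ← sum_ite_count, ← List.sum_map_add]
  congr 1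
  refine List.map_congr_left fun x hx => ?_
  rcases lt_or_eq_of_le (h1 x hx) with h | h
  · rw [if_pos h, if_neg h.ne, add_zero]
  · rw [if_neg (by omega), if_pos h, zero_add, h]

/-- PRE (b). The sequence of exponents: sort the multiset `{ν i : i < b}`, replace each element `n` by the block
`1, 2, …, n` and concatenate (`r i = 1` after the end). The first `j` elements are the blocks of a prefix of the
sorted list followed by an initial segment `1, …, R'` of the next block. -/
theorem sequence_exists {R b : ℕ} (hb : 1 ≤ b) (ν : ℕ → ℕ) (hν : ∀ i, 1 ≤ ν i ∧ ν i ≤ R)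
    (hS : ∀ y ≤ R, ∀ θ : ℝ, 1 / ((y : ℝ) + 1) ≤ θ → θ ≤ Real.pi →
        Real.pi / θ - (3 * b + 1) ≤ SY ν b y θ) :
    ∃ r : ℕ → ℕ, (∀ i, 1 ≤ r i ∧ r i ≤ R) ∧ ∀ j ≤ ∑ i ∈ Finset.range b, ν i,
      ∃ 𝒟 : List ℕ, PP r j = (𝒟.map blk).prod ∧
        (𝒟.map (fun n => ∑ i ∈ Finset.Icc 1 n, i)).sum = ∑ i ∈ Finset.range j, r i ∧
        ∀ θ : ℝ, -(3 * (b : ℝ) + 1) ≤ ZZ 𝒟 θ := by
  obtain ⟨L, hs, hperm⟩ : ∃ L : List ℕ, L.Pairwise (· ≤ ·) ∧ L.Perm ((List.range b).map ν) :=
    ⟨List.insertionSort (· ≤ ·) ((List.range b).map ν), List.pairwise_insertionSort _ _,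
      List.perm_insertionSort _ _⟩
  have hsum : ∀ f : ℕ → ℝ, (L.map f).sum = ∑ i ∈ Finset.range b, f (ν i) := by
    intro f
    rw [(hperm.map f).sum_eq, List.map_map]
    rfl
  have hsumN : L.sum = ∑ i ∈ Finset.range b, ν i := by
    rw [hperm.sum_eq]
    rfl
  have hlen : L.length = b := by
    rw [hperm.length_eq, List.length_map, List.length_range]
  have hmem : ∀ n ∈ L, 1 ≤ n ∧ n ≤ R := by
    intro n hn
    obtain ⟨i, _, rfl⟩ := List.mem_map.1 (hperm.mem_iff.1 hn)
    exact hν i
  have hL : L ≠ [] := by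
    rintro rfl
    simp only [List.length_nil] at hlen
    omega
  have hcount : ∀ n, L.count n = ((Finset.range b).filter (fun i => ν i = n)).card := by
    intro n
    have h1 := sum_ite_count L n 1
    rw [hsum, mul_one, Finset.sum_boole] at h1
    exact_mod_cast h1.symm
  set E := L.flatMap (List.range' 1) with hE
  have hEmem : ∀ x ∈ E, 1 ≤ x ∧ x ≤ R := by
    intro x hx
    obtain ⟨n, hn, hx⟩ := List.mem_flatMap.1 hx
    have h1 := (hmem n hn).2
    rw [List.mem_range'_1] at hx
    omega
  have hElen : E.length = L.sum := flat_len L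
  refine ⟨fun i => E.getD i 1, fun i => ?_, fun j hj => ?_⟩
  · by_cases hi : i < E.length
    · have h1 : E.getD i 1 = E[i] := List.getD_eq_getElem _ _ hi
      change 1 ≤ E.getD i 1 ∧ E.getD i 1 ≤ R
      rw [h1]
      exact hEmem _ (List.getElem_mem hi)
    · have h1 : E.getD i 1 = 1 := List.getD_eq_default _ _ (by omega)
      change 1 ≤ E.getD i 1 ∧ E.getD i 1 ≤ R
      rw [h1]
      have h2 := hν 0
      omega
  · rw [← hsumN] at hj
    obtain ⟨m, hm, R', hR', htake⟩ := flat_take L hL j hj
    have hn0 := hmem L[m] (List.getElem_mem hm)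
    refine ⟨L.take m ++ [R'], ?_, ?_, fun θ => ?_⟩
    · have h1 : PP (fun i => E.getD i 1) j = ((E.take j).map
          fun r : ℕ => ((Polynomial.X : Polynomial ℤ) ^ r - 1)).prod :=
        take_prod (fun r : ℕ => ((Polynomial.X : Polynomial ℤ) ^ r - 1)) 1 E j (by omega)
      rw [h1, htake, flat_prod]
      rfl
    · have h1 : ∑ i ∈ Finset.range j, E.getD i 1 = ((E.take j).map (fun r : ℕ => r)).sum :=
        take_sum (fun r : ℕ => r) 1 E j (by omega)
      change _ = ∑ i ∈ Finset.range j, E.getD i 1
      rw [h1, htake, flat_sum]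
    · have h1 : ZZ (L.take m ++ [R']) θ = SY ν b (L[m] - 1) θ +
          ((L.take m).count L[m] : ℝ) * Dn L[m] θ + Dn R' θ := by
        unfold ZZ
        rw [List.map_append, List.sum_append, List.map_singleton, List.sum_singleton,
          split_sum L hs m hm (fun n => Dn n θ), hsum]
        congr 2
        unfold SY
        rw [Finset.sum_filter]
        refine Finset.sum_congr rfl fun i _ => ?_
        have h2 : (ν i < L[m]) ↔ (ν i ≤ L[m] - 1) := by omega
        by_cases h3 : ν i < L[m]
        · rw [if_pos h3, if_pos (h2.1 h3)]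
        · rw [if_neg h3, if_neg (fun h => h3 (h2.2 h))]
      rw [h1]
      refine prefix_bound hb ν hν hS L[m] hn0.1 hn0.2 _ R' ?_ hR' θ
      rw [← hcount]
      exact List.Sublist.count_le _ (List.take_sublist m L)

end QPL
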