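import Pool.Agent.QPL.RLA
import Pool.Agent.QPL.EBD

set_option autoImplicit false

namespace QPL

open Complex Metric

private theorem SAD_sig_pos {c : ℝ} {N : ℕ} (hc : 0 < c) (hN : 1 ≤ N) : 0 < PRT.sig c N := by
  unfold PRT.sig
  have : (0 : ℝ) < N := by exact_mod_cast hN
  positivity

private theorem SAD_mem {x ϱ y : ℝ} {N : ℕ} (hx : |x - N| ≤ ϱ * N / 4) (hy0 : 0 ≤ y)
    (hy : y ≤ ϱ * N / 5) {ρ' : ℝ} (hρ : ϱ * N / 4 + ϱ * N / 5 < ρ') :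
    |x + y - N| < ρ' := by
  have h1 := abs_le.1 hx
  rw [abs_lt]
  constructor <;> linarith [h1.1, h1.2]

private theorem SAD_ball {u ρ : ℝ} {N : ℕ} (h : |u - N| < ρ) : (u : ℂ) ∈ ball (N : ℂ) ρ := by
  rw [mem_ball, dist_eq_norm]
  have h2 : (u : ℂ) - (N : ℂ) = ((u - N : ℝ) : ℂ) := by push_cast; ring
  rw [h2, Complex.norm_real, Real.norm_eq_abs]
  exact h

/-- the size of `j / s` -/
private theorem SAD_size {c ϵ ϱ : ℝ} {N : ℕ} (hc : 0 < c) (hϵ' : ϵ ≤ 1 / 100)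
    (hϱ : 0 < ϱ) (hN : 1 ≤ N) {y s : ℝ} (hy0 : 0 ≤ y)
    (hy : y ≤ c * ϱ / 32 * Real.sqrt N) (hs : (1 - ϵ) * PRT.sig c N ≤ s) :
    0 < s ∧ 0 ≤ y / s ∧ y / s ≤ ϱ * N / 15 := by
  have hσ := SAD_sig_pos (c := c) hc hN
  have hs0 : 99 / 100 * PRT.sig c N ≤ s := by
    refine le_trans ?_ hs
    exact mul_le_mul_of_nonneg_right (by linarith) hσ.le
  have hs1 : 0 < s := by linarith [mul_pos (by norm_num : (0 : ℝ) < 99 / 100) hσ]
  have hN0 : (0 : ℝ) < N := by exact_mod_cast hN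
  have hsq : 0 < Real.sqrt N := Real.sqrt_pos.2 hN0
  have hsq2 : Real.sqrt N * Real.sqrt N = N := Real.mul_self_sqrt hN0.le
  refine ⟨hs1, div_nonneg hy0 hs1.le, ?_⟩
  rw [div_le_iff₀ hs1]
  have h3 : ϱ * N / 15 * (99 / 100 * PRT.sig c N) ≤ ϱ * N / 15 * s :=
    mul_le_mul_of_nonneg_left hs0 (by positivity)
  refine le_trans ?_ h3
  refine hy.trans ?_
  have h4 : (N : ℝ) * PRT.sig c N = c * Real.sqrt N / 2 := by
    unfold PRT.sig
    rw [← hsq2]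
    have : Real.sqrt N ≠ 0 := hsq.ne'
    rw [hsq2]
    field_simp
    nlinarith [hsq2]
  have h5 : ϱ * N / 15 * (99 / 100 * PRT.sig c N) = ϱ / 15 * (99 / 100) * (N * PRT.sig c N) := by
    ring
  rw [h5, h4]
  have h6 : 0 < c * ϱ * Real.sqrt N := by positivity
  nlinarith [h6]

/-- SAD (a). The saddle. Intermediate value theorem for `s ↦ s - Re φ'(x + j/s)` on `[(1-ϵ)σ, (1+ϵ)σ]`
(`x + j/s` stays in the ball, `j/s ≤ 2j/σ ≤ ϱN/8`), `φ'` real there by `deriv_real`. -/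
theorem saddle {c ϵ ϱ : ℝ} {N : ℕ} {φ : ℂ → ℂ} (hc : 0 < c) (hϵ : 0 < ϵ) (hϵ' : ϵ ≤ 1 / 100)
    (hϱ : 0 < ϱ) (hN : 1 ≤ N) (h : PRT.PhiGood c ϵ ϱ N φ)
    (hreal : ∀ x : ℝ, |x - N| < ϱ * N → (φ (x : ℂ)).im = 0)
    (j : ℕ) (hj : (j : ℝ) ≤ c * ϱ / 32 * Real.sqrt N) (x : ℝ) (hx : |x - N| ≤ ϱ * N / 4) :
    ∃ s : ℝ, (1 - ϵ) * PRT.sig c N ≤ s ∧ s ≤ (1 + ϵ) * PRT.sig c N ∧
      deriv φ ((x + j / s : ℝ) : ℂ) = (s : ℂ) := by
  have hσ := SAD_sig_pos (c := c) hc hN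
  have hN0 : (0 : ℝ) < N := by exact_mod_cast hN
  have hϱN : 0 < ϱ * N := by positivity
  have hj0 : (0 : ℝ) ≤ j := Nat.cast_nonneg j
  -- all points are in the ball
  have hmem : ∀ s : ℝ, (1 - ϵ) * PRT.sig c N ≤ s → |x + j / s - N| < ϱ * N := by
    intro s hs
    obtain ⟨h1, h2, h3⟩ := SAD_size hc hϵ' hϱ hN hj0 hj hs
    exact SAD_mem hx h2 (by linarith) (by linarith)
  have hd : ∀ s : ℝ, (1 - ϵ) * PRT.sig c N ≤ s →
      ‖deriv φ ((x + j / s : ℝ) : ℂ) - (PRT.sig c N : ℂ)‖ ≤ ϵ * PRT.sig c N := fun s hs =>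
    h.deriv_near _ (SAD_ball (hmem s hs))
  have hcd : ContinuousOn (deriv φ) (ball (N : ℂ) (ϱ * N)) :=
    (h.diff.deriv isOpen_ball).continuousOn
  have hcont : ContinuousOn (fun s : ℝ => s - (deriv φ ((x + j / s : ℝ) : ℂ)).re)
      (Set.Icc ((1 - ϵ) * PRT.sig c N) ((1 + ϵ) * PRT.sig c N)) := by
    refine continuousOn_id.sub (Complex.continuous_re.comp_continuousOn ?_)
    refine hcd.comp (Complex.continuous_ofReal.comp_continuousOn ?_) ?_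
    · refine continuousOn_const.add (continuousOn_const.div continuousOn_id ?_)
      intro s hs
      exact (SAD_size hc hϵ' hϱ hN hj0 hj hs.1).1.ne'
    · intro s hs
      exact SAD_ball (hmem s hs.1)
  have hle : (1 - ϵ) * PRT.sig c N ≤ (1 + ϵ) * PRT.sig c N :=
    mul_le_mul_of_nonneg_right (by linarith) hσ.le
  have hre : ∀ s : ℝ, (1 - ϵ) * PRT.sig c N ≤ s →
      |(deriv φ ((x + j / s : ℝ) : ℂ)).re - PRT.sig c N| ≤ ϵ * PRT.sig c N := by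
    intro s hs
    have h1 := (Complex.abs_re_le_norm _).trans (hd s hs)
    rwa [Complex.sub_re, Complex.ofReal_re] at h1
  have hiv := intermediate_value_Icc hle hcont
  have h0 : (0 : ℝ) ∈ Set.Icc ((1 - ϵ) * PRT.sig c N -
      (deriv φ ((x + j / ((1 - ϵ) * PRT.sig c N) : ℝ) : ℂ)).re)
      ((1 + ϵ) * PRT.sig c N -
      (deriv φ ((x + j / ((1 + ϵ) * PRT.sig c N) : ℝ) : ℂ)).re) := by
    have h1 := abs_le.1 (hre _ le_rfl)
    have h2 := abs_le.1 (hre _ hle)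
    constructor
    · linarith [h1.1]
    · linarith [h2.2]
  obtain ⟨s, hs, hs2⟩ := hiv h0
  refine ⟨s, hs.1, hs.2, ?_⟩
  apply Complex.ext
  · rw [Complex.ofReal_re]
    have hs3 : s - (deriv φ ((x + j / s : ℝ) : ℂ)).re = 0 := hs2
    linarith
  · rw [Complex.ofReal_im]
    exact deriv_real h.diff hreal _ (hmem s hs.1)

/-- SAD (b). The phase increment between two neighbouring saddles: the derivative of `φ` between
`x + j/s` and `x + (j+1)/s` differs from `s` by at most `2ϵσ/(ϱN) · (1/s)` (`deriv_lip`), so the quantity is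
`≤ (1/s)² 2ϵσ/(ϱN) ≤ ϵ` (`σ ≤ 2s`, `cϱ√N ≥ 32`). -/
theorem saddle_step {c ϵ ϱ : ℝ} {N : ℕ} {φ : ℂ → ℂ} (hc : 0 < c) (hϵ : 0 < ϵ) (hϵ' : ϵ ≤ 1 / 100)
    (hϱ : 0 < ϱ) (hN : 1 ≤ N) (h : PRT.PhiGood c ϵ ϱ N φ)
    (j : ℕ) (hj : (j : ℝ) + 1 ≤ c * ϱ / 32 * Real.sqrt N) (x : ℝ) (hx : |x - N| ≤ ϱ * N / 4)
    {s : ℝ} (hs : (1 - ϵ) * PRT.sig c N ≤ s) (hsad : deriv φ ((x + j / s : ℝ) : ℂ) = (s : ℂ)) :
    ‖φ ((x + (j + 1) / s : ℝ) : ℂ) - φ ((x + j / s : ℝ) : ℂ) - 1‖ ≤ ϵ := by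
  have hσ := SAD_sig_pos (c := c) hc hN
  have hN0 : (0 : ℝ) < N := by exact_mod_cast hN
  have hϱN : 0 < ϱ * N := by positivity
  have hj0 : (0 : ℝ) ≤ j := Nat.cast_nonneg j
  obtain ⟨hs0, ha1, ha2⟩ := SAD_size (y := (j : ℝ)) hc hϵ' hϱ hN hj0 (by linarith) hs
  obtain ⟨-, hb1, hb2⟩ := SAD_size (y := (j : ℝ) + 1) hc hϵ' hϱ hN (by linarith) hj hs
  have ha : ((x + j / s : ℝ) : ℂ) ∈ ball (N : ℂ) (ϱ * N / 2) :=
    SAD_ball (SAD_mem hx ha1 (by linarith) (by linarith))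
  have hb : ((x + (j + 1) / s : ℝ) : ℂ) ∈ ball (N : ℂ) (ϱ * N / 2) :=
    SAD_ball (SAD_mem hx hb1 (by linarith) (by linarith))
  have hseg : segment ℝ ((x + j / s : ℝ) : ℂ) ((x + (j + 1) / s : ℝ) : ℂ) ⊆
      ball (N : ℂ) (ϱ * N / 2) := (convex_ball _ _).segment_subset ha hb
  have hsub : ball (N : ℂ) (ϱ * N / 2) ⊆ ball (N : ℂ) (ϱ * N) :=
    ball_subset_ball (by linarith)
  have hab : ((x + (j + 1) / s : ℝ) : ℂ) - ((x + j / s : ℝ) : ℂ) = ((1 / s : ℝ) : ℂ) := by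
    rw [← Complex.ofReal_sub]
    congr 1
    field_simp
    ring
  have habn : ‖((x + (j + 1) / s : ℝ) : ℂ) - ((x + j / s : ℝ) : ℂ)‖ = 1 / s := by
    rw [hab, Complex.norm_real, Real.norm_eq_abs, abs_of_pos (by positivity)]
  have hL : 0 ≤ 2 * ϵ * PRT.sig c N / (ϱ * N) := by positivity
  have hbound : ∀ w ∈ segment ℝ ((x + j / s : ℝ) : ℂ) ((x + (j + 1) / s : ℝ) : ℂ),
      ‖deriv φ w - (s : ℂ)‖ ≤ 2 * ϵ * PRT.sig c N / (ϱ * N) * (1 / s) := by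
    intro w hw
    have h1 := deriv_lip hc hϵ hϱ hN h (hseg hw) ha
    rw [hsad] at h1
    refine h1.trans (mul_le_mul_of_nonneg_left ?_ hL)
    rw [← habn]
    have h2 := norm_sub_le_of_mem_segment hw
    exact h2
  have hderiv : ∀ w ∈ segment ℝ ((x + j / s : ℝ) : ℂ) ((x + (j + 1) / s : ℝ) : ℂ),
      HasDerivWithinAt (fun z => φ z - (s : ℂ) * z) (deriv φ w - (s : ℂ))
        (segment ℝ ((x + j / s : ℝ) : ℂ) ((x + (j + 1) / s : ℝ) : ℂ)) w := by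
    intro w hw
    have h1 : DifferentiableAt ℂ φ w :=
      h.diff.differentiableAt (isOpen_ball.mem_nhds (hsub (hseg hw)))
    have h2 : HasDerivAt (fun z => φ z - (s : ℂ) * z) (deriv φ w - (s : ℂ) * 1) w :=
      h1.hasDerivAt.sub ((hasDerivAt_id w).const_mul (s : ℂ))
    rw [mul_one] at h2
    exact h2.hasDerivWithinAt
  have hmv := (convex_segment ((x + j / s : ℝ) : ℂ)
    ((x + (j + 1) / s : ℝ) : ℂ)).norm_image_sub_le_of_norm_hasDerivWithin_le hderiv hbound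
    (left_mem_segment ℝ _ _) (right_mem_segment ℝ _ _)
  have hid : φ ((x + (j + 1) / s : ℝ) : ℂ) - (s : ℂ) * ((x + (j + 1) / s : ℝ) : ℂ) -
      (φ ((x + j / s : ℝ) : ℂ) - (s : ℂ) * ((x + j / s : ℝ) : ℂ)) =
      φ ((x + (j + 1) / s : ℝ) : ℂ) - φ ((x + j / s : ℝ) : ℂ) - 1 := by
    have h3 : (s : ℂ) * (((x + (j + 1) / s : ℝ) : ℂ) - ((x + j / s : ℝ) : ℂ)) = 1 := by
      rw [hab, ← Complex.ofReal_mul]
      have : s * (1 / s) = 1 := by field_simp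
      rw [this]
      simp
    linear_combination -h3
  simp only [hid] at hmv
  rw [habn] at hmv
  refine hmv.trans ?_
  -- numbers
  have hsq : 0 < Real.sqrt N := Real.sqrt_pos.2 hN0
  have hsq2 : Real.sqrt N * Real.sqrt N = N := Real.mul_self_sqrt hN0.le
  have hs99 : 99 / 100 * PRT.sig c N ≤ s := by
    refine le_trans ?_ hs
    exact mul_le_mul_of_nonneg_right (by linarith) hσ.le
  have h4 : (N : ℝ) * PRT.sig c N = c * Real.sqrt N / 2 := by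
    unfold PRT.sig
    field_simp
    nlinarith [hsq2]
  have h32 : 32 ≤ c * ϱ * Real.sqrt N := by
    have : (1 : ℝ) ≤ c * ϱ / 32 * Real.sqrt N := by linarith
    nlinarith
  have h5 : 2 * ϵ * PRT.sig c N / (ϱ * N) * (1 / s) * (1 / s) =
      ϵ * (2 * PRT.sig c N / (ϱ * N * (s * s))) := by
    field_simp
  rw [h5]
  have h6 : 2 * PRT.sig c N / (ϱ * N * (s * s)) ≤ 1 := by
    rw [div_le_one (by positivity)]
    have h7 : (99 / 100 * PRT.sig c N) * (99 / 100 * PRT.sig c N) ≤ s * s :=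
      mul_self_le_mul_self (by positivity) hs99
    have h8 : ϱ * N * ((99 / 100 * PRT.sig c N) * (99 / 100 * PRT.sig c N)) ≤ ϱ * N * (s * s) :=
      mul_le_mul_of_nonneg_left h7 hϱN.le
    refine le_trans ?_ h8
    have h9 : ϱ * N * ((99 / 100 * PRT.sig c N) * (99 / 100 * PRT.sig c N)) =
        (99 / 100) ^ 2 * (ϱ * (N * PRT.sig c N)) * PRT.sig c N := by ring
    rw [h9, h4]
    have h10 : (2 : ℝ) ≤ (99 / 100) ^ 2 * (ϱ * (c * Real.sqrt N / 2)) := by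
      nlinarith
    exact mul_le_mul_of_nonneg_right h10 hσ.le
  calc ϵ * (2 * PRT.sig c N / (ϱ * N * (s * s))) ≤ ϵ * 1 := mul_le_mul_of_nonneg_left h6 hϵ.le
    _ = ϵ := mul_one _

end QPL
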