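import Pool.Agent.QPL.GAU
import Pool.Agent.QPL.EBD
import Pool.Agent.QPL.SAD

set_option autoImplicit false

namespace QPL

open Complex Metric

private theorem radius_bound {c ϵ ϱ : ℝ} {N : ℕ} (hc : 0 < c) (hϵ' : ϵ ≤ 1 / 100)
    (hϱ : 0 < ϱ) (hN : 1 ≤ N) {s : ℝ} {m : ℕ}
    (hs : (1 - ϵ) * PRT.sig c N ≤ s) (hm : (m : ℝ) ≤ c * ϱ / 32 * Real.sqrt N) :
    0 < PRT.sig c N ∧ 0 < s ∧ PRT.sig c N / 2 ≤ s ∧ (m : ℝ) / s ≤ ϱ * N / 8 := by
  have hN0 : (0 : ℝ) < N := by exact_mod_cast hN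
  have hsq : 0 < Real.sqrt N := Real.sqrt_pos.2 hN0
  have hσ : 0 < PRT.sig c N := by unfold PRT.sig; positivity
  have hs2 : PRT.sig c N / 2 ≤ s := by nlinarith
  have hs0 : 0 < s := by linarith
  refine ⟨hσ, hs0, hs2, ?_⟩
  rw [div_le_iff₀ hs0]
  have h1 : PRT.sig c N * (2 * Real.sqrt N) = c := by
    unfold PRT.sig
    field_simp
  have h2 : Real.sqrt N * Real.sqrt N = N := Real.mul_self_sqrt hN0.le
  calc (m : ℝ) ≤ c * ϱ / 32 * Real.sqrt N := hm
    _ = (PRT.sig c N * (2 * Real.sqrt N)) * ϱ / 32 * Real.sqrt N := by rw [h1]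
    _ = (PRT.sig c N / 2) * (ϱ * (Real.sqrt N * Real.sqrt N) / 8) := by ring
    _ = (PRT.sig c N / 2) * (ϱ * N / 8) := by rw [h2]
    _ ≤ s * (ϱ * N / 8) := by
        apply mul_le_mul_of_nonneg_right hs2
        positivity
    _ = ϱ * N / 8 * s := by ring

private theorem gm_form {c ϵ ϱ : ℝ} {N : ℕ} {φ : ℂ → ℂ} (hc : 0 < c) (hϵ : 0 < ϵ)
    (hϵ' : ϵ ≤ 1 / 100)
    (hϱ : 0 < ϱ) (hN : 1 ≤ N) (h : PRT.PhiGood c ϵ ϱ N φ)
    (hreal : ∀ x : ℝ, |x - N| < ϱ * N → (φ (x : ℂ)).im = 0)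
    {x s : ℝ} {j m : ℕ} (hx : |x - N| ≤ ϱ * N / 4)
    (hs : (1 - ϵ) * PRT.sig c N ≤ s) (hj : 1 ≤ j) (hm : m = j ∨ m = j + 1)
    (hjN : (j : ℝ) + 1 ≤ c * ϱ / 32 * Real.sqrt N)
    (hsad : deriv φ ((x + j / s : ℝ) : ℂ) = (s : ℂ)) :
    ∃ J : ℝ, 3 / 4 ≤ J ∧ J ≤ 5 / 4 ∧
      (gm φ m x).re = s ^ m * Real.exp ((φ ((x + m / s : ℝ) : ℂ)).re - m) * J := by
  have hN0 : (0 : ℝ) < N := by exact_mod_cast hN
  have hmN : (m : ℝ) ≤ c * ϱ / 32 * Real.sqrt N := by
    rcases hm with rfl | rfl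
    · linarith
    · push_cast; exact hjN
  have hm1 : 1 ≤ m := by omega
  have hm0 : (0 : ℝ) < m := by exact_mod_cast hm1
  obtain ⟨hσ, hs0, hs2, hr⟩ := radius_bound hc hϵ' hϱ hN hs hmN
  have hϱN : 0 < ϱ * N := by positivity
  have hr0 : 0 < (m : ℝ) / s := by positivity
  have hsr : s * ((m : ℝ) / s) = m := by field_simp
  obtain ⟨hball, hE⟩ := E_bound hc hϵ hϱ hN h hx hs2 hj hm hjN hsad
  have hxabs := abs_le.1 hx
  have hsub : closedBall (x : ℂ) ((m : ℝ) / s) ⊆ ball (N : ℂ) (ϱ * N) := by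
    intro z hz
    rw [mem_closedBall] at hz
    rw [mem_ball]
    have h1 : dist (x : ℂ) (N : ℂ) ≤ ϱ * N / 4 := by
      have h2 : dist (x : ℂ) (N : ℂ) = |x - N| := by
        rw [dist_eq_norm]
        have : ((x : ℂ) - (N : ℂ)) = ((x - N : ℝ) : ℂ) := by push_cast; ring
        rw [this, Complex.norm_real, Real.norm_eq_abs]
      rw [h2]; exact hx
    have h3 := dist_triangle z (x : ℂ) (N : ℂ)
    linarith
  have hdiff : DifferentiableOn ℂ φ (closedBall (x : ℂ) ((m : ℝ) / s)) := h.diff.mono hsub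
  have hcf := circle_formula (φ := φ) (x := x) (r := (m : ℝ) / s) (s := s) hm1 hr0 hsr hdiff
  set E : ℝ → ℂ := fun θ => φ ((x : ℂ) + (((m : ℝ) / s : ℝ) : ℂ) * cexp (θ * I))
    - φ ((x + (m : ℝ) / s : ℝ) : ℂ) - (m : ℂ) * (cexp (θ * I) - 1) with hEdef
  have hEc : Continuous E := by
    have hcurve : Continuous (fun θ : ℝ => (x : ℂ) + (((m : ℝ) / s : ℝ) : ℂ) * cexp (θ * I)) := by
      fun_prop
    have h1 : Continuous
        (fun θ : ℝ => φ ((x : ℂ) + (((m : ℝ) / s : ℝ) : ℂ) * cexp (θ * I))) := by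
      apply (h.diff.continuousOn).comp_continuous hcurve
      intro θ
      exact ball_subset_ball (by linarith) (hball θ)
    have h2 : Continuous (fun θ : ℝ => (m : ℂ) * (cexp (θ * I) - 1)) := by fun_prop
    exact (h1.sub continuous_const).sub h2
  have hnear := cI_near hm1 hϵ.le hϵ' hEc hE
  have hxm : |x + (m : ℝ) / s - N| < ϱ * N := by
    rw [abs_lt]
    constructor <;> linarith
  have him := hreal _ hxm
  have hxN : |x - N| < ϱ * N := by linarith
  have hgim := gm_real h.diff hreal m x hxN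
  have hpre : (s : ℂ) ^ m * cexp (φ ((x + (m : ℝ) / s : ℝ) : ℂ) - m)
      = ((s ^ m * Real.exp ((φ ((x + (m : ℝ) / s : ℝ) : ℂ)).re - m) : ℝ) : ℂ) := by
    have h1 : φ ((x + (m : ℝ) / s : ℝ) : ℂ) - m
        = (((φ ((x + (m : ℝ) / s : ℝ) : ℂ)).re - m : ℝ) : ℂ) := by
      apply Complex.ext
      · simp
      · simpa using him
    rw [h1, ← Complex.ofReal_exp]
    push_cast
    ring
  rw [hpre] at hcf
  have hP : 0 < s ^ m * Real.exp ((φ ((x + (m : ℝ) / s : ℝ) : ℂ)).re - m) := by positivity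
  refine ⟨(cI m E).re, ?_, ?_, ?_⟩
  · have h1 := (Complex.abs_re_le_norm (cI m E - 1)).trans hnear
    rw [Complex.sub_re, Complex.one_re] at h1
    have := (abs_le.1 h1).1
    linarith
  · have h1 := (Complex.abs_re_le_norm (cI m E - 1)).trans hnear
    rw [Complex.sub_re, Complex.one_re] at h1
    have := (abs_le.1 h1).2
    linarith
  · rw [hcf, Complex.re_ofReal_mul]

/-- RAT. Consecutive derivatives of `exp ∘ φ` are positive with ratio between `σ/4` and `4σ`.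
`j = 0`: `gm_zero_one`: `g0 = e^{φ x} > 0`, `g1 = φ'(x) e^{φ x}`, `φ'(x)` real (`deriv_real`), `|φ' - σ| ≤ ϵσ`.
`j ≥ 1`: `saddle` gives `s` with `φ'(x + j/s) = s`. For `m = j` and `m = j+1` and `r = m/s`: `circle_formula`,
`E_bound`, `cI_near` give `g_m = s^m e^{φ(x + m/s) - m} I_m`, `|I_m - 1| ≤ 1/4`. `g_m` is real (`gm_real`), the
prefactor is a positive real (`φ` real on the real axis), so `I_m` is real in `[3/4, 5/4]` and `g_m > 0`; the ratio
is `s · exp (φ(x + (j+1)/s) - φ(x + j/s) - 1) · I_{j+1}/I_j`, the exponent is at most `ϵ` (`saddle_step`),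
`I_{j+1}/I_j ∈ [3/5, 5/3]`, and `s ∈ [(1-ϵ)σ, (1+ϵ)σ]`. -/
theorem ratio {c ϵ ϱ : ℝ} {N : ℕ} {φ : ℂ → ℂ} (hc : 0 < c) (hϵ : 0 < ϵ) (hϵ' : ϵ ≤ 1 / 100)
    (hϱ : 0 < ϱ) (hN : 1 ≤ N) (h : PRT.PhiGood c ϵ ϱ N φ)
    (hreal : ∀ x : ℝ, |x - N| < ϱ * N → (φ (x : ℂ)).im = 0)
    (j : ℕ) (hj : (j : ℝ) + 1 ≤ c * ϱ / 32 * Real.sqrt N) (x : ℝ) (hx : |x - N| ≤ ϱ * N / 4) :
    (gm φ j x).im = 0 ∧ 0 < (gm φ j x).re ∧
      PRT.sig c N / 4 * (gm φ j x).re ≤ (gm φ (j + 1) x).re ∧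
      (gm φ (j + 1) x).re ≤ 4 * PRT.sig c N * (gm φ j x).re := by
  have hN0 : (0 : ℝ) < N := by exact_mod_cast hN
  have hsq : 0 < Real.sqrt N := Real.sqrt_pos.2 hN0
  have hσ : 0 < PRT.sig c N := by unfold PRT.sig; positivity
  have hϱN : 0 < ϱ * N := by positivity
  have hxN : |x - N| < ϱ * N := by linarith
  refine ⟨gm_real h.diff hreal j x hxN, ?_⟩
  rcases Nat.eq_zero_or_pos j with rfl | hj1
  · obtain ⟨h0, h1⟩ := gm_zero_one h.diff x hxN
    have him := hreal x hxN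
    have hdr := deriv_real h.diff hreal x hxN
    have hexp : cexp (φ (x : ℂ)) = ((Real.exp (φ (x : ℂ)).re : ℝ) : ℂ) := by
      have h2 : φ (x : ℂ) = (((φ (x : ℂ)).re : ℝ) : ℂ) := by
        apply Complex.ext
        · simp
        · simpa using him
      rw [Complex.ofReal_exp, ← h2]
    have hball : (x : ℂ) ∈ ball (N : ℂ) (ϱ * N) := by
      rw [mem_ball, dist_eq_norm]
      have : ((x : ℂ) - (N : ℂ)) = ((x - N : ℝ) : ℂ) := by push_cast; ring
      rw [this, Complex.norm_real, Real.norm_eq_abs]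
      exact hxN
    have hnear := h.deriv_near _ hball
    have hre := (Complex.abs_re_le_norm _).trans hnear
    rw [Complex.sub_re, Complex.ofReal_re, abs_le] at hre
    have he := Real.exp_pos (φ (x : ℂ)).re
    rw [show (0 : ℕ) + 1 = 1 from rfl, h1, h0, hexp, Complex.re_mul_ofReal, Complex.ofReal_re]
    refine ⟨he, ?_, ?_⟩
    · apply mul_le_mul_of_nonneg_right _ he.le
      nlinarith [hre.1]
    · apply mul_le_mul_of_nonneg_right _ he.le
      nlinarith [hre.2]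
  · obtain ⟨s, hs1, hs2, hsad⟩ := saddle hc hϵ hϵ' hϱ hN h hreal j (by linarith) x hx
    have hs0 : 0 < s := by nlinarith
    obtain ⟨J, hJ1, hJ2, hJ⟩ := gm_form hc hϵ hϵ' hϱ hN h hreal hx hs1 hj1 (Or.inl rfl) hj hsad
    obtain ⟨J', hJ1', hJ2', hJ'⟩ := gm_form hc hϵ hϵ' hϱ hN h hreal hx hs1 hj1 (Or.inr rfl) hj hsad
    have hstep := saddle_step hc hϵ hϵ' hϱ hN h j hj x hx hs1 hsad
    have hcast : (((j + 1 : ℕ) : ℝ)) = (j : ℝ) + 1 := by push_cast; ring
    rw [hcast] at hJ'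
    set A : ℝ := (φ ((x + (j : ℝ) / s : ℝ) : ℂ)).re with hA
    set B : ℝ := (φ ((x + ((j : ℝ) + 1) / s : ℝ) : ℂ)).re with hB
    have hδ := (Complex.abs_re_le_norm _).trans hstep
    rw [Complex.sub_re, Complex.sub_re, Complex.one_re] at hδ
    change |B - A - 1| ≤ ϵ at hδ
    rw [abs_le] at hδ
    set P : ℝ := s ^ j * Real.exp (A - j) with hP
    have hP0 : 0 < P := by positivity
    have hP' : s ^ (j + 1) * Real.exp (B - ((j : ℝ) + 1)) = P * (s * Real.exp (B - A - 1)) := by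
      rw [hP, show B - ((j : ℝ) + 1) = (A - j) + (B - A - 1) by ring, Real.exp_add, pow_succ]
      ring
    rw [hJ, hJ', hP']
    have he1 : 0.98 ≤ Real.exp (B - A - 1) := by
      have := Real.add_one_le_exp (B - A - 1)
      linarith [hδ.1]
    have he2 : Real.exp (B - A - 1) ≤ 2 := by
      have h1 : B - A - 1 ≤ 1 / 2 := by linarith [hδ.2]
      have h2 : Real.exp (B - A - 1) ≤ Real.exp (1 / 2) := Real.exp_le_exp.2 h1
      have h3 : Real.exp (1 / 2) ≤ 2 := by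
        have h4 : Real.exp (1 / 2) * Real.exp (1 / 2) = Real.exp 1 := by
          rw [← Real.exp_add]; norm_num
        have h5 := Real.exp_one_lt_d9
        nlinarith [Real.exp_pos (1 / 2)]
      linarith
    refine ⟨by positivity, ?_, ?_⟩
    · have h1 : PRT.sig c N / 4 * J ≤ s * Real.exp (B - A - 1) * J' := by
        have h2 : 0.99 * PRT.sig c N ≤ s := by nlinarith
        have h3 : 0.99 * PRT.sig c N * 0.98 ≤ s * Real.exp (B - A - 1) := by
          apply mul_le_mul h2 he1 (by norm_num) hs0.le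
        have h4 : 0.99 * PRT.sig c N * 0.98 * (3 / 4) ≤ s * Real.exp (B - A - 1) * J' := by
          apply mul_le_mul h3 hJ1' (by norm_num)
          positivity
        have h5 : PRT.sig c N / 4 * J ≤ PRT.sig c N / 4 * (5 / 4) :=
          mul_le_mul_of_nonneg_left hJ2 (by positivity)
        linarith
      calc PRT.sig c N / 4 * (P * J) = P * (PRT.sig c N / 4 * J) := by ring
        _ ≤ P * (s * Real.exp (B - A - 1) * J') := mul_le_mul_of_nonneg_left h1 hP0.le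
        _ = P * (s * Real.exp (B - A - 1)) * J' := by ring
    · have h1 : s * Real.exp (B - A - 1) * J' ≤ 4 * PRT.sig c N * J := by
        have h2 : s ≤ 1.01 * PRT.sig c N := by nlinarith
        have h3 : s * Real.exp (B - A - 1) ≤ 1.01 * PRT.sig c N * 2 := by
          apply mul_le_mul h2 he2 (Real.exp_pos _).le
          positivity
        have h4 : s * Real.exp (B - A - 1) * J' ≤ 1.01 * PRT.sig c N * 2 * (5 / 4) := by
          apply mul_le_mul h3 hJ2' (by linarith)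
          positivity
        have h5 : 4 * PRT.sig c N * (3 / 4) ≤ 4 * PRT.sig c N * J :=
          mul_le_mul_of_nonneg_left hJ1 (by positivity)
        linarith
      calc P * (s * Real.exp (B - A - 1)) * J' = P * (s * Real.exp (B - A - 1) * J') := by ring
        _ ≤ P * (4 * PRT.sig c N * J) := mul_le_mul_of_nonneg_left h1 hP0.le
        _ = 4 * PRT.sig c N * (P * J) := by ring

end QPL
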