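import Pool.Agent.QPL.Defs

set_option autoImplicit false

namespace QPL

open Complex Metric

theorem mem_ball_real_aux {N : ℕ} {ρ : ℝ} (x : ℝ) (hx : |x - N| < ρ) :
    (x : ℂ) ∈ ball (N : ℂ) ρ := by
  rw [mem_ball, dist_eq_norm]
  have e : (x : ℂ) - (N : ℂ) = ((x - N : ℝ) : ℂ) := by push_cast; ring
  rw [e, Complex.norm_real, Real.norm_eq_abs]
  exact hx

theorem itd_hasDerivAt_aux {G : ℂ → ℂ} {N : ℕ} {ρ : ℝ}
    (hG : DifferentiableOn ℂ G (ball (N : ℂ) ρ)) (m : ℕ) (z : ℂ) (hz : z ∈ ball (N : ℂ) ρ) :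
    HasDerivAt (iteratedDeriv m G) (iteratedDeriv (m + 1) G z) z := by
  have han : AnalyticAt ℂ G z := hG.analyticAt (isOpen_ball.mem_nhds hz)
  have h1 : AnalyticAt ℂ (deriv^[m] G) z := han.iterated_deriv m
  have h2 := h1.differentiableAt.hasDerivAt
  rw [iteratedDeriv_succ, iteratedDeriv_eq_iterate]
  exact h2

theorem exp_diffOn_aux {φ : ℂ → ℂ} {N : ℕ} {ρ : ℝ} (hφ : DifferentiableOn ℂ φ (ball (N : ℂ) ρ)) :
    DifferentiableOn ℂ (fun z => cexp (φ z)) (ball (N : ℂ) ρ) := hφ.cexp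

/-- if a complex-differentiable function is real on the real axis near `x`, so is its
derivative at `x` -/
theorem deriv_im_zero_aux {f : ℂ → ℂ} {f' : ℂ} {N : ℕ} {ρ : ℝ}
    (hreal : ∀ x : ℝ, |x - N| < ρ → (f (x : ℂ)).im = 0) (x : ℝ) (hx : |x - N| < ρ)
    (hf : HasDerivAt f f' (x : ℂ)) : f'.im = 0 := by
  have h1 : HasDerivAt (fun y : ℝ => f (y : ℂ)) f' x := hf.comp_ofReal
  have h2 : HasDerivAt (fun y : ℝ => (f (y : ℂ)).im) f'.im x := by
    exact (Complex.imCLM.hasFDerivAt (x := f (x : ℂ))).comp_hasDerivAt x h1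
  have hop : IsOpen {y : ℝ | |y - N| < ρ} :=
    isOpen_lt (by fun_prop) continuous_const
  have hev : (fun y : ℝ => (f (y : ℂ)).im) =ᶠ[nhds x] fun _ => (0 : ℝ) := by
    filter_upwards [hop.mem_nhds hx] with y hy
    exact hreal y hy
  have h3 : HasDerivAt (fun y : ℝ => (f (y : ℂ)).im) 0 x :=
    (hasDerivAt_const x (0 : ℝ)).congr_of_eventuallyEq hev
  exact h2.unique h3

/-- RLA (a). The iterated derivatives of a holomorphic function (here `exp ∘ φ` on a ball) which is real on the real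
axis are real there: induction on `m`, the derivative along the real axis of a function with zero imaginary part
(`HasDerivAt.real_of_complex`/`HasDerivAt.comp_ofReal`). -/
theorem gm_real {φ : ℂ → ℂ} {N : ℕ} {ρ : ℝ} (hφ : DifferentiableOn ℂ φ (ball (N : ℂ) ρ))
    (hreal : ∀ x : ℝ, |x - N| < ρ → (φ (x : ℂ)).im = 0) (m : ℕ) (x : ℝ) (hx : |x - N| < ρ) :
    (gm φ m x).im = 0 := by
  induction m generalizing x with
  | zero =>
    have h := hreal x hx
    simp only [gm, iteratedDeriv_zero]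
    rw [Complex.exp_im, h, Real.sin_zero, mul_zero]
  | succ m ih =>
    exact deriv_im_zero_aux (f := iteratedDeriv m (fun z => cexp (φ z)))
      (fun y hy => ih y hy) x hx
      (itd_hasDerivAt_aux (exp_diffOn_aux hφ) m (x : ℂ) (mem_ball_real_aux x hx))

/-- RLA (b). -/
theorem gm_hasDerivAt {φ : ℂ → ℂ} {N : ℕ} {ρ : ℝ} (hφ : DifferentiableOn ℂ φ (ball (N : ℂ) ρ))
    (m : ℕ) (x : ℝ) (hx : |x - N| < ρ) :
    HasDerivAt (fun y : ℝ => (gm φ m y).re) ((gm φ (m + 1) x).re) x := by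
  exact (itd_hasDerivAt_aux (exp_diffOn_aux hφ) m (x : ℂ) (mem_ball_real_aux x hx)).real_of_complex

/-- RLA (c). `φ'` is real on the real axis. -/
theorem deriv_real {φ : ℂ → ℂ} {N : ℕ} {ρ : ℝ} (hφ : DifferentiableOn ℂ φ (ball (N : ℂ) ρ))
    (hreal : ∀ x : ℝ, |x - N| < ρ → (φ (x : ℂ)).im = 0) (x : ℝ) (hx : |x - N| < ρ) :
    (deriv φ (x : ℂ)).im = 0 := by
  have hd : DifferentiableAt ℂ φ (x : ℂ) :=
    hφ.differentiableAt (isOpen_ball.mem_nhds (mem_ball_real_aux x hx))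
  exact deriv_im_zero_aux hreal x hx hd.hasDerivAt

/-- RLA (d). `gm φ 0` and `gm φ 1`. -/
theorem gm_zero_one {φ : ℂ → ℂ} {N : ℕ} {ρ : ℝ} (hφ : DifferentiableOn ℂ φ (ball (N : ℂ) ρ))
    (x : ℝ) (hx : |x - N| < ρ) :
    gm φ 0 x = cexp (φ (x : ℂ)) ∧ gm φ 1 x = deriv φ (x : ℂ) * cexp (φ (x : ℂ)) := by
  have hd : DifferentiableAt ℂ φ (x : ℂ) :=
    hφ.differentiableAt (isOpen_ball.mem_nhds (mem_ball_real_aux x hx))
  refine ⟨by simp only [gm, iteratedDeriv_zero], ?_⟩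
  simp only [gm, iteratedDeriv_one]
  rw [hd.hasDerivAt.cexp.deriv, mul_comm]

end QPL
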