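import Pool.Agent.QPL.GRD
import Pool.Agent.QPL.FEJ

set_option autoImplicit false

namespace QPL

open Finset

private theorem tele (R : ℕ) :
    ∑ n ∈ Finset.Icc 1 R, Real.log (1 + 1 / (n : ℝ)) = Real.log ((R : ℝ) + 1) := by
  induction R with
  | zero => simp
  | succ R ih =>
    rw [Finset.sum_Icc_succ_top (by omega), ih]
    push_cast
    have h1 : (0 : ℝ) < (R : ℝ) + 1 := by positivity
    rw [← Real.log_mul (by positivity) (by positivity)]
    congr 1
    field_simp

private theorem n_log (n : ℕ) (hn : 1 ≤ n) : Real.log 2 ≤ n * Real.log (1 + 1 / (n : ℝ)) := by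
  have hn0 : (0 : ℝ) < n := by exact_mod_cast hn
  rw [← Real.log_pow]
  refine Real.log_le_log (by norm_num) ?_
  have h1 := one_add_mul_le_pow (show (-2 : ℝ) ≤ 1 / (n : ℝ) by
    have : (0 : ℝ) < 1 / (n : ℝ) := by positivity
    linarith) n
  have h2 : 1 + (n : ℝ) * (1 / n) = 2 := by
    field_simp
    norm_num
  linarith

/-- the `h`-th angle -/
private noncomputable def ang (Q h : ℕ) : ℝ := Real.pi * h / Q

/-- the test functions -/
private noncomputable def psi (R Q : ℕ) (i : ℕ × ℕ) (n : ℕ) : ℝ :=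
  if i.1 = 0 then (n : ℝ) / R
  else if n ≤ i.1 ∧ 1 / ((i.1 : ℝ) + 1) ≤ ang Q i.2 then
    ang Q i.2 / Real.pi * Dn n (ang Q i.2) else 0

/-- the index set -/
private def idx (R Q : ℕ) : Finset (ℕ × ℕ) := insert (0, 0) (Finset.Icc 1 R ×ˢ Finset.Icc 1 Q)

private theorem ang_pos {Q h : ℕ} (h1 : 1 ≤ h) (h2 : h ≤ Q) : 0 < ang Q h ∧ ang Q h ≤ Real.pi := by
  have hh : (0 : ℝ) < h := by exact_mod_cast h1
  have hQ : (0 : ℝ) < Q := by exact_mod_cast (lt_of_lt_of_le (by omega : 0 < h) h2)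
  have hhQ : (h : ℝ) ≤ Q := by exact_mod_cast h2
  unfold ang
  refine ⟨by positivity, ?_⟩
  rw [div_le_iff₀ hQ]
  exact mul_le_mul_of_nonneg_left hhQ Real.pi_pos.le

private theorem psi_abs {R Q : ℕ} (hR : 1 ≤ R) : ∀ i ∈ idx R Q, ∀ n ∈ Finset.Icc 1 R,
    |psi R Q i n| ≤ 1 := by
  intro i hi n hn
  rw [Finset.mem_Icc] at hn
  have hR0 : (0 : ℝ) < R := by exact_mod_cast hR
  unfold psi
  split_ifs with h1 h2
  · rw [abs_of_nonneg (by positivity), div_le_one hR0]
    exact_mod_cast hn.2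
  · rcases Finset.mem_insert.1 hi with h3 | h3
    · exact absurd (by rw [h3]) h1
    · rw [Finset.mem_product, Finset.mem_Icc, Finset.mem_Icc] at h3
      obtain ⟨h4, h5⟩ := ang_pos h3.2.1 h3.2.2
      have h6 := Dn_abs n h4 h5
      have h7 : 0 < ang Q i.2 / Real.pi := div_pos h4 Real.pi_pos
      rw [abs_mul, abs_of_pos h7]
      calc ang Q i.2 / Real.pi * |Dn n (ang Q i.2)| ≤ ang Q i.2 / Real.pi * (Real.pi / ang Q i.2) :=
            mul_le_mul_of_nonneg_left h6 h7.le
        _ = 1 := by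
            have := Real.pi_ne_zero
            have := h4.ne'
            field_simp
  · rw [abs_zero]
    exact zero_le_one

private theorem SY_lip {R b : ℕ} (ν : ℕ → ℕ) (hν : ∀ i, 1 ≤ ν i ∧ ν i ≤ R) (y : ℕ) (θ θ' : ℝ) :
    |SY ν b y θ - SY ν b y θ'| ≤ b * (R : ℝ) ^ 2 * |θ - θ'| := by
  unfold SY
  rw [← Finset.sum_sub_distrib]
  refine (Finset.abs_sum_le_sum_abs _ _).trans ?_
  have h1 : ∀ i ∈ (Finset.range b).filter (fun i => ν i ≤ y),
      |Dn (ν i) θ - Dn (ν i) θ'| ≤ (R : ℝ) ^ 2 * |θ - θ'| := by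
    intro i _
    refine (Dn_lip (ν i) θ θ').trans ?_
    refine mul_le_mul_of_nonneg_right ?_ (abs_nonneg _)
    have : (ν i : ℝ) ≤ R := by exact_mod_cast (hν i).2
    exact pow_le_pow_left₀ (Nat.cast_nonneg _) this 2
  refine (Finset.sum_le_sum h1).trans ?_
  rw [Finset.sum_const, nsmul_eq_mul, mul_assoc]
  refine mul_le_mul_of_nonneg_right ?_ (by positivity)
  have h2 := Finset.card_filter_le (Finset.range b) (fun i => ν i ≤ y)
  rw [Finset.card_range] at h2
  exact_mod_cast h2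

/-- SEL. Selection of the cut-offs. `greedy` with `S = [1,R]`, `p n = log (1+1/n)/log (R+1)` (sum 1),
`I = {(y, h) : 1 ≤ y ≤ R, 1 ≤ h ≤ Q'} ∪ {*}`, `Q' = 4 b R²` (natural number), `θ_h = π h/Q'`,
`ψ_{y,h} n = (θ_h/π) Dn n θ_h` if `n ≤ y` and `θ_h ≥ 1/(y+1)`, else `0`; `ψ_* n = n/R`; `log |I| ≤ 8 L`
(`|I| ≤ 4 b R³ + 1`); `lam = 1/(2000 log (R+1))` capped by `1/2` (or `lam = 1/(2000 L')` ..., any choice).
`M' = b/log (R+1)`. The error `log |I|/lam + 4 b lam` is `≤ M'/(200)` when `b ≥ C L³`.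
(1) `(θ/π) SY ≥ b μ - err`, `b μ_{y,h} = (θ/π) M' ∑_{n≤y} log(1+1/n) Dn n θ ≥ (θ/π) M' (1/(20θ) - 1 - log(y+1))`
(`WW_lower`), so `SY(θ_h) ≥ M'/(40 θ_h) - M' (1 + log (R+1)) ≥ M'/(40 θ_h) - 2.5 b`. For general
`θ ∈ [1/(y+1), π]` take the next `θ_h ≥ θ`: the change is `≤ b R² π/Q' ≤ 1` (`Dn_lip`) and `1/θ_h ≥ 1/(2θ)`; so
`SY(θ) ≥ M'/(80θ) - 2.5b - 1 ≥ π/θ - (3b+1)` since `M' ≥ 80π`. `y = 0`: `SY = 0`, `θ ≥ 1`.
(2) `∑ ν i/R ≥ b μ_* - err`, `μ_* = (1/(R log(R+1))) ∑ n log(1+1/n) ≥ log 2/log(R+1)`, so `∑ ν i ≥ M' R/2`. -/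
theorem selection : ∃ C : ℝ, 1 ≤ C ∧ ∀ (R b : ℕ) (L : ℝ), 1 ≤ R → 1 ≤ L → Real.log (R + 1) ≤ L →
    Real.log b ≤ L → C * L ^ 3 ≤ b →
    ∃ ν : ℕ → ℕ, (∀ i, 1 ≤ ν i ∧ ν i ≤ R) ∧
      (∀ y ≤ R, ∀ θ : ℝ, 1 / ((y : ℝ) + 1) ≤ θ → θ ≤ Real.pi →
        Real.pi / θ - (3 * b + 1) ≤ SY ν b y θ) ∧
      (b : ℝ) * R / (2 * Real.log (R + 1)) ≤ ∑ i ∈ Finset.range b, (ν i : ℝ) := by
  refine ⟨8000000, by norm_num, fun R b L hR hL hΛ hb hC => ?_⟩
  have hR1 : (1 : ℝ) ≤ R := by exact_mod_cast hR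
  have hR0 : (0 : ℝ) < R := by linarith
  have hL3 : (1 : ℝ) ≤ L ^ 3 := one_le_pow₀ hL
  have hbig : (8000000 : ℝ) ≤ b := by nlinarith
  have hb0 : (0 : ℝ) < b := by linarith
  have hbN : 8000000 ≤ b := by exact_mod_cast hbig
  set Λ : ℝ := Real.log ((R : ℝ) + 1) with hΛdef
  have hΛ2 : Real.log 2 ≤ Λ := Real.log_le_log (by norm_num) (by linarith)
  have hl2 := Real.log_two_gt_d9
  have hΛ0 : 0 < Λ := by linarith
  set M : ℝ := (b : ℝ) / Λ with hM
  have hMΛ : M * Λ = b := by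
    rw [hM]
    field_simp
  have hM0 : 0 < M := by positivity
  have hML : 8000000 * L ^ 2 ≤ M := by
    rw [hM, le_div_iff₀ hΛ0]
    have h1 : 8000000 * L ^ 2 * Λ ≤ 8000000 * L ^ 2 * L :=
      mul_le_mul_of_nonneg_left hΛ (by positivity)
    have h2 : 8000000 * L ^ 2 * L = 8000000 * L ^ 3 := by ring
    linarith
  have hMbig : (8000000 : ℝ) ≤ M := by
    have : (1 : ℝ) ≤ L ^ 2 := one_le_pow₀ hL
    linarith
  set Q : ℕ := 4 * b * R ^ 2 with hQ
  have hQR : (Q : ℝ) = 4 * b * (R : ℝ) ^ 2 := by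
    rw [hQ]
    push_cast
    ring
  have hQ0 : (0 : ℝ) < Q := by
    rw [hQR]
    positivity
  set lam : ℝ := 1 / (2000 * Λ) with hlam
  have hlam0 : 0 < lam := by positivity
  have hlam1 : lam ≤ 1 / 2 := by
    rw [hlam]
    exact one_div_le_one_div_of_le (by norm_num) (by linarith)
  have hpsum : ∑ a ∈ Finset.Icc 1 R, Real.log (1 + 1 / (a : ℝ)) / Λ = 1 := by
    rw [← Finset.sum_div, tele, ← hΛdef, div_self hΛ0.ne']
  have hpnn : ∀ a ∈ Finset.Icc 1 R, 0 ≤ Real.log (1 + 1 / (a : ℝ)) / Λ := by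
    intro a _
    refine div_nonneg (Real.log_nonneg ?_) hΛ0.le
    have : (0 : ℝ) ≤ 1 / (a : ℝ) := by positivity
    linarith
  obtain ⟨ν, hν, hg⟩ := greedy (Finset.Icc 1 R) (fun a => Real.log (1 + 1 / (a : ℝ)) / Λ) hpnn hpsum
    (idx R Q) (psi R Q) (psi_abs hR) lam hlam0 hlam1 b
  have hν' : ∀ i, 1 ≤ ν i ∧ ν i ≤ R := fun i => Finset.mem_Icc.1 (hν i)
  have hcard : Real.log (idx R Q).card ≤ 8 * L := by
    have h1 : (idx R Q).card ≤ R * Q + 1 := by
      unfold idx
      refine (Finset.card_insert_le _ _).trans ?_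
      rw [Finset.card_product, Nat.card_Icc, Nat.card_Icc]
      simp
    have h2 : ((idx R Q).card : ℝ) ≤ R * Q + 1 := by exact_mod_cast h1
    have h3 : (R : ℝ) * Q + 1 ≤ 8 * b * ((R : ℝ) + 1) ^ 3 := by
      rw [hQR]
      have h4 : (R : ℝ) ^ 3 ≤ ((R : ℝ) + 1) ^ 3 := pow_le_pow_left₀ hR0.le (by linarith) 3
      have h5 : (1 : ℝ) ≤ ((R : ℝ) + 1) ^ 3 := one_le_pow₀ (by linarith)
      have h6 : (R : ℝ) * (4 * b * (R : ℝ) ^ 2) = 4 * b * (R : ℝ) ^ 3 := by ring
      rw [h6]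
      have h7 : 4 * (b : ℝ) * (R : ℝ) ^ 3 ≤ 4 * b * ((R : ℝ) + 1) ^ 3 :=
        mul_le_mul_of_nonneg_left h4 (by positivity)
      have h8 : 4 * (b : ℝ) * 1 ≤ 4 * b * ((R : ℝ) + 1) ^ 3 :=
        mul_le_mul_of_nonneg_left h5 (by positivity)
      linarith
    have h0 : (0 : ℝ) < (idx R Q).card := by
      have : 0 < (idx R Q).card := Finset.card_pos.2 ⟨(0, 0), Finset.mem_insert_self _ _⟩
      exact_mod_cast this
    have h9 := Real.log_le_log h0 (h2.trans h3)
    refine h9.trans ?_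
    rw [Real.log_mul (by positivity) (by positivity), Real.log_mul (by norm_num) (by positivity),
      Real.log_pow, show (8 : ℝ) = 2 ^ 3 by norm_num, Real.log_pow, ← hΛdef]
    push_cast
    linarith
  have herr : Real.log (idx R Q).card / lam + 4 * b * lam ≤ M / 250 := by
    have h1 : Real.log (idx R Q).card / lam ≤ M / 500 := by
      rw [hlam, div_div_eq_mul_div, div_one]
      have h2 : Real.log (idx R Q).card * (2000 * Λ) ≤ 8 * L * (2000 * Λ) :=
        mul_le_mul_of_nonneg_right hcard (by positivity)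
      have h3 : 8 * L * (2000 * Λ) ≤ 8 * L * (2000 * L) :=
        mul_le_mul_of_nonneg_left (by linarith) (by positivity)
      have h4 : 8 * L * (2000 * L) = 16000 * L ^ 2 := by ring
      linarith
    have h5 : 4 * b * lam = M / 500 := by
      rw [hlam, hM]
      field_simp
      norm_num
    linarith
  have hidx : ∀ y h, 1 ≤ y → y ≤ R → 1 ≤ h → h ≤ Q → (y, h) ∈ idx R Q := by
    intro y h h1 h2 h3 h4
    refine Finset.mem_insert_of_mem (Finset.mem_product.2 ⟨Finset.mem_Icc.2 ⟨h1, h2⟩,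
      Finset.mem_Icc.2 ⟨h3, h4⟩⟩)
  -- the bound at the grid angles
  have hgrid : ∀ y h, 1 ≤ y → y ≤ R → 1 ≤ h → h ≤ Q → 1 / ((y : ℝ) + 1) ≤ ang Q h →
      M / (40 * ang Q h) - 5 / 2 * b ≤ SY ν b y (ang Q h) := by
    intro y h hy hyR hh hhQ hyh
    have h1 := hg (y, h) (hidx y h hy hyR hh hhQ)
    obtain ⟨ht0, htπ⟩ := ang_pos hh hhQ
    have hWW := WW_lower hy hyh htπ
    have hpsi : ∀ n, psi R Q (y, h) n = if n ≤ y then ang Q h / Real.pi * Dn n (ang Q h) else 0 := by
      intro n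
      unfold psi
      rw [if_neg (show ¬ (y, h).1 = 0 by simpa using (by omega : ¬ y = 0))]
      by_cases hn : n ≤ y
      · rw [if_pos ⟨hn, hyh⟩, if_pos hn]
      · rw [if_neg (fun hc => hn hc.1), if_neg hn]
    have h2 : ∑ a ∈ Finset.Icc 1 R, Real.log (1 + 1 / (a : ℝ)) / Λ * psi R Q (y, h) a =
        ang Q h / (Real.pi * Λ) * ∑ n ∈ Finset.Icc 1 y, Real.log (1 + 1 / (n : ℝ)) * Dn n (ang Q h) := by
      have h3 : ∀ a ∈ Finset.Icc 1 R, Real.log (1 + 1 / (a : ℝ)) / Λ * psi R Q (y, h) a =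
          if a ≤ y then ang Q h / (Real.pi * Λ) * (Real.log (1 + 1 / (a : ℝ)) * Dn a (ang Q h))
          else 0 := by
        intro a _
        rw [hpsi]
        split_ifs
        · have := Real.pi_ne_zero
          field_simp
        · rw [mul_zero]
      rw [Finset.sum_congr rfl h3, ← Finset.sum_filter, Finset.mul_sum]
      refine Finset.sum_congr ?_ fun _ _ => rfl
      ext a
      rw [Finset.mem_filter, Finset.mem_Icc, Finset.mem_Icc]
      omega
    have h4 : ∑ t ∈ Finset.range b, psi R Q (y, h) (ν t) = ang Q h / Real.pi * SY ν b y (ang Q h) := by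
      unfold SY
      rw [Finset.mul_sum, Finset.sum_filter]
      exact Finset.sum_congr rfl fun t _ => hpsi _
    rw [h2, h4] at h1
    set t := ang Q h with ht
    set W := ∑ n ∈ Finset.Icc 1 y, Real.log (1 + 1 / (n : ℝ)) * Dn n t with hW
    have hlogy : Real.log ((y : ℝ) + 1) ≤ Λ := by
      refine Real.log_le_log (by positivity) ?_
      have : (y : ℝ) ≤ R := by exact_mod_cast hyR
      linarith
    have hW' : 1 / (20 * t) - 1 - Λ ≤ W := by linarith
    have hπ := Real.pi_pos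
    -- multiply by `π / t`
    have h5 : (b : ℝ) * (t / (Real.pi * Λ) * W) = t / Real.pi * (M * W) := by
      rw [hM]
      field_simp
    rw [h5] at h1
    have h6 : t / Real.pi * (M * W - SY ν b y t) ≤ M / 250 := by
      have : t / Real.pi * (M * W - SY ν b y t) =
        t / Real.pi * (M * W) - t / Real.pi * SY ν b y t := by ring
      rw [this]
      linarith
    have h7 : M * W - SY ν b y t ≤ M / 250 * (Real.pi / t) := by
      have h8 : (M * W - SY ν b y t) = (t / Real.pi * (M * W - SY ν b y t)) * (Real.pi / t) := by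
        field_simp
      rw [h8]
      exact mul_le_mul_of_nonneg_right h6 (by positivity)
    have h9 : M * (1 / (20 * t) - 1 - Λ) ≤ M * W := mul_le_mul_of_nonneg_left hW' hM0.le
    have h10 : M * (1 / (20 * t) - 1 - Λ) = M / (20 * t) - M - b := by
      rw [mul_sub, mul_sub, hMΛ]
      ring
    have h11 : M ≤ 3 / 2 * b := by
      rw [← hMΛ]
      have : M * 1 ≤ M * (3 / 2 * Λ) := mul_le_mul_of_nonneg_left (by linarith) hM0.le
      linarith
    have h12 : M / 250 * (Real.pi / t) ≤ M / (20 * t) - M / (40 * t) := by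
      have h13 : M / (20 * t) - M / (40 * t) = M / 250 * ((250 / 40) / t) := by
        field_simp
        ring
      rw [h13]
      refine mul_le_mul_of_nonneg_left ?_ (by positivity)
      refine div_le_div_of_nonneg_right ?_ ht0.le
      linarith [Real.pi_lt_d2]
    linarith
  refine ⟨ν, hν', ?_, ?_⟩
  · intro y hy θ hθ hθπ
    have hy0 : (0 : ℝ) ≤ y := Nat.cast_nonneg y
    have hθ0 : 0 < θ := lt_of_lt_of_le (by positivity) hθ
    rcases Nat.eq_zero_or_pos y with h0 | hy1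
    · subst h0
      have h1 : SY ν b 0 θ = 0 := by
        unfold SY
        refine Finset.sum_eq_zero fun i hi => ?_
        have h2 := (Finset.mem_filter.1 hi).2
        have h3 := (hν' i).1
        omega
      rw [h1]
      have h2 : (1 : ℝ) ≤ θ := by simpa using hθ
      have h3 : Real.pi / θ ≤ Real.pi := div_le_self Real.pi_pos.le h2
      linarith [Real.pi_lt_d2]
    · -- the next grid angle
      set h : ℕ := ⌈θ * Q / Real.pi⌉₊ with hh
      have hx0 : 0 < θ * Q / Real.pi := by positivity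
      have h1 : 1 ≤ h := Nat.ceil_pos.2 hx0
      have h2 : h ≤ Q := by
        refine Nat.ceil_le.2 ?_
        rw [div_le_iff₀ Real.pi_pos, mul_comm]
        exact mul_le_mul_of_nonneg_left hθπ hQ0.le
      have h3 : θ ≤ ang Q h := by
        have h4 := Nat.le_ceil (θ * Q / Real.pi)
        rw [← hh, div_le_iff₀ Real.pi_pos] at h4
        unfold ang
        rw [le_div_iff₀ hQ0]
        linarith
      have h4 : ang Q h - θ ≤ Real.pi / Q := by
        have h5 := (Nat.ceil_lt_add_one hx0.le).le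
        rw [← hh] at h5
        have h6 : ang Q h ≤ Real.pi * (θ * Q / Real.pi + 1) / Q := by
          unfold ang
          exact div_le_div_of_nonneg_right (mul_le_mul_of_nonneg_left h5 Real.pi_pos.le) hQ0.le
        have h7 : Real.pi * (θ * Q / Real.pi + 1) / Q = θ + Real.pi / Q := by
          have := Real.pi_ne_zero
          field_simp
        linarith
      obtain ⟨h5, h6⟩ := ang_pos h1 h2
      have h7 := hgrid y h hy1 hy h1 h2 (hθ.trans h3)
      have h8 := SY_lip (b := b) ν hν' y θ (ang Q h)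
      have h9 : |θ - ang Q h| ≤ Real.pi / Q := by
        rw [abs_sub_comm, abs_of_nonneg (by linarith)]
        exact h4
      have h10 : (b : ℝ) * (R : ℝ) ^ 2 * |θ - ang Q h| ≤ 1 := by
        have h11 : (b : ℝ) * (R : ℝ) ^ 2 * |θ - ang Q h| ≤ b * (R : ℝ) ^ 2 * (Real.pi / Q) :=
          mul_le_mul_of_nonneg_left h9 (by positivity)
        have h12 : (b : ℝ) * (R : ℝ) ^ 2 * (Real.pi / Q) = Real.pi / 4 := by
          rw [hQR]
          field_simp
        have := Real.pi_lt_d2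
        linarith
      have h13 : SY ν b y (ang Q h) - 1 ≤ SY ν b y θ := by
        have := (abs_le.1 (h8.trans h10)).1
        linarith
      -- `ang ≤ 2 θ`
      have h14 : ang Q h ≤ 2 * θ := by
        have h15 : Real.pi / Q ≤ θ := by
          refine le_trans ?_ hθ
          rw [div_le_div_iff₀ hQ0 (by positivity), hQR, one_mul]
          have h16 : (y : ℝ) + 1 ≤ 2 * R := by
            have : (y : ℝ) ≤ R := by exact_mod_cast hy
            linarith
          have h17 : Real.pi * ((y : ℝ) + 1) ≤ 4 * (2 * R) :=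
            mul_le_mul (by linarith [Real.pi_lt_d2]) h16 (by positivity) (by norm_num)
          have h18 : (4 : ℝ) * (2 * R) ≤ 4 * (b * (R : ℝ) ^ 2) := by
            have h19 : (2 : ℝ) * R ≤ b * R := mul_le_mul_of_nonneg_right (by linarith) hR0.le
            have h20 : (b : ℝ) * R ≤ b * (R : ℝ) ^ 2 := by
              refine mul_le_mul_of_nonneg_left ?_ hb0.le
              nlinarith
            linarith
          linarith
        linarith
      have h21 : M / (80 * θ) ≤ M / (40 * ang Q h) := by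
        refine div_le_div_of_nonneg_left hM0.le (by positivity) ?_
        linarith
      have h22 : Real.pi / θ ≤ M / (80 * θ) := by
        rw [div_le_div_iff₀ hθ0 (by positivity)]
        have h23 : Real.pi * (80 * θ) = (80 * Real.pi) * θ := by ring
        rw [h23]
        exact mul_le_mul_of_nonneg_right (by linarith [Real.pi_lt_d2]) hθ0.le
      linarith
  · have h1 := hg (0, 0) (Finset.mem_insert_self _ _)
    have hpsi : ∀ n, psi R Q (0, 0) n = (n : ℝ) / R := by
      intro n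
      unfold psi
      rw [if_pos rfl]
    have h2 : Real.log 2 / Λ ≤ ∑ a ∈ Finset.Icc 1 R, Real.log (1 + 1 / (a : ℝ)) / Λ * psi R Q (0, 0) a := by
      have h3 : ∀ a ∈ Finset.Icc 1 R, Real.log 2 / (Λ * R) ≤
          Real.log (1 + 1 / (a : ℝ)) / Λ * psi R Q (0, 0) a := by
        intro a ha
        rw [hpsi]
        have h4 := n_log a (Finset.mem_Icc.1 ha).1
        have h5 : Real.log (1 + 1 / (a : ℝ)) / Λ * (a / R) =
          (a * Real.log (1 + 1 / (a : ℝ))) / (Λ * R) := by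
          field_simp
        rw [h5]
        exact div_le_div_of_nonneg_right h4 (by positivity)
      have h6 := Finset.card_nsmul_le_sum _ _ _ h3
      rw [Nat.card_Icc, nsmul_eq_mul] at h6
      refine le_trans (le_of_eq ?_) h6
      have h7 : ((R + 1 - 1 : ℕ) : ℝ) = R := by simp
      rw [h7]
      field_simp
    have h4 : ∑ t ∈ Finset.range b, psi R Q (0, 0) (ν t) = (∑ t ∈ Finset.range b, (ν t : ℝ)) / R := by
      rw [Finset.sum_div]
      exact Finset.sum_congr rfl fun t _ => hpsi _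
    rw [h4] at h1
    have h5 : (b : ℝ) * (Real.log 2 / Λ) ≤
        b * ∑ a ∈ Finset.Icc 1 R, Real.log (1 + 1 / (a : ℝ)) / Λ * psi R Q (0, 0) a :=
      mul_le_mul_of_nonneg_left h2 hb0.le
    have h6 : (b : ℝ) * (Real.log 2 / Λ) = M * Real.log 2 := by
      rw [hM]
      ring
    have h7 : M * (1 / 2) ≤ (∑ t ∈ Finset.range b, (ν t : ℝ)) / R := by
      have h8 : M * (1 / 2 + 1 / 250) ≤ M * Real.log 2 :=
        mul_le_mul_of_nonneg_left (by linarith) hM0.le
      linarith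
    rw [le_div_iff₀ hR0] at h7
    refine le_trans (le_of_eq ?_) h7
    rw [hM]
    field_simp

end QPL
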